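import Mathlib

/-!
Nonnegative submodular functions and the closure sets at a given scale.
-/

namespace Pool.Agent.Lib.MP_348529_lc

open Finset

variable {V : Type} [Fintype V] [DecidableEq V]

/-- Nonnegative submodular set functions vanishing on the empty set and on the whole set. -/
structure Sub (g : Finset V → ℝ) : Prop where
  nonneg : ∀ S, 0 ≤ g S
  sub : ∀ S T, g (S ∪ T) + g (S ∩ T) ≤ g S + g T
  empty : g ∅ = 0
  univ : g univ = 0

namespace Sub

variable {g : Finset V → ℝ}

theorem union_le (h : Sub g) (S T : Finset V) : g (S ∪ T) ≤ g S + g T := by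
  linarith [h.sub S T, h.nonneg (S ∩ T)]

theorem inter_le (h : Sub g) (S T : Finset V) : g (S ∩ T) ≤ g S + g T := by
  linarith [h.sub S T, h.nonneg (S ∪ T)]

theorem biUnion_le (h : Sub g) (T : V → Finset V) (S : Finset V) :
    g (S.biUnion T) ≤ ∑ u ∈ S, g (T u) := by
  induction S using Finset.induction_on with
  | empty => simp [h.empty]
  | insert a s ha ih =>
    rw [biUnion_insert, sum_insert ha]
    linarith [h.union_le (T a) (s.biUnion T)]

theorem biUnion_le' (h : Sub g) (T : V → Finset V) (S : Finset V) :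
    g (S.biUnion T) ≤ ∑ u, g (T u) :=
  (h.biUnion_le T S).trans (sum_le_sum_of_subset_of_nonneg (subset_univ _) fun _ _ _ => h.nonneg _)

theorem compl (h : Sub g) : Sub (fun S => g Sᶜ) where
  nonneg S := h.nonneg _
  sub S T := by
    rw [compl_union, compl_inter]
    linarith [h.sub Sᶜ Tᶜ]
  empty := by simpa using h.univ
  univ := by simpa using h.empty

theorem smul (h : Sub g) {c : ℝ} (hc : 0 ≤ c) : Sub (fun S => c * g S) where
  nonneg S := mul_nonneg hc (h.nonneg _)
  sub S T := by nlinarith [h.sub S T]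
  empty := by simp [h.empty]
  univ := by simp [h.univ]

theorem sum {ι : Type} {E : Finset ι} {g : ι → Finset V → ℝ} (h : ∀ e ∈ E, Sub (g e)) :
    Sub (fun S => ∑ e ∈ E, g e S) where
  nonneg S := sum_nonneg fun e he => (h e he).nonneg _
  sub S T := by
    rw [← sum_add_distrib, ← sum_add_distrib]
    exact sum_le_sum fun e he => (h e he).sub S T
  empty := sum_eq_zero fun e he => (h e he).empty
  univ := sum_eq_zero fun e he => (h e he).univ

end Sub

/-- Cheapest value of a set containing `u` and avoiding `v`. -/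
noncomputable def kap (F : Finset V → ℝ) (u v : V) : ℝ :=
  (univ : Finset (Finset V)).inf' univ_nonempty fun T => F (insert u (T.erase v))

theorem kap_le (F : Finset V → ℝ) {u v : V} {T : Finset V} (hu : u ∈ T) (hv : v ∉ T) :
    kap F u v ≤ F T := by
  have := inf'_le (s := (univ : Finset (Finset V))) (fun T => F (insert u (T.erase v)))
    (mem_univ T)
  rwa [erase_eq_of_notMem hv, insert_eq_of_mem hu] at this

theorem exists_kap (F : Finset V → ℝ) {u v : V} (h : v ≠ u) :
    ∃ T, u ∈ T ∧ v ∉ T ∧ F T = kap F u v := by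
  obtain ⟨T, -, hT⟩ := exists_mem_eq_inf' (s := (univ : Finset (Finset V))) univ_nonempty
    (fun T => F (insert u (T.erase v)))
  exact ⟨_, mem_insert_self _ _, by simp [h], hT.symm⟩

theorem kap_nonneg {F : Finset V → ℝ} (h : Sub F) (u v : V) : 0 ≤ kap F u v :=
  le_inf' _ _ fun _ _ => h.nonneg _

/-- Cost of a pair at scale `θ`. -/
noncomputable def term (n κ θ : ℝ) : ℝ := if κ ≤ n * θ then min κ θ else 0

theorem term_nonneg {n κ θ : ℝ} (hκ : 0 ≤ κ) (hθ : 0 ≤ θ) : 0 ≤ term n κ θ := by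
  unfold term
  split_ifs
  · exact le_min hκ hθ
  · exact le_rfl

/-- Total cost at scale `θ`. -/
noncomputable def cost (F : Finset V → ℝ) (n θ : ℝ) : ℝ := ∑ u, ∑ v, term n (kap F u v) θ

theorem exists_cheap {F : Finset V → ℝ} (h : Sub F) (n : ℝ) {θ : ℝ} (hθ : 0 ≤ θ) (u : V)
    (C : Finset V) (hC : ∀ v ∉ C, v ≠ u ∧ kap F u v ≤ n * θ) (Z : Finset V) :
    ∃ D, u ∈ D ∧ F D + θ * #((D ∩ Z) \ C) ≤ ∑ v ∈ Z, term n (kap F u v) θ := by
  induction Z using Finset.induction_on with
  | empty => exact ⟨univ, mem_univ _, by simp [h.univ]⟩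
  | insert v Z hv ih =>
    obtain ⟨D, hu, hD⟩ := ih
    rw [sum_insert hv]
    have ht := term_nonneg (n := n) (kap_nonneg h u v) hθ
    by_cases hvC : v ∈ C
    · refine ⟨D, hu, ?_⟩
      have : (D ∩ insert v Z) \ C = (D ∩ Z) \ C := by
        ext x
        simp only [mem_sdiff, mem_inter, mem_insert]
        constructor
        · rintro ⟨⟨h1, rfl | h2⟩, h3⟩
          · exact absurd hvC h3
          · exact ⟨⟨h1, h2⟩, h3⟩
        · rintro ⟨⟨h1, h2⟩, h3⟩
          exact ⟨⟨h1, Or.inr h2⟩, h3⟩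
      rw [this]
      linarith
    · obtain ⟨h1, h2⟩ := hC v hvC
      rw [term, if_pos h2]
      rcases le_total (kap F u v) θ with h3 | h3
      · obtain ⟨T, hT1, hT2, hT3⟩ := exists_kap F h1
        refine ⟨D ∩ T, mem_inter.2 ⟨hu, hT1⟩, ?_⟩
        have e1 : #((D ∩ T ∩ insert v Z) \ C) ≤ #((D ∩ Z) \ C) := by
          refine card_le_card fun x hx => ?_
          simp only [mem_sdiff, mem_inter, mem_insert] at hx ⊢
          obtain ⟨⟨⟨a1, a2⟩, rfl | a3⟩, a4⟩ := hx
          · exact absurd a2 hT2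
          · exact ⟨⟨a1, a3⟩, a4⟩
        have e2 : (#((D ∩ T ∩ insert v Z) \ C) : ℝ) ≤ #((D ∩ Z) \ C) := by exact_mod_cast e1
        rw [min_eq_left h3]
        nlinarith [h.inter_le D T]
      · refine ⟨D, hu, ?_⟩
        have e1 : #((D ∩ insert v Z) \ C) ≤ #((D ∩ Z) \ C) + 1 := by
          refine le_trans (card_le_card (t := insert v ((D ∩ Z) \ C)) fun x hx => ?_)
            (card_insert_le _ _)
          simp only [mem_sdiff, mem_inter, mem_insert] at hx ⊢
          tauto
        have e2 : (#((D ∩ insert v Z) \ C) : ℝ) ≤ #((D ∩ Z) \ C) + 1 := by exact_mod_cast e1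
        rw [min_eq_right h3]
        nlinarith

theorem exists_closure {F : Finset V → ℝ} (h : Sub F) (n : ℝ) {θ : ℝ} (hθ : 0 ≤ θ) :
    ∃ T : V → Finset V, (∀ u, u ∈ T u) ∧ ∑ u, F (T u) ≤ cost F n θ ∧
      ∀ S, F S ≤ n * θ → θ * #(S.biUnion T \ S) ≤ F S := by
  classical
  let C : V → Finset V := fun u => univ.filter fun v => v = u ∨ n * θ < kap F u v
  have hT : ∀ u, ∃ T, u ∈ T ∧ ∀ T', u ∈ T' →
      F T + θ * #(T \ C u) ≤ F T' + θ * #(T' \ C u) := by
    intro u
    obtain ⟨T, hT1, hT2⟩ := exists_min_image (univ.filter fun T : Finset V => u ∈ T)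
      (fun T => F T + θ * #(T \ C u)) ⟨univ, by simp⟩
    exact ⟨T, by simpa using hT1, fun T' hT' => hT2 T' (by simpa using hT')⟩
  choose T hT1 hT2 using hT
  refine ⟨T, hT1, sum_le_sum fun u _ => ?_, fun S hS => ?_⟩
  · obtain ⟨D, hD1, hD2⟩ := exists_cheap h n hθ u (C u) (fun v hv => by simpa [C] using hv) univ
    rw [inter_univ] at hD2
    have := hT2 u D hD1
    have : 0 ≤ θ * #(T u \ C u) := by positivity
    linarith
  · have key : ∀ A ⊆ S, F (S ∪ A.biUnion T) + θ * #(A.biUnion T \ S) ≤ F S := by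
      intro A
      induction A using Finset.induction_on with
      | empty => simp
      | insert u A hu ih =>
        intro hA
        have huS : u ∈ S := hA (mem_insert_self _ _)
        have ih := ih ((subset_insert _ _).trans hA)
        have hCS : C u ⊆ S := by
          intro v hv
          by_contra hvS
          simp only [C, mem_filter, mem_univ, true_and] at hv
          rcases hv with rfl | hv
          · exact hvS huS
          · linarith [kap_le F huS hvS]
        set W := S ∪ A.biUnion T with hW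
        have e1 := hT2 u (W ∩ T u) (mem_inter.2 ⟨mem_union_left _ huS, hT1 u⟩)
        have e2 := h.sub W (T u)
        have e3 : S ∪ (insert u A).biUnion T = W ∪ T u := by
          rw [biUnion_insert, hW, union_comm (T u), union_assoc]
        have e4 : #(T u \ C u) = #((W ∩ T u) \ C u) + #(T u \ W) := by
          rw [← card_union_of_disjoint]
          · congr 1
            ext x
            simp only [mem_sdiff, mem_union, mem_inter]
            have : x ∈ C u → x ∈ W := fun hx => mem_union_left _ (hCS hx)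
            tauto
          · rw [disjoint_left]
            intro x h1 h2
            exact (mem_sdiff.1 h2).2 (mem_inter.1 (mem_sdiff.1 h1).1).1
        have e5 : #((insert u A).biUnion T \ S) ≤ #(A.biUnion T \ S) + #(T u \ W) := by
          refine le_trans (card_le_card fun x hx => ?_) (card_union_le _ _)
          rw [biUnion_insert] at hx
          simp only [mem_sdiff, mem_union, hW] at hx ⊢
          tauto
        have e5' : (#((insert u A).biUnion T \ S) : ℝ) ≤ #(A.biUnion T \ S) + #(T u \ W) := by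
          exact_mod_cast e5
        rw [e4] at e1
        push_cast at e1
        rw [e3]
        nlinarith
    linarith [key S subset_rfl, h.nonneg (S ∪ S.biUnion T)]

theorem le_sum_kap {F : Finset V → ℝ} (h : Sub F) (S : Finset V) :
    F S ≤ ∑ u ∈ S, ∑ v ∈ Sᶜ, kap F u v := by
  have hD : ∀ u ∈ S, ∀ Z ⊆ Sᶜ, ∃ D, u ∈ D ∧ Disjoint D Z ∧ F D ≤ ∑ v ∈ Z, kap F u v := by
    intro u hu Z
    induction Z using Finset.induction_on with
    | empty => exact fun _ => ⟨univ, mem_univ _, by simp, by simp [h.univ]⟩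
    | insert v Z hv ih =>
      intro hZ
      obtain ⟨D, h1, h2, h3⟩ := ih ((subset_insert _ _).trans hZ)
      have hvS : v ∉ S := mem_compl.1 (hZ (mem_insert_self _ _))
      obtain ⟨T, hT1, hT2, hT3⟩ := exists_kap F (show v ≠ u from fun e => hvS (e ▸ hu))
      refine ⟨D ∩ T, mem_inter.2 ⟨h1, hT1⟩, ?_, ?_⟩
      · rw [disjoint_insert_right]
        exact ⟨fun hx => hT2 (mem_inter.1 hx).2, h2.mono_left inter_subset_left⟩
      · rw [sum_insert hv]
        linarith [h.inter_le D T]
  choose! D hD1 hD2 hD3 using fun u hu => hD u hu Sᶜ subset_rfl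
  have e : S.biUnion D = S := by
    ext x
    rw [mem_biUnion]
    constructor
    · rintro ⟨u, hu, hx⟩
      by_contra hxS
      exact disjoint_left.1 (hD2 u hu) hx (mem_compl.2 hxS)
    · exact fun hx => ⟨x, hx, hD1 x hx⟩
  calc F S = F (S.biUnion D) := by rw [e]
    _ ≤ _ := (h.biUnion_le D S).trans (sum_le_sum hD3)

theorem le_cost {F : Finset V → ℝ} (h : Sub F) {n θ : ℝ} (hθ : 0 ≤ θ) {S : Finset V}
    (h1 : θ ≤ F S) (h2 : F S ≤ n * θ) : θ ≤ cost F n θ := by
  have ht : ∀ u v, 0 ≤ term n (kap F u v) θ := fun u v => term_nonneg (kap_nonneg h u v) hθ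
  have hk : ∀ u ∈ S, ∀ v ∈ Sᶜ, term n (kap F u v) θ = min (kap F u v) θ := fun u hu v hv => by
    rw [term, if_pos ((kap_le F hu (mem_compl.1 hv)).trans h2)]
  by_cases hall : ∀ u ∈ S, ∀ v ∈ Sᶜ, kap F u v ≤ θ
  · refine h1.trans ((le_sum_kap h S).trans ?_)
    refine le_trans (sum_le_sum fun u hu => ?_)
      (sum_le_sum_of_subset_of_nonneg (subset_univ S) fun u _ _ => sum_nonneg fun v _ => ht u v)
    refine le_trans (sum_le_sum fun v hv => ?_)
      (sum_le_sum_of_subset_of_nonneg (subset_univ Sᶜ) fun v _ _ => ht u v)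
    rw [hk u hu v hv, min_eq_left (hall u hu v hv)]
  · push Not at hall
    obtain ⟨u, hu, v, hv, huv⟩ := hall
    calc θ = term n (kap F u v) θ := by rw [hk u hu v hv, min_eq_right huv.le]
      _ ≤ ∑ v, term n (kap F u v) θ := single_le_sum (fun v _ => ht u v) (mem_univ v)
      _ ≤ cost F n θ :=
        single_le_sum (f := fun u => ∑ v, term n (kap F u v) θ)
          (fun u _ => sum_nonneg fun v _ => ht u v) (mem_univ u)

theorem sum_term_le {n κ θ₀ : ℝ} {L : ℕ} (hκ : 0 ≤ κ) (hθ : 0 < θ₀) (hn : n ≤ 2 ^ L) (N : ℕ) :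
    ∑ i ∈ range N, term n κ (θ₀ * 2 ^ i) / (θ₀ * 2 ^ i) ≤ L + 2 := by
  classical
  let Φ : ℕ → ℝ := fun i => min (2 * κ / (θ₀ * 2 ^ i)) 2
  let B := (range N).filter fun i => θ₀ * 2 ^ i < κ ∧ κ ≤ n * (θ₀ * 2 ^ i)
  have h1 : ∀ i ∈ range N, term n κ (θ₀ * 2 ^ i) / (θ₀ * 2 ^ i) ≤
      (Φ i - Φ (i + 1)) + if θ₀ * 2 ^ i < κ ∧ κ ≤ n * (θ₀ * 2 ^ i) then 1 else 0 := by
    intro i _
    have hp : 0 < θ₀ * 2 ^ i := by positivity
    have e : 2 * κ / (θ₀ * 2 ^ (i + 1)) = κ / (θ₀ * 2 ^ i) := by field_simp; ring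
    have e' : 2 * κ / (θ₀ * 2 ^ i) = 2 * (κ / (θ₀ * 2 ^ i)) := by ring
    simp only [Φ, e, e', term]
    have hx : 0 ≤ κ / (θ₀ * 2 ^ i) := by positivity
    rcases le_or_gt κ (θ₀ * 2 ^ i) with h | h
    · have hx1 : κ / (θ₀ * 2 ^ i) ≤ 1 := (div_le_one hp).2 h
      rw [min_eq_left h, min_eq_left (by linarith), min_eq_left (by linarith),
        if_neg (show ¬ (θ₀ * 2 ^ i < κ ∧ κ ≤ n * (θ₀ * 2 ^ i)) from fun h' => absurd h'.1 (not_lt.2 h))]
      split_ifs
      · linarith
      · rw [zero_div]; linarith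
    · have hx1 : 1 ≤ κ / (θ₀ * 2 ^ i) := (one_le_div hp).2 h.le
      rw [min_eq_right h.le, min_eq_right (show 2 ≤ 2 * (κ / (θ₀ * 2 ^ i)) by linarith)]
      have := min_le_right (κ / (θ₀ * 2 ^ i)) 2
      by_cases h' : κ ≤ n * (θ₀ * 2 ^ i)
      · rw [if_pos h', if_pos ⟨h, h'⟩, div_self hp.ne']; linarith
      · rw [if_neg h', if_neg (fun h'' => h' h''.2), zero_div]; linarith
  refine (sum_le_sum h1).trans ?_
  rw [sum_add_distrib, sum_range_sub', sum_boole]
  have h2 : Φ 0 ≤ 2 := min_le_right _ _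
  have h3 : 0 ≤ Φ N := le_min (by positivity) (by norm_num)
  have h4 : #B ≤ L := by
    rcases B.eq_empty_or_nonempty with hB | hB
    · simp [hB]
    · have hm := (mem_filter.1 (B.min'_mem hB)).2.2
      have : B ⊆ Ico (B.min' hB) (B.min' hB + L) := by
        intro i hi
        refine mem_Ico.2 ⟨B.min'_le i hi, ?_⟩
        have hi' := (mem_filter.1 hi).2.1
        by_contra hc
        have : (2 : ℝ) ^ (B.min' hB + L) ≤ 2 ^ i := pow_le_pow_right₀ (by norm_num) (by omega)
        rw [pow_add] at this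
        have hp : 0 < θ₀ * 2 ^ (B.min' hB) := by positivity
        nlinarith [mul_le_mul_of_nonneg_right hn hp.le, mul_le_mul_of_nonneg_left this hθ.le]
      simpa using card_le_card this
  have h5 : (#B : ℝ) ≤ L := by exact_mod_cast h4
  linarith

theorem sum_cost_le {F : Finset V → ℝ} (h : Sub F) {n θ₀ : ℝ} {L : ℕ} (hθ : 0 < θ₀)
    (hn : n ≤ 2 ^ L) (N : ℕ) :
    ∑ i ∈ range N, cost F n (θ₀ * 2 ^ i) / (θ₀ * 2 ^ i) ≤
      (Fintype.card V : ℝ) ^ 2 * (L + 2) := by
  simp only [cost, sum_div]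
  rw [sum_comm]
  calc _ ≤ ∑ _u : V, ∑ _v : V, ((L : ℝ) + 2) := by
        refine sum_le_sum fun u _ => ?_
        rw [sum_comm]
        exact sum_le_sum fun v _ => sum_term_le (kap_nonneg h u v) hθ hn N
    _ = _ := by simp; ring

end Pool.Agent.Lib.MP_348529_lc
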