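import Pool.Agent.Lib.MP_348529_lc.Round

/-!
Repeated halving, and the reduction to functions vanishing on the whole vertex set.
-/

namespace Pool.Agent.Lib.MP_348529_lc

open Finset

variable {V : Type} [Fintype V] [DecidableEq V]

theorem round' {ι : Type} [DecidableEq ι] (E : Finset ι) (g : ι → Finset V → ℝ)
    (hg : ∀ e ∈ E, Sub (g e)) (hE : E.Nonempty) {L : ℕ} (hV : 0 < Fintype.card V)
    (hL : Fintype.card V ≤ 2 ^ L) :
    ∃ E₁ ⊆ E, ∃ c : ι → ℝ, (∀ e, 0 < c e) ∧ 4 * #E₁ ≤ 3 * #E ∧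
      ∀ S, |∑ e ∈ E₁, c e * g e S - ∑ e ∈ E, g e S| ≤
        √(160 * (Fintype.card V : ℝ) ^ 2 * (L + 2) ^ 4 / #E) * ∑ e ∈ E, g e S := by
  classical
  obtain ⟨I, hIE, σ, hσ, hI, h⟩ := round E g hg hE hV hL
  wlog hw : 2 * #((E \ I).filter fun e => σ e = 1) ≤ #(E \ I) generalizing σ
  · refine this (fun e => -σ e) (fun e => ?_) (fun S => ?_) ?_
    · rcases hσ e with h | h <;> simp [h]
    · simpa [abs_neg] using h S
    · have e1 := card_filter_add_card_filter_not (s := E \ I) (fun e => σ e = 1)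
      have e2 : ((E \ I).filter fun e => -σ e = 1) = (E \ I).filter fun e => ¬ σ e = 1 := by
        refine filter_congr fun e _ => ?_
        rcases hσ e with h | h <;> rw [h] <;> norm_num
      rw [e2]; omega
  have hdis : Disjoint I ((E \ I).filter fun e => σ e = 1) :=
    disjoint_sdiff.mono_right (filter_subset _ _)
  refine ⟨I ∪ (E \ I).filter fun e => σ e = 1,
    union_subset hIE ((filter_subset _ _).trans sdiff_subset), fun e => if e ∈ I then 1 else 2,
    fun e => by dsimp only; split_ifs <;> norm_num, ?_, fun S => ?_⟩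
  · rw [card_union_of_disjoint hdis]
    have := card_sdiff_add_card_eq_card hIE
    omega
  · refine le_trans (le_of_eq ?_) (h S)
    congr 1
    rw [sum_union hdis, ← sum_sdiff hIE, sum_filter]
    have e1 : ∑ e ∈ I, (if e ∈ I then (1 : ℝ) else 2) * g e S = ∑ e ∈ I, g e S :=
      sum_congr rfl fun e he => by simp [he]
    have e2 : ∑ e ∈ E \ I, (if σ e = 1 then (if e ∈ I then (1 : ℝ) else 2) * g e S else 0) =
        ∑ e ∈ E \ I, g e S + ∑ e ∈ E \ I, σ e * g e S := by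
      rw [← sum_add_distrib]
      refine sum_congr rfl fun e he => ?_
      rw [if_neg (mem_sdiff.1 he).2]
      rcases hσ e with h | h
      · rw [if_pos h, h]; ring
      · rw [if_neg (by rw [h]; norm_num), h]; ring
    rw [e1, e2]; ring

theorem sparsify {ι : Type} [DecidableEq ι] {L : ℕ} (hV : 0 < Fintype.card V)
    (hL : Fintype.card V ≤ 2 ^ L) {ε : ℝ} (hε : 0 < ε) (hε1 : ε < 1) {Q : ℝ}
    (hQ : Q = 160 * (Fintype.card V : ℝ) ^ 2 * (L + 2) ^ 4) (m : ℕ) :
    ∀ (E : Finset ι) (g : ι → Finset V → ℝ), #E = m → (∀ e ∈ E, Sub (g e)) → ∀ x : ℝ, #E ≤ x →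
      ∃ E' ⊆ E, ∃ s : ι → ℝ, (∀ e, 0 < s e) ∧ (#E' : ℝ) ≤ 225 * Q / ε ^ 2 ∧
        ∀ S, |∑ e ∈ E', s e * g e S - ∑ e ∈ E, g e S| ≤
          max 0 (ε - 13 * √(Q / x)) * ∑ e ∈ E, g e S := by
  have hQ0 : 0 < Q := by
    have : (0 : ℝ) < Fintype.card V := by exact_mod_cast hV
    rw [hQ]; positivity
  induction m using Nat.strong_induction_on with
  | _ m ih =>
  intro E g hm hg x hx
  have hF := (Sub.sum hg).nonneg
  by_cases hsmall : (#E : ℝ) ≤ 225 * Q / ε ^ 2
  · refine ⟨E, subset_rfl, fun _ => 1, fun _ => one_pos, hsmall, fun S => ?_⟩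
    simpa using mul_nonneg (le_max_left _ _) (hF S)
  push Not at hsmall
  have hm0 : (0 : ℝ) < #E := lt_trans (by positivity) hsmall
  have hm1 : 0 < #E := by exact_mod_cast hm0
  obtain ⟨E₁, hE₁, c, hc, hcard, h₁⟩ := round' E g hg (card_pos.1 hm1) hV hL
  rw [← hQ] at h₁
  have hcard' : (#E₁ : ℝ) ≤ 3 / 4 * #E := by
    have : (4 * #E₁ : ℝ) ≤ 3 * #E := by exact_mod_cast hcard
    linarith
  obtain ⟨E', hE', s, hs, hcard'', h₂⟩ := ih #E₁ (by omega) E₁ (fun e S => c e * g e S) rfl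
    (fun e he => (hg e (hE₁ he)).smul (hc e).le) _ hcard'
  refine ⟨E', hE'.trans hE₁, fun e => s e * c e, fun e => mul_pos (hs e) (hc e), hcard'',
    fun S => ?_⟩
  set δ := √(Q / #E) with hδ
  have hδ0 : 0 ≤ δ := Real.sqrt_nonneg _
  have hδ2 : δ ^ 2 = Q / #E := Real.sq_sqrt (by positivity)
  have a1 : 15 / 13 * δ ≤ √(Q / (3 / 4 * #E)) := by
    refine Real.le_sqrt_of_sq_le ?_
    have : Q / (3 / 4 * #E) = 4 / 3 * (Q / #E) := by field_simp
    rw [this, mul_pow, hδ2]
    have : 0 ≤ Q / #E := by positivity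
    nlinarith
  have a2 : δ ≤ ε / 15 := by
    refine Real.sqrt_le_iff.2 ⟨by positivity, ?_⟩
    rw [div_lt_iff₀ (by positivity)] at hsmall
    rw [div_le_iff₀ hm0]
    nlinarith
  have a3 : √(Q / x) ≤ δ := Real.sqrt_le_sqrt (div_le_div_of_nonneg_left hQ0.le hm0 hx)
  have a4 : max 0 (ε - 13 * √(Q / (3 / 4 * #E))) ≤ ε - 15 * δ := max_le (by linarith) (by linarith)
  have a5 : ε - 13 * δ ≤ max 0 (ε - 13 * √(Q / x)) := le_max_of_le_right (by linarith)
  have b1 := h₁ S
  have b2 := h₂ S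
  have b3 := hF S
  simp only [mul_assoc] at b2 ⊢
  set A := ∑ e ∈ E', s e * (c e * g e S)
  set B := ∑ e ∈ E₁, c e * g e S
  set C := ∑ e ∈ E, g e S
  have b4 : B ≤ (1 + δ) * C := by linarith [(abs_le.1 b1).2]
  have b5 : 0 ≤ B := sum_nonneg fun e he => mul_nonneg (hc e).le ((hg e (hE₁ he)).nonneg S)
  have b6 : |A - B| ≤ (ε - 15 * δ) * ((1 + δ) * C) :=
    b2.trans (mul_le_mul a4 b4 b5 (by linarith))
  have b7 : |A - C| ≤ |A - B| + |B - C| := abs_sub_le _ _ _
  have b8 : (ε - 15 * δ) * δ * C ≤ δ * C := by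
    refine mul_le_mul_of_nonneg_right ?_ b3
    nlinarith
  refine le_trans ?_ (mul_le_mul_of_nonneg_right a5 b3)
  nlinarith

/-- Extension of a set function to one more vertex. -/
noncomputable def extend (g : Finset V → ℝ) (T : Finset (Option V)) : ℝ :=
  if none ∈ T then (∑ U, g U) * #(eraseNone T)ᶜ else g (eraseNone T)

theorem extend_sub {g : Finset V → ℝ} (h0 : g ∅ = 0) (h1 : ∀ S, 0 ≤ g S)
    (h2 : ∀ S T, g (S ∪ T) + g (S ∩ T) ≤ g S + g T) : Sub (extend g) := by
  have hb : 0 ≤ ∑ U, g U := sum_nonneg fun U _ => h1 U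
  have key : ∀ A B : Finset V, (∑ U, g U) * #(A ∪ B)ᶜ + g (A ∩ B) ≤ g A + (∑ U, g U) * #Bᶜ := by
    intro A B
    by_cases hAB : A ⊆ B
    · rw [union_eq_right.2 hAB, inter_eq_left.2 hAB]; linarith
    · obtain ⟨a, ha, ha'⟩ := not_subset.1 hAB
      have e1 : #(A ∪ B)ᶜ < #Bᶜ := card_lt_card ⟨compl_subset_compl.2 subset_union_right,
        fun h => by simpa [ha] using h (mem_compl.2 ha')⟩
      have e2 : (#(A ∪ B)ᶜ : ℝ) + 1 ≤ #Bᶜ := by exact_mod_cast e1
      have e3 : g (A ∩ B) ≤ ∑ U, g U := single_le_sum (fun U _ => h1 U) (mem_univ _)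
      nlinarith [h1 A]
  have hu : ∀ S T : Finset (Option V), eraseNone (S ∪ T) = eraseNone S ∪ eraseNone T := by
    intro S T; ext; simp
  have hi : ∀ S T : Finset (Option V), eraseNone (S ∩ T) = eraseNone S ∩ eraseNone T := by
    intro S T; ext; simp
  refine ⟨fun S => ?_, fun S T => ?_, by simp [extend, h0], ?_⟩
  · unfold extend
    split_ifs
    · positivity
    · exact h1 _
  · unfold extend
    rw [hu, hi]
    by_cases hS : none ∈ S <;> by_cases hT : none ∈ T <;>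
      simp only [mem_union, mem_inter, hS, hT, or_self, and_self, or_true, true_or, and_false,
        false_and, if_true, if_false]
    · rw [compl_union, compl_inter, ← mul_add, ← mul_add]
      have := card_union_add_card_inter (eraseNone S)ᶜ (eraseNone T)ᶜ
      have e : (#((eraseNone S)ᶜ ∩ (eraseNone T)ᶜ) : ℝ) + #((eraseNone S)ᶜ ∪ (eraseNone T)ᶜ) =
          #(eraseNone S)ᶜ + #(eraseNone T)ᶜ := by
        rw [add_comm]; exact_mod_cast this
      rw [e]
    · have := key (eraseNone T) (eraseNone S)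
      rw [union_comm, inter_comm] at this
      linarith
    · exact key _ _
    · exact h2 _ _
  · have : (eraseNone (univ : Finset (Option V)))ᶜ = ∅ := by ext; simp
    simp [extend, this]

theorem extend_map (g : Finset V → ℝ) (S : Finset V) :
    extend g (S.map Function.Embedding.some) = g S := by
  simp [extend]

theorem main {ι : Type} [Fintype ι] (g : ι → Finset V → ℝ) (h0 : ∀ e, g e ∅ = 0)
    (h1 : ∀ e S, 0 ≤ g e S) (h2 : ∀ e S T, g e (S ∪ T) + g e (S ∩ T) ≤ g e S + g e T)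
    {ε : ℝ} (hε : 0 < ε) (hε1 : ε < 1) :
    ∃ (E' : Finset ι) (s : ι → ℝ), (∀ e, 0 < s e) ∧
      (#E' : ℝ) ≤ 10 ^ 8 * (Fintype.card V : ℝ) ^ 2 * (1 + Real.log (Fintype.card V)) ^ 4 / ε ^ 2 ∧
      ∀ S, |∑ e ∈ E', s e * g e S - ∑ e, g e S| ≤ ε * ∑ e, g e S := by
  classical
  rcases isEmpty_or_nonempty V with hV | hV
  · refine ⟨∅, fun _ => 1, fun _ => one_pos, by simp, fun S => ?_⟩
    simp [Subsingleton.elim S ∅, h0]
  have hn : 0 < Fintype.card V := Fintype.card_pos
  obtain ⟨E', -, s, hs, hc, h⟩ := sparsify (V := Option V) (ι := ι)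
    (L := Nat.log 2 (Fintype.card V) + 1) Fintype.card_pos
    (by rw [Fintype.card_option]; exact Nat.lt_pow_succ_log_self (by norm_num) _) hε hε1 rfl _ univ
    (fun e => extend (g e)) rfl (fun e _ => extend_sub (h0 e) (h1 e) (h2 e)) _ le_rfl
  refine ⟨E', s, hs, hc.trans (div_le_div_of_nonneg_right ?_ (by positivity)), fun S => ?_⟩
  · set n : ℝ := (Fintype.card V : ℝ) with hn'
    have hn1 : 1 ≤ n := by rw [hn']; exact_mod_cast hn
    have hl0 : 0 ≤ Real.log n := Real.log_nonneg hn1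
    have hl : (Nat.log 2 (Fintype.card V) : ℝ) ≤ 3 * Real.log n := by
      have e1 : (2 : ℝ) ^ Nat.log 2 (Fintype.card V) ≤ n := by
        rw [hn']; exact_mod_cast Nat.pow_log_le_self 2 hn.ne'
      have e2 := Real.log_le_log (by positivity) e1
      rw [Real.log_pow] at e2
      have e3 : (0 : ℝ) ≤ Nat.log 2 (Fintype.card V) := by positivity
      nlinarith [Real.log_two_gt_d9]
    rw [Fintype.card_option]
    push_cast
    rw [← hn']
    calc 225 * (160 * (n + 1) ^ 2 * ((Nat.log 2 (Fintype.card V) : ℝ) + 1 + 2) ^ 4)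
        ≤ 225 * (160 * (2 * n) ^ 2 * (3 * (1 + Real.log n)) ^ 4) := by
          gcongr <;> linarith
      _ = 11664000 * (n ^ 2 * (1 + Real.log n) ^ 4) := by ring
      _ ≤ 10 ^ 8 * (n ^ 2 * (1 + Real.log n) ^ 4) := by gcongr; norm_num
      _ = _ := by ring
  · have := h (S.map Function.Embedding.some)
    simp only [extend_map] at this
    refine this.trans (mul_le_mul_of_nonneg_right (max_le hε.le ?_)
      (sum_nonneg fun e _ => h1 e S))
    have := Real.sqrt_nonneg (160 * (Fintype.card (Option V) : ℝ) ^ 2 *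
      ((Nat.log 2 (Fintype.card V) + 1 : ℕ) + 2) ^ 4 / #(univ : Finset ι))
    linarith

end Pool.Agent.Lib.MP_348529_lc
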