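import Mathlib

/-!
Existence of signs that balance a finite family of linear tests.
-/

namespace Pool.Agent.Lib.MP_348529_lc

open Finset

theorem exists_signs_pot {ι J : Type} [DecidableEq ι] (𝒥 : Finset J) (b : J → ι → ℝ)
    (E : Finset ι) : ∀ c : J → ℝ, (∀ j ∈ 𝒥, 0 ≤ c j) → ∃ σ : ι → ℝ, (∀ e, σ e = 1 ∨ σ e = -1) ∧
      ∑ j ∈ 𝒥, c j * Real.exp (∑ e ∈ E, σ e * b j e) ≤
        ∑ j ∈ 𝒥, c j * Real.exp ((∑ e ∈ E, b j e ^ 2) / 2) := by
  induction E using Finset.induction_on with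
  | empty => exact fun c _ => ⟨fun _ => 1, fun _ => Or.inl rfl, by simp⟩
  | insert a E ha ih =>
    intro c hc
    have h1 : ∃ s : ℝ, (s = 1 ∨ s = -1) ∧
        ∑ j ∈ 𝒥, c j * Real.exp (s * b j a) * Real.exp ((∑ e ∈ E, b j e ^ 2) / 2) ≤
          ∑ j ∈ 𝒥, c j * Real.exp ((∑ e ∈ insert a E, b j e ^ 2) / 2) := by
      by_contra hcon
      push Not at hcon
      have e1 := hcon 1 (Or.inl rfl)
      have e2 := hcon (-1) (Or.inr rfl)
      have : ∑ j ∈ 𝒥, c j * Real.exp (1 * b j a) * Real.exp ((∑ e ∈ E, b j e ^ 2) / 2) +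
          ∑ j ∈ 𝒥, c j * Real.exp (-1 * b j a) * Real.exp ((∑ e ∈ E, b j e ^ 2) / 2) ≤
          ∑ j ∈ 𝒥, c j * Real.exp ((∑ e ∈ insert a E, b j e ^ 2) / 2) +
          ∑ j ∈ 𝒥, c j * Real.exp ((∑ e ∈ insert a E, b j e ^ 2) / 2) := by
        rw [← sum_add_distrib, ← sum_add_distrib]
        refine sum_le_sum fun j hj => ?_
        rw [sum_insert ha, add_div, Real.exp_add, one_mul, neg_one_mul]
        have h2 := Real.cosh_le_exp_half_sq (b j a)
        rw [Real.cosh_eq] at h2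
        have h3 : 0 ≤ c j * Real.exp ((∑ e ∈ E, b j e ^ 2) / 2) :=
          mul_nonneg (hc j hj) (Real.exp_pos _).le
        nlinarith
      linarith
    obtain ⟨s, hs, h1⟩ := h1
    obtain ⟨σ, hσ, h2⟩ := ih (fun j => c j * Real.exp (s * b j a))
      (fun j hj => mul_nonneg (hc j hj) (Real.exp_pos _).le)
    refine ⟨Function.update σ a s, fun e => ?_, le_trans (le_of_eq ?_) (h2.trans h1)⟩
    · by_cases h : e = a
      · subst h; simpa using hs
      · simpa [h] using hσ e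
    · refine sum_congr rfl fun j _ => ?_
      rw [sum_insert ha, Real.exp_add, Function.update_self, mul_assoc]
      congr 3
      refine sum_congr rfl fun e he => ?_
      rw [Function.update_of_ne (fun h : e = a => ha (h ▸ he))]

theorem exists_signs {ι J : Type} [DecidableEq ι] (𝒥 : Finset J) (a : J → ι → ℝ) (E : Finset ι)
    (W x : J → ℝ) (hW : ∀ j ∈ 𝒥, 0 < W j) (hx : ∀ j ∈ 𝒥, 0 ≤ x j)
    (ha : ∀ j ∈ 𝒥, ∑ e ∈ E, a j e ^ 2 ≤ W j) (hs : ∑ j ∈ 𝒥, 2 * Real.exp (-x j) < 1) :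
    ∃ σ : ι → ℝ, (∀ e, σ e = 1 ∨ σ e = -1) ∧
      ∀ j ∈ 𝒥, |∑ e ∈ E, σ e * a j e| ≤ √(2 * W j * x j) := by
  classical
  let s : J → ℝ := fun j => √(2 * W j * x j) / W j
  let sg : Bool → ℝ := fun t => if t then 1 else -1
  obtain ⟨σ, hσ, h⟩ := exists_signs_pot (𝒥 ×ˢ (univ : Finset Bool))
    (fun p e => sg p.2 * s p.1 * a p.1 e) E (fun p => Real.exp (-(2 * x p.1)))
    (fun _ _ => (Real.exp_pos _).le)
  have hst : ∀ j ∈ 𝒥, s j * √(2 * W j * x j) = 2 * x j := by
    intro j hj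
    have := hW j hj
    simp only [s]
    rw [div_mul_eq_mul_div, Real.mul_self_sqrt (by have := hx j hj; positivity)]
    field_simp
  have hs2 : ∀ j ∈ 𝒥, s j ^ 2 * W j = 2 * x j := by
    intro j hj
    have := hW j hj
    rw [← hst j hj]
    simp only [s]
    field_simp
  have h1 : ∑ p ∈ 𝒥 ×ˢ (univ : Finset Bool), Real.exp (-(2 * x p.1)) *
      Real.exp ((∑ e ∈ E, (sg p.2 * s p.1 * a p.1 e) ^ 2) / 2) ≤ ∑ j ∈ 𝒥, 2 * Real.exp (-x j) := by
    rw [sum_product]
    refine sum_le_sum fun j hj => ?_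
    have : ∀ t : Bool, Real.exp (-(2 * x j)) *
        Real.exp ((∑ e ∈ E, (sg t * s j * a j e) ^ 2) / 2) ≤ Real.exp (-x j) := by
      intro t
      rw [← Real.exp_add, Real.exp_le_exp]
      have e1 : ∑ e ∈ E, (sg t * s j * a j e) ^ 2 = s j ^ 2 * ∑ e ∈ E, a j e ^ 2 := by
        rw [mul_sum]
        refine sum_congr rfl fun e _ => ?_
        cases t <;> simp [sg, mul_pow]
      have e2 := mul_le_mul_of_nonneg_left (ha j hj) (sq_nonneg (s j))
      rw [e1]
      linarith [hs2 j hj]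
    simp only [Fintype.sum_bool]
    linarith [this true, this false]
  refine ⟨σ, hσ, fun j hj => ?_⟩
  have h2 : ∀ t : Bool, sg t * (s j * ∑ e ∈ E, σ e * a j e) < 2 * x j := by
    intro t
    have := single_le_sum (f := fun p : J × Bool => Real.exp (-(2 * x p.1)) *
      Real.exp (∑ e ∈ E, σ e * (sg p.2 * s p.1 * a p.1 e))) (s := 𝒥 ×ˢ (univ : Finset Bool))
      (fun p _ => by positivity) (a := (j, t)) (by simp [hj])
    have h3 := (this.trans (h.trans h1)).trans_lt hs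
    rw [← Real.exp_add, Real.exp_lt_one_iff] at h3
    have e1 : ∑ e ∈ E, σ e * (sg t * s j * a j e) = sg t * (s j * ∑ e ∈ E, σ e * a j e) := by
      rw [mul_sum, mul_sum]
      exact sum_congr rfl fun e _ => by ring
    simp only at h3
    linarith
  have h4 := h2 true
  have h5 := h2 false
  simp only [sg, if_true, one_mul, Bool.false_eq_true, if_false, neg_mul] at h4 h5
  have hxpos : 0 < x j := by linarith
  have hspos : 0 < s j := div_pos (Real.sqrt_pos.2 (by have := hW j hj; positivity)) (hW j hj)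
  rw [← hst j hj] at h4 h5
  rw [abs_le]
  constructor
  · have := lt_of_mul_lt_mul_left (a := s j) (b := -∑ e ∈ E, σ e * a j e)
      (c := √(2 * W j * x j)) (by linarith) hspos.le
    linarith
  · exact (lt_of_mul_lt_mul_left h4 hspos.le).le

end Pool.Agent.Lib.MP_348529_lc
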