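import Pool.Agent.Lib.MP_348529_lc.Closure
import Pool.Agent.Lib.MP_348529_lc.Signs

/-!
One halving round: a protected set of at most half of the hyperedges and balanced signs on the rest.
-/

namespace Pool.Agent.Lib.MP_348529_lc

open Finset

variable {V : Type} [Fintype V] [DecidableEq V]

def key (T T' : V → Finset V) (S : Finset V) : Finset V × Finset V :=
  (S.biUnion T \ S, Sᶜ.biUnion T' \ Sᶜ)

theorem close_of_key {g : Finset V → ℝ} (h : Sub g) {T T' : V → Finset V} (hT : ∀ u, u ∈ T u)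
    (hT' : ∀ u, u ∈ T' u) {S S' : Finset V} (e : key T T' S = key T T' S') :
    g S ≤ g S' + (∑ u, g (T u) + ∑ u, g (T' u)ᶜ) := by
  simp only [key, Prod.mk.injEq] at e
  have e1 : S = (S' ∩ S.biUnion T) ∪ (Sᶜ.biUnion T')ᶜ := by
    ext x
    have a1 : x ∈ S.biUnion T \ S ↔ x ∈ S'.biUnion T \ S' := by rw [e.1]
    have a2 : x ∈ Sᶜ.biUnion T' \ Sᶜ ↔ x ∈ S'ᶜ.biUnion T' \ S'ᶜ := by rw [e.2]
    have a3 : x ∈ S → x ∈ S.biUnion T := fun hx => mem_biUnion.2 ⟨x, hx, hT x⟩
    have a4 : x ∉ S → x ∈ Sᶜ.biUnion T' := fun hx => mem_biUnion.2 ⟨x, mem_compl.2 hx, hT' x⟩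
    simp only [mem_sdiff, mem_compl, mem_union, mem_inter] at a1 a2 ⊢
    tauto
  have h1 := h.union_le (S' ∩ S.biUnion T) (Sᶜ.biUnion T')ᶜ
  rw [← e1] at h1
  have h2 := h.inter_le S' (S.biUnion T)
  have h3 := h.biUnion_le' T S
  have h4 := h.compl.biUnion_le' T' Sᶜ
  linarith

omit [DecidableEq V] in
theorem sum_pow_card_le (hV : 0 < Fintype.card V) :
    ∑ k : Finset V × Finset V, ((Fintype.card V : ℝ)⁻¹) ^ (#k.1 + #k.2) ≤ 8 := by
  have h1 : ∑ A : Finset V, ((Fintype.card V : ℝ)⁻¹) ^ #A ≤ Real.exp 1 := by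
    have := prod_one_add (s := (univ : Finset V)) (f := fun _ => (Fintype.card V : ℝ)⁻¹)
    simp only [prod_const, card_univ, powerset_univ] at this
    rw [← this]
    have hp : (0 : ℝ) < Fintype.card V := by exact_mod_cast hV
    calc _ ≤ (Real.exp (Fintype.card V : ℝ)⁻¹) ^ Fintype.card V := by
          refine pow_le_pow_left₀ (by positivity) ?_ _
          linarith [Real.add_one_le_exp (Fintype.card V : ℝ)⁻¹]
      _ = _ := by rw [← Real.exp_nat_mul, mul_inv_cancel₀ hp.ne']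
  have h0 : 0 ≤ ∑ A : Finset V, ((Fintype.card V : ℝ)⁻¹) ^ #A := by positivity
  rw [Fintype.sum_prod_type]
  simp only [pow_add]
  rw [← sum_mul_sum]
  have := Real.exp_one_lt_d9
  nlinarith

theorem sum_sq_le {ι : Type} {E E' : Finset ι} (hE : E' ⊆ E) {p q : ι → ℝ} {b : ℝ} (hb : 0 ≤ b)
    (hp : ∀ e ∈ E, 0 ≤ p e) (hq : ∀ e ∈ E, 0 ≤ q e) (h1 : ∀ e ∈ E', p e ≤ q e + b)
    (h2 : ∀ e ∈ E', q e ≤ p e + b) :
    ∑ e ∈ E', (p e - q e) ^ 2 ≤ b * (∑ e ∈ E, p e + ∑ e ∈ E, q e) := by
  rw [← sum_add_distrib, mul_sum]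
  refine le_trans (sum_le_sum fun e he => ?_) (sum_le_sum_of_subset_of_nonneg hE
    fun e he _ => mul_nonneg hb (add_nonneg (hp e he) (hq e he)))
  have a1 := h1 e he
  have a2 := h2 e he
  have a3 := hp e (hE he)
  have a4 := hq e (hE he)
  rcases le_total (p e) (q e) with h | h <;> nlinarith

theorem exists_rep {α κ : Type} [Fintype α] (k : α → κ) (F : α → ℝ) :
    ∃ r : α → α, (∀ a, k (r a) = k a) ∧ (∀ a b, k b = k a → F (r a) ≤ F b) ∧
      ∀ a b, k a = k b → r a = r b := by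
  classical
  have h : ∀ y : κ, (∃ a, k a = y) → ∃ a, k a = y ∧ ∀ b, k b = y → F a ≤ F b := by
    rintro y ⟨a, ha⟩
    obtain ⟨b, hb1, hb2⟩ := exists_min_image (univ.filter fun a => k a = y) F ⟨a, by simpa⟩
    exact ⟨b, by simpa using hb1, fun c hc => hb2 c (by simpa using hc)⟩
  choose r h1 h2 using h
  refine ⟨fun a => r (k a) ⟨a, rfl⟩, fun a => h1 _ _, fun a b hb => h2 _ _ b hb, fun a b e => ?_⟩
  simp only [e]

theorem round {ι : Type} [DecidableEq ι] (E : Finset ι) (g : ι → Finset V → ℝ)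
    (hg : ∀ e ∈ E, Sub (g e)) (hE : E.Nonempty) {L : ℕ} (hV : 0 < Fintype.card V)
    (hL : Fintype.card V ≤ 2 ^ L) :
    ∃ I ⊆ E, ∃ σ : ι → ℝ, (∀ e, σ e = 1 ∨ σ e = -1) ∧ 2 * #I ≤ #E ∧
      ∀ S, |∑ e ∈ E \ I, σ e * g e S| ≤
        √(160 * (Fintype.card V : ℝ) ^ 2 * (L + 2) ^ 4 / #E) * ∑ e ∈ E, g e S := by
  classical
  set n : ℝ := (Fintype.card V : ℝ) with hn
  have hn1 : 1 ≤ n := by rw [hn]; exact_mod_cast hV
  have hnL : n ≤ 2 ^ L := by rw [hn]; exact_mod_cast hL
  have hm : (0 : ℝ) < #E := by exact_mod_cast hE.card_pos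
  set F : Finset V → ℝ := fun S => ∑ e ∈ E, g e S with hFdef
  have hF : Sub F := Sub.sum hg
  obtain ⟨θ₀, hθ₀, hmin⟩ : ∃ θ₀ : ℝ, 0 < θ₀ ∧ ∀ S, 0 < F S → n * θ₀ ≤ F S := by
    rcases (univ.filter fun S => 0 < F S).eq_empty_or_nonempty with h | h
    · refine ⟨1, one_pos, fun S hS => ?_⟩
      have : S ∈ univ.filter fun S => 0 < F S := by simpa using hS
      simp [h] at this
    · obtain ⟨S₀, h1, h2⟩ := exists_min_image _ F h
      refine ⟨F S₀ / n, div_pos (by simpa using h1) (by linarith), fun S hS => ?_⟩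
      rw [mul_div_cancel₀ _ (by linarith)]
      exact h2 S (by simpa using hS)
  let θ : ℕ → ℝ := fun i => θ₀ * 2 ^ i
  have hθ : ∀ i, 0 < θ i := fun i => by positivity
  have hθs : ∀ i, θ (i + 1) = 2 * θ i := fun i => by simp only [θ]; ring
  have hθm : ∀ i j, i ≤ j → θ i ≤ θ j := fun i j h =>
    mul_le_mul_of_nonneg_left (pow_le_pow_right₀ (by norm_num) h) hθ₀.le
  obtain ⟨N, hN⟩ : ∃ N, ∀ S, F S < θ N := by
    obtain ⟨N, hN⟩ := pow_unbounded_of_one_lt ((∑ S, F S) / θ₀) (show (1 : ℝ) < 2 by norm_num)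
    refine ⟨N, fun S => (single_le_sum (fun S _ => hF.nonneg S) (mem_univ S)).trans_lt ?_⟩
    rw [div_lt_iff₀ hθ₀] at hN
    simp only [θ]; linarith
  choose T hT1 hT2 hT3 using fun i => exists_closure hF n (hθ i).le
  choose T' hT1' hT2' hT3' using fun i => exists_closure hF.compl n (hθ i).le
  choose rep hr1 hr2 hr3 using fun i => exists_rep (key (T i) (T' i)) F
  have hrF : ∀ i S, F (rep i S) ≤ F S := fun i S => hr2 i S S rfl
  have hrr : ∀ i S, rep i (rep i S) = rep i S := fun i S => hr3 i _ _ (hr1 i S)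
  let γ : ℕ → ι → ℝ := fun i e => ∑ u, g e (T i u) + ∑ u, g e (T' i u)ᶜ
  let β : ℕ → ℝ := fun i => cost F n (θ i) / θ i + cost (fun S => F Sᶜ) n (θ i) / θ i
  set Bt : ℝ := 2 * n ^ 2 * (L + 2) with hBt
  have hBt1 : 1 ≤ Bt := by
    have : (0 : ℝ) ≤ L := by positivity
    nlinarith
  have hβ : ∑ i ∈ range (N + 1), β i ≤ Bt := by
    have h1 := sum_cost_le hF hθ₀ hnL (N + 1)
    have h2 := sum_cost_le hF.compl hθ₀ hnL (N + 1)
    simp only [β, θ, sum_add_distrib]
    linarith
  have hcost : ∀ {G : Finset V → ℝ}, Sub G → ∀ i, 0 ≤ cost G n (θ i) := fun hG i =>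
    sum_nonneg fun u _ => sum_nonneg fun v _ => term_nonneg (kap_nonneg hG u v) (hθ i).le
  have hβ0 : ∀ i, 0 ≤ β i := fun i =>
    add_nonneg (div_nonneg (hcost hF i) (hθ i).le) (div_nonneg (hcost hF.compl i) (hθ i).le)
  have hγ0 : ∀ i, ∀ e ∈ E, 0 ≤ γ i e := fun i e he =>
    add_nonneg (sum_nonneg fun _ _ => (hg e he).nonneg _) (sum_nonneg fun _ _ => (hg e he).nonneg _)
  have hγ : ∀ i, ∑ e ∈ E, γ i e ≤ θ i * β i := by
    intro i
    have h1 := hT2 i
    have h2 := hT2' i
    simp only [γ, β, sum_add_distrib, mul_add, mul_div_cancel₀ _ (hθ i).ne']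
    rw [sum_comm, sum_comm (s := E)]
    exact add_le_add h1 h2
  set D : ℝ := 2 * Bt / #E with hD
  have hD0 : 0 < D := by positivity
  let I := E.filter fun e => ∃ i ∈ range (N + 1), D * θ i < γ i e
  have hI : 2 * #I ≤ #E := by
    have h1 : I ⊆ (range (N + 1)).biUnion fun i => E.filter fun e => D * θ i < γ i e := by
      intro e he
      simp only [I, mem_filter, mem_biUnion] at he ⊢
      obtain ⟨h1, i, h2, h3⟩ := he
      exact ⟨i, h2, h1, h3⟩
    have h2 : ∀ i, D * #(E.filter fun e => D * θ i < γ i e) ≤ β i := by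
      intro i
      have h3 : ∑ _e ∈ E.filter fun e => D * θ i < γ i e, D * θ i ≤ θ i * β i :=
        (sum_le_sum fun e he => (mem_filter.1 he).2.le).trans
          ((sum_le_sum_of_subset_of_nonneg (filter_subset _ _) fun e he _ => hγ0 i e he).trans
            (hγ i))
      rw [sum_const, nsmul_eq_mul] at h3
      refine le_of_mul_le_mul_left ?_ (hθ i)
      linarith
    have h3 : (#I : ℝ) ≤ ∑ i ∈ range (N + 1), (#(E.filter fun e => D * θ i < γ i e) : ℝ) := by
      exact_mod_cast (card_le_card h1).trans card_biUnion_le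
    have h4 : D * #I ≤ Bt := by
      refine (mul_le_mul_of_nonneg_left h3 hD0.le).trans ?_
      rw [mul_sum]
      exact (sum_le_sum fun i _ => h2 i).trans hβ
    have h5 : (2 * #I : ℝ) ≤ #E := by
      rw [hD, div_mul_eq_mul_div, div_le_iff₀ hm] at h4
      refine le_of_mul_le_mul_left ?_ (show 0 < Bt by linarith)
      linarith
    exact_mod_cast h5
  have hclose : ∀ i ≤ N, ∀ S, ∑ e ∈ E \ I, (g e S - g e (rep i S)) ^ 2 ≤ D * θ i * (2 * F S) := by
    intro i hi S
    have h1 : ∀ e ∈ E \ I, γ i e ≤ D * θ i := by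
      intro e he
      obtain ⟨h1, h2⟩ := mem_sdiff.1 he
      by_contra h3
      refine h2 ?_
      simp only [I, mem_filter]
      exact ⟨h1, i, mem_range.2 (by omega), not_le.1 h3⟩
    have hp : 0 ≤ D * θ i := (mul_pos hD0 (hθ i)).le
    refine (sum_sq_le sdiff_subset hp (fun e he => (hg e he).nonneg _)
      (fun e he => (hg e he).nonneg _) (fun e he => ?_) (fun e he => ?_)).trans
      (mul_le_mul_of_nonneg_left (by linarith [hrF i S]) hp)
    · linarith [close_of_key (hg e (sdiff_subset he)) (hT1 i) (hT1' i) (hr1 i S).symm, h1 e he]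
    · linarith [close_of_key (hg e (sdiff_subset he)) (hT1 i) (hT1' i) (hr1 i S), h1 e he]
  have hex : ∀ S, ∃ i, F S ≤ n * θ i := fun S => ⟨N, by nlinarith [hN S, hθ N]⟩
  let i₀ : Finset V → ℕ := fun S => Nat.find (hex S)
  have hi₀ : ∀ S, F S ≤ n * θ (i₀ S) := fun S => Nat.find_spec (hex S)
  have hi₁ : ∀ S, i₀ S ≤ N := fun S => Nat.find_min' _ (by nlinarith [hN S, hθ N])
  have hi₂ : ∀ S, 0 < F S → n * θ (i₀ S) ≤ 2 * F S := by
    intro S hS
    rcases h : i₀ S with _ | j
    · have := hmin S hS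
      simp only [θ, pow_zero, mul_one]; linarith
    · have := Nat.find_min (hex S) (show j < i₀ S by omega)
      rw [hθs]; linarith
  let 𝒥₁ : Finset (ℕ × Finset V) := (range N ×ˢ univ).filter fun p =>
    rep p.1 p.2 = p.2 ∧ θ p.1 ≤ F p.2 ∧ F p.2 ≤ n * θ p.1
  let 𝒥₂ : Finset (Finset V) := univ.filter fun S => 0 < F S
  let ks : ℕ × Finset V → ℕ := fun p =>
    #(key (T p.1) (T' p.1) p.2).1 + #(key (T p.1) (T' p.1) p.2).2
  have hlogn : 0 ≤ Real.log n := Real.log_nonneg hn1
  have hlog2 : Real.log 2 ≤ 1 := by linarith [Real.log_two_lt_d9]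
  have hlog2' : 0 ≤ Real.log 2 := Real.log_nonneg (by norm_num)
  have hlog8 : Real.log 8 = 3 * Real.log 2 := by
    rw [show (8 : ℝ) = 2 ^ 3 by norm_num, Real.log_pow]; norm_num
  have hlognL : Real.log n ≤ L := by
    have := Real.log_le_log (by linarith) hnL
    rw [Real.log_pow] at this
    have h0 : (0 : ℝ) ≤ L := by positivity
    nlinarith
  have hlogB0 : 0 ≤ Real.log (40 * Bt) := Real.log_nonneg (by linarith)
  have hlogB : Real.log (40 * Bt) ≤ 3 * L + 8 := by
    have h0 : (0 : ℝ) < L + 2 := by positivity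
    have h1 : 40 * Bt ≤ 2 ^ 7 * n ^ 2 * (L + 2) := by
      have : 0 ≤ n ^ 2 * (L + 2) := by positivity
      rw [hBt]; nlinarith
    have h2 := Real.log_le_log (by linarith) h1
    rw [Real.log_mul (by positivity) h0.ne', Real.log_mul (x := 2 ^ 7) (by positivity) (by positivity),
      Real.log_pow, Real.log_pow] at h2
    have h3 := Real.log_le_sub_one_of_pos h0
    push_cast at h2
    linarith
  refine (exists_signs (𝒥₁.disjSum 𝒥₂)
    (Sum.elim (fun p e => g e p.2 - g e (rep (p.1 + 1) p.2)) (fun S e => g e S - g e (rep (i₀ S) S)))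
    (E \ I) (Sum.elim (fun p => D * θ (p.1 + 1) * (2 * F p.2)) (fun S => D * θ (i₀ S) * (2 * F S)))
    (Sum.elim (fun p => ks p * Real.log n + Real.log (40 * Bt))
      (fun _ => n * Real.log 2 + Real.log 8)) ?_ ?_ ?_ ?_).elim fun σ ⟨hσ, hs⟩ => ?_
  · rintro (p | S) hj
    · have h1 := (mem_filter.1 (inl_mem_disjSum.1 hj)).2.2.1
      have h2 := hθ p.1
      have h3 := hθ (p.1 + 1)
      have : 0 < F p.2 := by linarith
      simp only [Sum.elim_inl]; positivity
    · have h1 := (mem_filter.1 (inr_mem_disjSum.1 hj)).2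
      have h3 := hθ (i₀ S)
      simp only [Sum.elim_inr]; positivity
  · rintro (p | S) -
    · simp only [Sum.elim_inl]; positivity
    · simp only [Sum.elim_inr, hlog8]; positivity
  · rintro (p | S) hj
    · have h1 := (mem_product.1 (mem_filter.1 (inl_mem_disjSum.1 hj)).1).1
      exact hclose _ (mem_range.1 h1) _
    · exact hclose _ (hi₁ S) _
  · rw [sum_disjSum]
    simp only [Sum.elim_inl, Sum.elim_inr]
    have e2 : ∑ _S ∈ 𝒥₂, 2 * Real.exp (-(n * Real.log 2 + Real.log 8)) ≤ 1 / 4 := by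
      have h1 : Real.exp (-(n * Real.log 2 + Real.log 8)) = ((2 : ℝ) ^ Fintype.card V * 8)⁻¹ := by
        rw [Real.exp_neg, Real.exp_add, Real.exp_log (by norm_num), hn, Real.exp_nat_mul,
          Real.exp_log (by norm_num)]
      have h2 : (#𝒥₂ : ℝ) ≤ 2 ^ Fintype.card V := by
        exact_mod_cast (card_le_univ _).trans (Fintype.card_finset).le
      rw [sum_const, nsmul_eq_mul, h1]
      have hp : (0 : ℝ) < 2 ^ Fintype.card V := by positivity
      calc _ ≤ 2 ^ Fintype.card V * (2 * ((2 : ℝ) ^ Fintype.card V * 8)⁻¹) :=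
            mul_le_mul_of_nonneg_right h2 (by positivity)
        _ = 1 / 4 := by field_simp; norm_num
    have e1 : ∑ p ∈ 𝒥₁, 2 * Real.exp (-(ks p * Real.log n + Real.log (40 * Bt))) ≤ 2 / 5 := by
      have h1 : ∀ p, Real.exp (-(ks p * Real.log n + Real.log (40 * Bt))) =
          (40 * Bt)⁻¹ * n⁻¹ ^ ks p := by
        intro p
        rw [Real.exp_neg, Real.exp_add, Real.exp_log (by linarith), Real.exp_nat_mul,
          Real.exp_log (by linarith), mul_inv, inv_pow, mul_comm]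
      have h2 : ∑ p ∈ 𝒥₁, n⁻¹ ^ ks p ≤ ∑ i ∈ range N, 8 * β i := by
        simp only [𝒥₁, sum_filter, sum_product]
        refine sum_le_sum fun i _ => ?_
        rw [← sum_filter]
        rcases (univ.filter fun R => rep i R = R ∧ θ i ≤ F R ∧ F R ≤ n * θ i).eq_empty_or_nonempty
          with h | ⟨R, hR⟩
        · rw [h, sum_empty]; linarith [hβ0 i]
        · have h3 : 1 ≤ β i := by
            have := le_cost hF (hθ i).le (mem_filter.1 hR).2.2.1 (mem_filter.1 hR).2.2.2
            have h4 := (one_le_div (hθ i)).2 this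
            have h5 := div_nonneg (hcost hF.compl i) (hθ i).le
            simp only [β]; linarith
          refine le_trans ?_ ((sum_pow_card_le hV).trans (by linarith))
          rw [← sum_image (g := key (T i) (T' i))
            (f := fun k : Finset V × Finset V => n⁻¹ ^ (#k.1 + #k.2))]
          · exact sum_le_sum_of_subset_of_nonneg (subset_univ _) fun _ _ _ => by positivity
          · intro a ha b hb e
            rw [← (mem_filter.1 (mem_coe.1 ha)).2.1, ← (mem_filter.1 (mem_coe.1 hb)).2.1]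
            exact hr3 i a b e
      have h3 : ∑ i ∈ range N, 8 * β i ≤ 8 * Bt := by
        rw [← mul_sum]
        rw [sum_range_succ] at hβ
        linarith [hβ0 N]
      simp only [h1]
      rw [← mul_sum, ← mul_sum]
      calc _ ≤ 2 * ((40 * Bt)⁻¹ * (8 * Bt)) := by gcongr; exact h2.trans h3
        _ = 2 / 5 := by field_simp; norm_num
    linarith
  set τ : ℝ := √(8 * D * (5 * L + 8)) with hτ
  have hτ0 : 0 ≤ τ := Real.sqrt_nonneg _
  have hL0 : (0 : ℝ) ≤ L := by positivity
  have hsq : ∀ y f : ℝ, 0 ≤ f → y ≤ 8 * D * (5 * L + 8) * f ^ 2 → √y ≤ τ * f := by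
    intro y f hf hy
    rw [hτ, ← Real.sqrt_sq hf, ← Real.sqrt_mul (by positivity)]
    exact Real.sqrt_le_sqrt hy
  let Y : Finset V → ℝ := fun S => ∑ e ∈ E \ I, σ e * g e S
  have hY : ∀ S S', ∑ e ∈ E \ I, σ e * (g e S - g e S') = Y S - Y S' := by
    intro S S'
    simp only [Y, mul_sub, sum_sub_distrib]
  have hY0 : ∀ S, F S ≤ 0 → Y S = 0 := by
    intro S hS
    refine sum_eq_zero fun e he => ?_
    have h1 : g e S ≤ F S := single_le_sum (f := fun e => g e S)
      (fun e he => (hg e he).nonneg S) (sdiff_subset he)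
    rw [le_antisymm (h1.trans hS) ((hg e (sdiff_subset he)).nonneg S), mul_zero]
  have hks : ∀ i R, F R ≤ n * θ i → θ i * #(key (T i) (T' i) R).1 ≤ F R ∧
      θ i * #(key (T i) (T' i) R).2 ≤ F R := by
    intro i R hR
    refine ⟨hT3 i R hR, ?_⟩
    have := hT3' i Rᶜ (by simpa using hR)
    simpa [key] using this
  have chain : ∀ d i R, rep i R = R → F R ≤ n * θ i → F R < θ (i + d) →
      |Y R| ≤ d * (τ * F R) := by
    intro d
    have base : ∀ i R, rep i R = R → F R ≤ n * θ i → F R < θ i → Y R = 0 := by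
      intro i R h1 h2 h3
      have hz : ∀ A : Finset V, θ i * #A < θ i → A = ∅ := by
        intro A hA
        rw [← card_eq_zero]
        by_contra hc
        have : (1 : ℝ) ≤ #A := by exact_mod_cast Nat.pos_of_ne_zero hc
        nlinarith [hθ i]
      have h0 := hks i ∅ (by rw [hF.empty]; nlinarith [hθ i])
      rw [hF.empty] at h0
      have e : key (T i) (T' i) ∅ = key (T i) (T' i) R := by
        apply Prod.ext
        · rw [hz _ (h0.1.trans_lt (hθ i)), hz _ ((hks i R h2).1.trans_lt h3)]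
        · rw [hz _ (h0.2.trans_lt (hθ i)), hz _ ((hks i R h2).2.trans_lt h3)]
      have := hr2 i R ∅ e
      rw [h1, hF.empty] at this
      exact hY0 R this
    induction d with
    | zero => intro i R h1 h2 h3; simp [base i R h1 h2 h3]
    | succ d ih =>
      intro i R h1 h2 h3
      have hFR := hF.nonneg R
      rcases lt_or_ge (F R) (θ i) with h4 | h4
      · rw [base i R h1 h2 h4, abs_zero]; positivity
      have hiN : i < N := by
        by_contra hc
        linarith [hθm N i (by omega), hN R]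
      have h5 := hs (Sum.inl (i, R)) (inl_mem_disjSum.2 (mem_filter.2
        ⟨mem_product.2 ⟨mem_range.2 hiN, mem_univ _⟩, h1, h4, h2⟩))
      simp only [Sum.elim_inl, hY] at h5
      have h6 := h5.trans (hsq _ (F R) hFR (by
        have a1 := hks i R h2
        have a2 : θ i * ks (i, R) ≤ 2 * F R := by
          simp only [ks]; push_cast; linarith [a1.1, a1.2]
        have a3 : θ i * (ks (i, R) * Real.log n + Real.log (40 * Bt)) ≤ (5 * L + 8) * F R := by
          have b1 : θ i * ks (i, R) * Real.log n ≤ 2 * F R * L :=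
            mul_le_mul a2 hlognL hlogn (by positivity)
          have b2 : θ i * Real.log (40 * Bt) ≤ F R * (3 * L + 8) :=
            mul_le_mul h4 hlogB hlogB0 hFR
          linarith
        have a4 := mul_le_mul_of_nonneg_left a3 (show 0 ≤ 8 * D * F R by positivity)
        rw [hθs]
        linarith))
      have h7 := ih (i + 1) (rep (i + 1) R) (hrr _ _) ((hrF _ _).trans (h2.trans
        (mul_le_mul_of_nonneg_left (hθm _ _ (by omega)) (by linarith))))
        ((hrF _ _).trans_lt (by rwa [show i + 1 + d = i + (d + 1) by ring]))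
      have h8 : (d : ℝ) * (τ * F (rep (i + 1) R)) ≤ d * (τ * F R) := by
        have := hrF (i + 1) R
        gcongr
      have h9 := abs_sub_abs_le_abs_sub (Y R) (Y (rep (i + 1) R))
      push_cast
      linarith
  refine ⟨I, fun e he => by simp only [I, mem_filter] at he; exact he.1, σ, hσ, hI, fun S => ?_⟩
  change |Y S| ≤ _ * F S
  have hFS := hF.nonneg S
  rcases hFS.eq_or_lt with h0 | h0
  · rw [hY0 S h0.ge, ← h0]; simp
  have h5 := hs (Sum.inr S) (inr_mem_disjSum.2 (mem_filter.2 ⟨mem_univ _, h0⟩))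
  simp only [Sum.elim_inr, hY] at h5
  have h6 := h5.trans (hsq _ (F S) hFS (by
    have a1 := hi₂ S h0
    have a2 := hθ (i₀ S)
    have a3 : θ (i₀ S) * (n * Real.log 2 + Real.log 8) ≤ 8 * F S := by
      have b1 : n * Real.log 2 ≤ n := by nlinarith
      have b2 : n * Real.log 2 + Real.log 8 ≤ 4 * n := by linarith
      nlinarith
    have a4 := mul_le_mul_of_nonneg_left a3 (show 0 ≤ 4 * D * F S by positivity)
    have a5 : 0 ≤ D * L * F S ^ 2 := by positivity
    have a6 : 0 ≤ D * F S ^ 2 := by positivity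
    linarith))
  have h7 := chain (L + 1) (i₀ S) (rep (i₀ S) S) (hrr _ _) ((hrF _ _).trans (hi₀ S))
    ((hrF _ _).trans_lt ((hi₀ S).trans_lt (by
      have a2 := hθ (i₀ S)
      have a3 : θ (i₀ S + (L + 1)) = 2 * 2 ^ L * θ (i₀ S) := by simp only [θ]; ring
      rw [a3]
      nlinarith)))
  have h8 : ((L + 1 : ℕ) : ℝ) * (τ * F (rep (i₀ S) S)) ≤ (L + 1) * (τ * F S) := by
    have := hrF (i₀ S) S
    push_cast
    gcongr
  have h9 := abs_sub_abs_le_abs_sub (Y S) (Y (rep (i₀ S) S))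
  have h10 : (L + 2) * τ ≤ √(160 * n ^ 2 * (L + 2) ^ 4 / #E) := by
    refine Real.le_sqrt_of_sq_le ?_
    rw [mul_pow, hτ, Real.sq_sqrt (by positivity), hD, hBt, le_div_iff₀ hm]
    have : ((L : ℝ) + 2) ^ 2 * (8 * (2 * (2 * n ^ 2 * (L + 2)) / #E) * (5 * L + 8)) * #E =
        32 * (n ^ 2 * (L + 2) ^ 3) * (5 * L + 8) := by field_simp; ring
    rw [this]
    have h0 : 0 ≤ n ^ 2 * ((L : ℝ) + 2) ^ 3 := by positivity
    nlinarith
  have := mul_le_mul_of_nonneg_right h10 hFS
  linarith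

end Pool.Agent.Lib.MP_348529_lc
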