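import Pool.Agent.Lib.MP_348529_lc.XPart

/-!
Splitting functions with the cover property.
-/

namespace Pool.Agent.Lib.MP_348529_lc.X

open Finset MeasureTheory

/-- A normalised monotone submodular set function. -/
def MonoSub {W : Type} [DecidableEq W] (m : Finset W → ℝ) : Prop :=
  m ∅ = 0 ∧ (∀ S T, S ⊆ T → m S ≤ m T) ∧ ∀ S T, m (S ∪ T) + m (S ∩ T) ≤ m S + m T

/-- The cost of the set `X` of nodes of a gadget. -/
def cost {W : Type} [Fintype W] [DecidableEq W] (m₀ : Finset W → ℝ) (m m' : W → Finset W → ℝ)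
    (X : Finset W) : ℝ :=
  m₀ X + ∑ b ∈ Xᶜ, m b X + ∑ a ∈ X, m' a Xᶜ

lemma avg {κ : Type} [Fintype κ] (w a b : κ → ℝ) (hw : ∀ k, 0 ≤ w k) {M : ℝ}
    (h : ∀ t, 0 < t → t ≤ 1 → M ≤ ∑ k, w k * if a k < t ∧ t ≤ b k then 1 else 0) :
    M ≤ ∑ k, w k * max (b k - a k) 0 := by
  have i1 : ∀ x y : ℝ, Integrable ((Set.Ioc x y).indicator (1 : ℝ → ℝ)) := fun x y =>
    (integrable_indicator_iff measurableSet_Ioc).2 (integrableOn_const measure_Ioc_lt_top.ne)
  have i2 : ∀ x y : ℝ, ∫ t, (Set.Ioc x y).indicator (1 : ℝ → ℝ) t = max (y - x) 0 := fun x y => by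
    rw [integral_indicator_one measurableSet_Ioc, Real.volume_real_Ioc]
  have := integral_mono ((i1 0 1).const_mul M)
    (integrable_finsetSum univ fun k _ => (i1 (a k) (b k)).const_mul (w k)) fun t => by
      simp only [Set.indicator_apply, Set.mem_Ioc, Pi.one_apply]
      split_ifs with ht
      · simpa using h t ht.1 ht.2
      · simpa using sum_nonneg fun k _ => mul_nonneg (hw k)
          (show (0 : ℝ) ≤ if a k < t ∧ t ≤ b k then 1 else 0 by positivity)
  rw [integral_finsetSum _ fun k _ => (i1 (a k) (b k)).const_mul (w k)] at this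
  simpa only [integral_const_mul, i2, sub_zero, max_eq_left zero_le_one, mul_one] using this

variable {W : Type} [DecidableEq W]

lemma MonoSub.nn {m : Finset W → ℝ} (h : MonoSub m) (S : Finset W) : 0 ≤ m S :=
  h.1 ▸ h.2.1 _ _ (empty_subset S)

lemma MonoSub.greedy {m : Finset W → ℝ} (h : MonoSub m) (d : W → ℝ) (E : Finset W) :
    ∃ μ : W → ℝ, (∀ x, 0 ≤ μ x) ∧ (∀ T ⊆ E, ∑ x ∈ T, μ x ≤ m T) ∧
      ∀ L ⊆ E, (∀ x ∈ L, ∀ y ∈ E, d y ≤ d x → y ∈ L) → m L ≤ ∑ x ∈ L, μ x := by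
  induction E using Finset.induction_on_max_value d with
  | empty => exact ⟨fun _ => 0, by simp, by simp [h.1], by simp [h.1]⟩
  | insert a E ha hd ih =>
    obtain ⟨μ, μ0, μ1, μ2⟩ := ih
    have e : ∀ T ⊆ E, ∑ x ∈ T, Function.update μ a (m (insert a E) - m E) x = ∑ x ∈ T, μ x :=
      fun T hT => sum_congr rfl fun x hx => Function.update_of_ne (fun c : x = a => ha (c ▸ hT hx)) _ _
    refine ⟨Function.update μ a (m (insert a E) - m E), fun x => ?_, fun T hT => ?_,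
      fun L hL hL' => ?_⟩
    · rcases eq_or_ne x a with rfl | c
      · simpa using h.2.1 _ _ (subset_insert _ _)
      · rw [Function.update_of_ne c]; exact μ0 x
    · by_cases c : a ∈ T
      · have h1 := subset_insert_iff.1 hT
        have h2 := h.2.2 T E
        rw [show T ∪ E = insert a E from subset_antisymm (union_subset hT (subset_insert _ _))
          (insert_subset (mem_union_left _ c) subset_union_right),
          show T ∩ E = T.erase a from subset_antisymm (fun x hx => mem_erase.2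
            ⟨fun c : x = a => ha (c ▸ (mem_inter.1 hx).2), (mem_inter.1 hx).1⟩)
            (subset_inter (erase_subset _ _) h1)] at h2
        rw [← add_sum_erase _ _ c, e _ h1, Function.update_self]
        linarith [μ1 _ h1]
      · have h1 := (subset_insert_iff_of_notMem c).1 hT
        rw [e _ h1]; exact μ1 _ h1
    · by_cases c : a ∈ L
      · rw [show L = insert a E from subset_antisymm hL
          (insert_subset c fun y hy => hL' a c y (mem_insert_of_mem hy) (hd y hy)),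
          sum_insert ha, e _ subset_rfl, Function.update_self]
        linarith [μ2 E subset_rfl fun _ _ y hy _ => hy]
      · have h1 := (subset_insert_iff_of_notMem c).1 hL
        rw [e _ h1]
        exact μ2 L h1 fun x hx y hy => hL' x hx y (mem_insert_of_mem hy)

variable [Fintype W]

/-- The pairs separated by a set. -/
def prs (S : Finset W) : Finset (W × Option W) := S ×ˢ insertNone Sᶜ

lemma mem_prs_none {S : Finset W} {a : W} : (a, none) ∈ prs S ↔ a ∈ S := by simp [prs]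

lemma mem_prs_some {S : Finset W} {a b : W} : (a, some b) ∈ prs S ↔ a ∈ S ∧ b ∉ S := by simp [prs]

lemma cost_greedy {m₀ : Finset W → ℝ} {m m' : W → Finset W → ℝ} (h₀ : MonoSub m₀)
    (h : ∀ b, MonoSub (m b)) (h' : ∀ a, MonoSub (m' a)) (d : W → ℝ) :
    ∃ μ : W × Option W → ℝ, (∀ u, 0 ≤ μ u) ∧ (∀ T, ∑ u ∈ prs T, μ u ≤ cost m₀ m m' T) ∧
      ∀ t, cost m₀ m m' {x | d x < t} ≤ ∑ u ∈ prs {x | d x < t}, μ u := by
  obtain ⟨ν, ν0, ν1, ν2⟩ := h₀.greedy d univ
  choose μ μ0 μ1 μ2 using fun b => (h b).greedy d univ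
  choose μ' μ0' μ1' μ2' using fun a => (h' a).greedy (fun x => -d x) univ
  set ρ : W × Option W → ℝ := fun u => u.2.elim (ν u.1) fun b => μ b u.1 + μ' u.1 b with hρ
  have e : ∀ T : Finset W, ∑ u ∈ prs T, ρ u =
      ∑ x ∈ T, ν x + ∑ b ∈ Tᶜ, ∑ x ∈ T, μ b x + ∑ a ∈ T, ∑ x ∈ Tᶜ, μ' a x := fun T => by
    rw [prs, sum_product, sum_comm (s := Tᶜ)]
    simp only [sum_insertNone, hρ, Option.elim, sum_add_distrib, add_assoc]
  refine ⟨ρ, fun ⟨a, y⟩ => ?_, fun T => ?_, fun t => ?_⟩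
  · cases y
    exacts [ν0 _, add_nonneg (μ0 _ _) (μ0' _ _)]
  · rw [e]
    exact add_le_add (add_le_add (ν1 _ (subset_univ _)) (sum_le_sum fun b _ =>
      μ1 b _ (subset_univ _))) (sum_le_sum fun a _ => μ1' a _ (subset_univ _))
  · rw [e]
    have l1 : ∀ x ∈ ({x | d x < t} : Finset W), ∀ y ∈ (univ : Finset W), d y ≤ d x →
        y ∈ ({x | d x < t} : Finset W) := fun x hx y _ hy => by
      simp only [mem_filter, mem_univ, true_and] at hx ⊢
      linarith
    refine add_le_add (add_le_add (ν2 _ (subset_univ _) l1) (sum_le_sum fun b _ =>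
      μ2 b _ (subset_univ _) l1)) (sum_le_sum fun a _ => μ2' a _ (subset_univ _) fun x hx y _ hy => ?_)
    simp only [mem_compl, mem_filter, mem_univ, true_and, not_lt] at hx ⊢
    linarith

lemma ball {τ : Type} [Fintype τ] {m₀ : Finset W → ℝ} {m m' : W → Finset W → ℝ} (h₀ : MonoSub m₀)
    (h : ∀ b, MonoSub (m b)) (h' : ∀ a, MonoSub (m' a)) (X : τ → Finset W) (w : τ → ℝ)
    (hw : ∀ T, 0 ≤ w T) (A B : Finset W)
    (hAB : ∀ a ∈ A, ∀ y ∈ insertNone B, 1 ≤ ∑ T, w T * if (a, y) ∈ prs (X T) then 1 else 0) :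
    ∃ P, A ⊆ P ∧ Disjoint P B ∧ cost m₀ m m' P ≤ ∑ T, w T * cost m₀ m m' (X T) := by
  classical
  rcases A.eq_empty_or_nonempty with rfl | hA
  · refine ⟨∅, subset_rfl, disjoint_empty_left _, le_trans (le_of_eq ?_) (sum_nonneg fun T _ =>
      mul_nonneg (hw T) (add_nonneg (add_nonneg (h₀.nn _) (sum_nonneg fun b _ => (h b).nn _))
        (sum_nonneg fun a _ => (h' a).nn _)))⟩
    simp [cost, h₀.1, fun b => (h b).1]
  set l : W → Option W → ℝ := fun a y => ∑ T, w T * if (a, y) ∈ prs (X T) then 1 else 0 with hl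
  set D : Option W → ℝ := fun y => A.inf' hA fun a => l a y with hD
  have D1 : ∀ y ∈ insertNone B, 1 ≤ D y := fun y hy => le_inf' _ _ fun a ha => hAB a ha y hy
  have D2 : ∀ x y, D y - D (some x) ≤ l x y := fun x y => by
    rw [sub_le_comm]
    refine le_inf' _ _ fun a ha => ?_
    rw [sub_le_iff_le_add]
    refine (inf'_le _ ha).trans ?_
    simp only [hl, ← sum_add_distrib, ← mul_add]
    refine sum_le_sum fun T _ => mul_le_mul_of_nonneg_left ?_ (hw T)
    simp only [prs, mem_product, some_mem_insertNone, mem_compl]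
    by_cases c : x ∈ X T <;> split_ifs <;> simp_all
  have hP : ∀ t, 0 < t → t ≤ 1 → ({x | D (some x) < t} : Finset W) ∈
      ({P | A ⊆ P ∧ Disjoint P B} : Finset (Finset W)) := fun t t0 t1 => by
    simp only [mem_filter, mem_univ, true_and]
    refine ⟨fun a ha => ?_, disjoint_right.2 fun b hb => ?_⟩
    · simp only [mem_filter, mem_univ, true_and]
      exact ((inf'_le _ ha).trans (by simp [hl, mem_prs_some])).trans_lt t0
    · simpa using t1.trans (D1 _ (some_mem_insertNone.2 hb))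
  obtain ⟨P, hP1, hP2⟩ := exists_min_image _ (cost m₀ m m') ⟨_, hP 1 one_pos le_rfl⟩
  obtain ⟨μ, μ0, μ1, μ2⟩ := cost_greedy h₀ h h' fun x => D (some x)
  refine ⟨P, (mem_filter.1 hP1).2.1, (mem_filter.1 hP1).2.2, (avg μ (fun u => D (some u.1))
    (fun u => D u.2) μ0 fun t t0 t1 => ((hP2 _ (hP t t0 t1)).trans (μ2 t)).trans ?_).trans ?_⟩
  · simp only [mul_ite, mul_one, mul_zero, ← sum_filter]
    refine sum_le_sum_of_subset_of_nonneg (fun ⟨a, y⟩ hu => ?_) fun u _ _ => μ0 u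
    cases y
    · simpa [mem_prs_none, t1.trans (D1 _ none_mem_insertNone)] using hu
    · simpa [mem_prs_some] using hu
  · calc _ ≤ ∑ u, μ u * l u.1 u.2 := sum_le_sum fun u _ => mul_le_mul_of_nonneg_left
          (max_le (D2 _ _) (sum_nonneg fun T _ => mul_nonneg (hw T) (by positivity))) (μ0 u)
      _ = ∑ T, w T * ∑ u ∈ prs (X T), μ u := by
          simp only [hl, mul_sum, mul_left_comm (μ _)]
          rw [sum_comm]
          simp [← mul_sum]
      _ ≤ _ := sum_le_sum fun T _ => mul_le_mul_of_nonneg_left (μ1 _) (hw T)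

lemma cov_of_ball {G : Finset W → ℝ} (G0 : G ∅ = 0) (G1 : ∀ S, 0 ≤ G S)
    (G2 : ∀ S T, G (S ∪ T) + G (S ∩ T) ≤ G S + G T) {K : ℝ} (hK : 0 ≤ K)
    (hb : ∀ (A B : Finset W) (w : Finset W → ℝ), (∀ T, 0 ≤ w T) →
      (∀ a ∈ A, ∀ y ∈ insertNone B, 1 ≤ ∑ T, w T * if (a, y) ∈ prs T then 1 else 0) →
      ∃ P, A ⊆ P ∧ Disjoint P B ∧ G P ≤ K * ∑ T, w T * G T) : Cov prs ∅ (2 * K) G := by
  refine ⟨G1, G0, fun S S' w hw => ?_⟩
  have h1 : ∀ u ∈ prs S, u ∉ prs S' → 1 ≤ ∑ T, w T * if u ∈ prs T then 1 else 0 :=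
    fun u hu hu' => hw.2 u (mem_sdiff.2 ⟨hu, hu'⟩) ⟨S, hu⟩
  obtain ⟨P, P1, P2, P3⟩ := hb (S \ S') Sᶜ w hw.1 fun a ha y hy =>
    h1 _ (mem_product.2 ⟨(mem_sdiff.1 ha).1, hy⟩) fun c => (mem_sdiff.1 ha).2 (mem_product.1 c).1
  have P4 : P ⊆ S := le_iff_subset.1 (disjoint_compl_right_iff.1 P2)
  have c0 : 0 ≤ K * ∑ T, w T * G T :=
    mul_nonneg hK (sum_nonneg fun T _ => mul_nonneg (hw.1 T) (G1 T))
  by_cases c : S' ⊆ S
  · have := G2 P S'
    rw [show P ∪ S' = S from subset_antisymm (union_subset P4 c)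
      (sdiff_le_iff'.1 (le_iff_subset.2 P1))] at this
    linarith [G1 (P ∩ S')]
  obtain ⟨b, hb1, hb2⟩ := not_subset.1 c
  have h2 : ∀ a ∈ S ∩ S', ∀ b ∈ S', b ∉ S → 1 ≤ ∑ T, w T * if (a, some b) ∈ prs T then 1 else 0 :=
    fun a ha b hb1 hb2 => h1 _ (mem_prs_some.2 ⟨(mem_inter.1 ha).1, hb2⟩)
      fun c => (mem_prs_some.1 c).2 hb1
  obtain ⟨Q, Q1, Q2, Q3⟩ := hb (S ∩ S') (S' \ S) w hw.1 fun a ha y hy => by
    cases y with
    | none =>
      refine (h2 a ha b hb1 hb2).trans (sum_le_sum fun T _ => mul_le_mul_of_nonneg_left ?_ (hw.1 T))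
      simp only [mem_prs_some, mem_prs_none]
      split_ifs <;> simp_all
    | some y =>
      have := mem_sdiff.1 (some_mem_insertNone.1 hy)
      exact h2 a ha y this.1 this.2
  have h3 := G2 P (S' ∩ Q)
  rw [show P ∪ S' ∩ Q = S from subset_antisymm (union_subset P4 fun x hx => by
      by_contra c
      exact disjoint_left.1 Q2 (mem_inter.1 hx).2 (mem_sdiff.2 ⟨(mem_inter.1 hx).1, c⟩))
    fun x hx => by
      by_cases c : x ∈ S'
      · exact mem_union_right _ (mem_inter.2 ⟨c, Q1 (mem_inter.2 ⟨hx, c⟩)⟩)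
      · exact mem_union_left _ (P1 (mem_sdiff.2 ⟨hx, c⟩))] at h3
  linarith [G2 S' Q, G1 (S' ∪ Q), G1 (P ∩ (S' ∩ Q))]

lemma cov_gadget {A : Type} [Fintype A] [DecidableEq A] {e : Finset W} {g : Finset W → ℝ}
    (g0 : g ∅ = 0) (g1 : ∀ S ⊆ e, 0 ≤ g S)
    (g2 : ∀ S ⊆ e, ∀ T ⊆ e, g (S ∪ T) + g (S ∩ T) ≤ g S + g T) {K : ℝ} (hK : 0 ≤ K)
    {m₀ : Finset (W ⊕ A) → ℝ} {m m' : W ⊕ A → Finset (W ⊕ A) → ℝ} (h₀ : MonoSub m₀)
    (h : ∀ b, MonoSub (m b)) (h' : ∀ a, MonoSub (m' a))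
    (hl : ∀ S ⊆ e, ∃ T, cost m₀ m m' (S.disjSum T) ≤ g S)
    (hu : ∀ S ⊆ e, ∀ T, g S ≤ K * cost m₀ m m' (S.disjSum T)) :
    Cov prs ∅ (2 * K) fun S => g (S ∩ e) := by
  refine cov_of_ball (by simp [g0]) (fun S => g1 _ inter_subset_right) (fun S T => by
    have := g2 (S ∩ e) inter_subset_right (T ∩ e) inter_subset_right
    rwa [← union_inter_distrib_right, ← inter_inter_distrib_right] at this) hK
    fun P B w hw hP => ?_
  choose X hX using fun S => hl (S ∩ e) inter_subset_right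
  obtain ⟨Q, Q1, Q2, Q3⟩ := ball h₀ h h' (fun T => (T ∩ e).disjSum (X T)) w hw
    ((P ∩ e).disjSum ∅) ((B ∪ eᶜ).disjSum ∅) fun a ha y hy => by
    rcases a with a | a
    swap
    · simp at ha
    obtain ⟨a1, a2⟩ := mem_inter.1 (inl_mem_disjSum.1 ha)
    rcases y with _ | b | b
    · simpa [mem_prs_none, a2] using hP a a1 none none_mem_insertNone
    · by_cases c : b ∈ e
      · simpa [mem_prs_some, a2, c] using hP a a1 (some b) (by simpa [c] using hy)
      · simpa [mem_prs_some, mem_prs_none, a2, c] using hP a a1 none none_mem_insertNone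
    · simp at hy
  have Q4 : ∀ x ∈ Q.toLeft, x ∉ B ∧ x ∈ e := fun x hx => by
    simpa using disjoint_left.1 Q2 (mem_toLeft.1 hx)
  refine ⟨P ∪ Q.toLeft, subset_union_left, disjoint_union_left.2 ⟨disjoint_left.2 fun a ha hb => ?_,
    disjoint_left.2 fun x hx => (Q4 x hx).1⟩, ?_⟩
  · have := hP a ha (some a) (some_mem_insertNone.2 hb)
    norm_num [mem_prs_some] at this
  · rw [show (P ∪ Q.toLeft) ∩ e = Q.toLeft from subset_antisymm (fun x hx => by
      rcases mem_union.1 (mem_inter.1 hx).1 with c | c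
      exacts [mem_toLeft.2 (Q1 (inl_mem_disjSum.2 (mem_inter.2 ⟨c, (mem_inter.1 hx).2⟩))), c])
      fun x hx => mem_inter.2 ⟨mem_union_right _ hx, (Q4 x hx).2⟩]
    refine (hu _ (fun x hx => (Q4 x hx).2) Q.toRight).trans (mul_le_mul_of_nonneg_left ?_ hK)
    rw [toLeft_disjSum_toRight]
    exact Q3.trans (sum_le_sum fun T _ => mul_le_mul_of_nonneg_left (hX T) (hw T))

lemma MonoSub.cov {g : Finset W → ℝ} (h : MonoSub g) : Cov id ∅ 1 g := by
  refine ⟨h.nn, h.1, fun S S' w hw => ?_⟩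
  obtain ⟨μ, μ0, μ1, μ2⟩ := h.greedy (fun x => if x ∈ S then 0 else 1) univ
  have h1 := μ2 S (subset_univ _) fun x hx y _ hy => by
    by_contra c
    norm_num [hx, c] at hy
  have h2 := μ1 (S ∩ S') (subset_univ _)
  have h3 := h.2.1 _ _ (inter_subset_right : S ∩ S' ⊆ S')
  have h4 : ∑ x ∈ S \ S', μ x ≤ ∑ T, w T * g T :=
    calc _ ≤ ∑ x ∈ S \ S', μ x * ∑ T, w T * if x ∈ T then 1 else 0 := sum_le_sum fun x hx =>
          le_mul_of_one_le_right (μ0 x) (hw.2 x hx ⟨S, (mem_sdiff.1 hx).1⟩)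
      _ ≤ ∑ x, μ x * ∑ T, w T * if x ∈ T then 1 else 0 :=
          sum_le_sum_of_subset_of_nonneg (subset_univ _) fun x _ _ => mul_nonneg (μ0 x)
            (sum_nonneg fun T _ => mul_nonneg (hw.1 T) (by positivity))
      _ = ∑ T, w T * ∑ x ∈ T, μ x := by
          simp only [mul_sum, mul_left_comm (μ _)]
          rw [sum_comm]
          simp [← mul_sum]
      _ ≤ _ := sum_le_sum fun T _ => mul_le_mul_of_nonneg_left (μ1 _ (subset_univ _)) (hw.1 T)
  rw [← sum_inter_add_sum_sdiff S S'] at h1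
  linarith

end Pool.Agent.Lib.MP_348529_lc.X
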