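import Pool.Agent.Lib.MP_348529_lc.XTerm

/-!
The multiscale decomposition and the correlation bound.
-/

namespace Pool.Agent.Lib.MP_348529_lc.X

open Finset

lemma geo {q : ℝ} (h0 : 0 ≤ q) (h1 : q < 1) (n : ℕ) : ∑ k ∈ range n, q ^ k ≤ (1 - q)⁻¹ := by
  rw [← tsum_geometric_of_lt_one h0 h1]
  exact (summable_geometric_of_lt_one h0 h1).sum_le_tsum _ fun k _ => pow_nonneg h0 k

lemma geo' {q : ℝ} (h0 : 0 ≤ q) (h1 : q < 1) (j : ℕ) :
    ∑ k ∈ range (j + 1), q ^ (j - k) ≤ (1 - q)⁻¹ := by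
  have := sum_range_reflect (fun k => q ^ k) (j + 1)
  simp only [add_tsub_cancel_right] at this
  rw [this]
  exact geo h0 h1 _

lemma geo_diag {q : ℝ} (h0 : 0 ≤ q) (h1 : q < 1) (n : ℕ) {a : ℕ → ℝ} (ha : ∀ j, 0 ≤ a j) :
    ∑ i ∈ range n, ∑ j ∈ range (i + 1), a j * q ^ (i - j) ≤ (∑ j ∈ range n, a j) * (1 - q)⁻¹ := by
  rw [sum_range_diag_flip n fun j d => a j * q ^ d, sum_mul]
  refine sum_le_sum fun j _ => ?_
  rw [← mul_sum]
  exact mul_le_mul_of_nonneg_left (geo h0 h1 _) (ha j)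

lemma pot {x v : ℝ} (hx : 0 ≤ x) (hv : 0 < v) (n : ℕ) :
    ∑ i ∈ range n, min x (2 ^ (i + 2) * v) ^ 2 / (2 ^ (i + 2) * v) ≤ 6 * x := by
  have key : ∑ i ∈ range n, min x (2 ^ (i + 2) * v) ^ 2 / (2 ^ (i + 2) * v) ≤
      6 * (x * (2 ^ (n + 2) * v) / (x + 2 ^ (n + 2) * v)) := by
    induction n with
    | zero => simp only [range_zero, sum_empty]; positivity
    | succ n ih =>
      rw [sum_range_succ, show (2 : ℝ) ^ (n + 1 + 2) * v = 2 * (2 ^ (n + 2) * v) by ring]
      have hw : 0 < 2 ^ (n + 2) * v := by positivity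
      generalize 2 ^ (n + 2) * v = w at *
      have e : x * (2 * w) / (x + 2 * w) =
          x * w / (x + w) + x ^ 2 * w / ((x + w) * (x + 2 * w)) := by
        field_simp; ring
      have h2 : min x w ^ 2 / w ≤ 6 * (x ^ 2 * w / ((x + w) * (x + 2 * w))) := by
        rw [← mul_div_assoc, div_le_div_iff₀ hw (by positivity)]
        rcases le_total x w with h | h
        · rw [min_eq_left h]
          have : (x + w) * (x + 2 * w) ≤ 2 * w * (3 * w) :=
            mul_le_mul (by linarith) (by linarith) (by positivity) (by positivity)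
          nlinarith [mul_le_mul_of_nonneg_left this (sq_nonneg x)]
        · rw [min_eq_right h]
          have : (x + w) * (x + 2 * w) ≤ 2 * x * (3 * x) :=
            mul_le_mul (by linarith) (by linarith) (by positivity) (by positivity)
          nlinarith [mul_le_mul_of_nonneg_left this (sq_nonneg w)]
      linarith
  refine key.trans (mul_le_mul_of_nonneg_left ?_ (by norm_num))
  rw [div_le_iff₀ (by positivity)]
  nlinarith

/-- The slice of `x` between `v` and `2 v`. -/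
def psi (v x : ℝ) : ℝ := min x (2 * v) - min x v

lemma psi_lip {v x y : ℝ} (hv : 0 ≤ v) (h : x ≤ y) :
    psi v x ≤ psi v y ∧ psi v y - psi v x ≤ y - x := by
  simp only [psi, min_def]
  constructor <;> split_ifs <;> linarith

lemma psi_zero {v x : ℝ} (hv : 0 ≤ v) (h : x ≤ v) : psi v x = 0 := by
  rw [psi, min_eq_left h, min_eq_left (by linarith), sub_self]

lemma psi_le {v x : ℝ} (hv : 0 ≤ v) : psi v x ≤ v := by
  simp only [psi, min_def]
  split_ifs <;> linarith

lemma psi_tele (v x : ℝ) (n : ℕ) :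
    min x (2 ^ (n + 2) * v) = min x (4 * v) + ∑ i ∈ range n, psi (2 ^ (i + 2) * v) x := by
  induction n with
  | zero => norm_num
  | succ n ih =>
    rw [sum_range_succ, ← add_assoc, ← ih, psi,
      show (2 : ℝ) ^ (n + 1 + 2) * v = 2 * (2 ^ (n + 2) * v) by ring]
    ring

variable {α U : Type} [Fintype α] [Fintype U] [DecidableEq U] {φ : α → Finset U}

omit [Fintype α] [Fintype U] in
lemma FG.pc {F Γ : Finset U → ℝ} (h : FG F Γ) {W W' : Finset U} (hW : W' ⊆ W) {B v : ℝ}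
    (hv : 0 ≤ v) (hB : v ≤ B ∨ Γ (W \ W') ≤ B) :
    Pc (fun A => psi v (F (A ∩ W)) - psi v (F (A ∩ W'))) Γ B v := by
  have hs : ∀ A : Finset U, F (A ∩ W') ≤ F (A ∩ W) := fun A =>
    h.Fmono (inter_subset_inter_left hW)
  have hp : ∀ A, 0 ≤ psi v (F A) := fun A =>
    (psi_zero hv hv).symm.trans_le (psi_lip hv (h.Fnn A)).1
  have hl : ∀ A A' X : Finset U, psi v (F (A ∩ X)) ≤ psi v (F ((A ∪ A') ∩ X)) ∧
      psi v (F ((A ∪ A') ∩ X)) - psi v (F (A ∩ X)) ≤ Γ A' := fun A A' X => by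
    have h1 := psi_lip hv (h.Fmono (inter_subset_inter_right subset_union_left :
      A ∩ X ⊆ (A ∪ A') ∩ X))
    have h2 := h.Fadd (A ∩ X) (A' ∩ X)
    rw [← union_inter_distrib_right] at h2
    exact ⟨h1.1, by linarith [h1.2, h.Gmono (inter_subset_left : A' ∩ X ⊆ A')]⟩
  refine ⟨fun A => sub_nonneg.2 (psi_lip hv (hs A)).1, fun A => ?_, fun A A' => ?_,
    fun A => ?_, fun A hA => ?_⟩
  · rcases hB with hB | hB
    · linarith [hp (A ∩ W'), psi_le (x := F (A ∩ W)) hv]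
    · have h1 := (psi_lip hv (hs A)).2
      have h2 := h.Fadd (A ∩ W') (W \ W')
      have h3 : F (A ∩ W) ≤ F (A ∩ W' ∪ W \ W') := h.Fmono fun u hu => by
        simp only [mem_union, mem_inter, mem_sdiff] at hu ⊢
        tauto
      linarith
  · have h1 := hl A A' W
    have h2 := hl A A' W'
    exact abs_le.2 ⟨by linarith [h1.1, h2.2], by linarith [h1.2, h2.1]⟩
  · have h1 := (psi_lip hv (hs A)).2
    linarith [h.Fnn (A ∩ W'), h.FleG (A ∩ W), h.Gmono (inter_subset_left : A ∩ W ⊆ A)]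
  · have h1 := (h.FleG (A ∩ W)).trans ((h.Gmono inter_subset_left).trans hA)
    show _ - _ = _
    rw [psi_zero hv h1, psi_zero hv ((hs A).trans h1), sub_self]

section core

variable {ι : Type} [DecidableEq ι] (J : Finset ι) (ν : Finset ι → α → ℝ)
  (h0 : ∀ θ ∈ J.powerset, ∀ a, 0 ≤ ν θ a) (h1 : ∀ θ ∈ J.powerset, ∑ a, ν θ a = 1) (π : U → ℝ)
  (hπ : ∀ u, ∑ θ ∈ J.powerset, ∑ a, ν θ a * (if u ∈ φ a then 1 else 0) = 2 ^ #J * π u)
  {F Γ : ι → Finset U → ℝ} (hF : ∀ e ∈ J, FG (F e) (Γ e)) {δ : ℝ} (hδ0 : 0 < δ)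
  (hδ : ∀ θ ∈ J.powerset, ∀ e ∈ J, ∑ a, ν θ a * Γ e (φ a) ≤ δ)

include h0 h1 hπ hF hδ0 hδ

lemma piece {i j : ℕ} (hji : j ≤ i) (W : Finset U) (lv : U → ℕ) (hW : ∀ u ∈ W, j ≤ lv u)
    (hlv : ∀ u, π u ≤ (1 / 2) ^ lv u) {G : ι → Finset U → ℝ}
    (hG : ∀ e ∈ J, Pc (G e) (Γ e) (2 ^ (j + 2) * δ) (2 ^ (i + 2) * δ))
    (hGW : ∀ e A, G e (A ∩ W) = G e A) {l : ℝ} (hl : 0 < l) :
    ∑ θ ∈ J.powerset, ∑ e ∈ J, sg θ e * ∑ a, ν θ a * G e (φ a) ≤
      2 ^ #J * (28 * ∑ u ∈ W, (3 / 4 : ℝ) ^ (lv u - j)) / l +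
      l * (256 * δ * (1 / 2) ^ (i - j)) * ∑ θ ∈ J.powerset, ∑ e ∈ J,
        (∑ a, ν θ a * min (Γ e (φ a)) (2 ^ (i + 2) * δ) ^ 2) / (2 ^ (i + 2) * δ) := by
  set f : ℕ → ι → Finset U × Finset U → ℝ := fun k e z =>
    if k < j then (G e z.1 + G e z.2 - G e (z.1 ∪ z.2)) / 2 ^ (k + 1) else G e z.1 / 2 ^ j with hf
  have hfW : ∀ k e (p : Multiset α × Multiset α),
      f k e (R φ p.1 ∩ W, R φ p.2 ∩ W) = f k e (R φ p.1, R φ p.2) := fun k e p => by
    simp only [hf, ← union_inter_distrib_right, hGW]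
  have e1 : ∀ θ ∈ J.powerset, ∀ e, ∑ a, ν θ a * G e (φ a) =
      ∑ k ∈ range (j + 1), E2 (ν θ) k fun p => f k e (R φ p.1, R φ p.2) := fun θ hθ e => by
    have := Ex_tele (h0 θ hθ) (h1 θ hθ) (fun x => G e (R φ x)) j
    rw [Ex_zero] at this
    simp only [R_single, R_add] at this
    rw [this, sum_range_succ]
    congr 1
    · exact sum_congr rfl fun k hk => by simp only [hf, if_pos (mem_range.1 hk)]
    · simp only [hf, lt_irrefl, if_false, div_eq_mul_inv]
      rw [Pr.mul', E2_fst (h0 θ hθ) (h1 θ hθ) j fun x => G e (R φ x)]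
  set Q : Finset ι → ι → ℝ := fun θ e => ∑ a, ν θ a * min (Γ e (φ a)) (2 ^ (i + 2) * δ) ^ 2 with hQ
  have hQ0 : ∀ θ ∈ J.powerset, ∀ e, 0 ≤ Q θ e := fun θ hθ e =>
    sum_nonneg fun a _ => mul_nonneg (h0 θ hθ a) (sq_nonneg _)
  obtain ⟨d, rfl⟩ := Nat.exists_eq_add_of_le hji
  rw [add_tsub_cancel_left]
  have e2 : ∀ k ≤ j, ∀ θ ∈ J.powerset, ∀ e ∈ J,
      E2 (ν θ) k (fun p => f k e (R φ p.1, R φ p.2) ^ 2) ≤
        64 * δ * (1 / 2) ^ d * (Q θ e / (2 ^ (j + d + 2) * δ)) := fun k hk θ hθ e he => by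
    have hk' : 2 ^ k * δ ≤ 2 ^ (j + d + 2) * δ / 4 := by
      have : (2 : ℝ) ^ k ≤ 2 ^ (j + d) := pow_le_pow_right₀ one_le_two (by omega)
      rw [pow_add _ (j + d)]
      nlinarith
    have q0 := hQ0 θ hθ e
    rcases hk.lt_or_eq with c | rfl
    · have := var_mid (h0 θ hθ) (h1 θ hθ) (hF e he) (hδ θ hθ e he) (by positivity) hk' (hG e he)
      simp only [hf, if_pos c, div_pow, div_eq_mul_inv _ ((2 ^ (k + 1)) ^ 2 : ℝ)]
      rw [Pr.mul']
      refine (mul_le_mul_of_nonneg_right this (by positivity)).trans ?_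
      calc _ = 32 * δ * (1 / 2) ^ d * (Q θ e / (2 ^ (j + d + 2) * δ)) := by
            simp only [hQ, one_div, inv_pow]; field_simp; ring
        _ ≤ _ := by simp only [one_pow, div_pow]; gcongr; norm_num
    · have := var_top (h0 θ hθ) (h1 θ hθ) (hF e he) (hδ θ hθ e he) (by positivity) hk' (hG e he)
      simp only [hf, lt_irrefl, if_false, div_pow, div_eq_mul_inv _ ((2 ^ k) ^ 2 : ℝ)]
      rw [Pr.mul']
      refine (mul_le_mul_of_nonneg_right this (by positivity)).trans (le_of_eq ?_)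
      simp only [hQ]; field_simp; ring
  set a := ∑ u ∈ W, (3 / 4 : ℝ) ^ (lv u - j) with ha
  have ha0 : 0 ≤ a := sum_nonneg fun u _ => by positivity
  set S := ∑ θ ∈ J.powerset, ∑ e ∈ J, Q θ e / (2 ^ (j + d + 2) * δ) with hS
  have hS0 : 0 ≤ S := sum_nonneg fun θ hθ => sum_nonneg fun e _ =>
    div_nonneg (hQ0 θ hθ e) (by positivity)
  have e3 : ∀ k ∈ range (j + 1), ∑ θ ∈ J.powerset, ∑ e ∈ J,
      sg θ e * E2 (ν θ) k (fun p => f k e (R φ p.1, R φ p.2)) ≤
      2 ^ #J * (4 * a) / l * (6 / 7) ^ (j - k) +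
        l * (32 * δ * (1 / 2) ^ d) * S * (7 / 8) ^ (j - k) := fun k hk => by
    have hk' : k ≤ j := Nat.lt_succ_iff.1 (mem_range.1 hk)
    have := term J ν h0 h1 π hπ W (fun u => (2 / 3) ^ (lv u - k)) (fun u => by positivity) k (f k)
      (l := l * (7 / 8) ^ (j - k)) (by positivity)
    simp only [hfW] at this
    refine this.trans (add_le_add ?_ ?_)
    · have h2 : ∑ u ∈ W, ((2 / 3 : ℝ) ^ (lv u - k) + 2 ^ k * π u / (2 / 3) ^ (lv u - k)) ≤
          2 * a * (3 / 4) ^ (j - k) := by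
        rw [ha, mul_sum, sum_mul]
        refine sum_le_sum fun u hu => ?_
        obtain ⟨s, hs⟩ := Nat.exists_eq_add_of_le (hk'.trans (hW u hu))
        have h3 : lv u - k = s := by omega
        have h4 : s = lv u - j + (j - k) := by have := hW u hu; omega
        rw [h3, mul_assoc, ← pow_add, ← h4]
        have h5 : (2 / 3 : ℝ) ^ s ≤ (3 / 4) ^ s := pow_le_pow_left₀ (by norm_num) (by norm_num) s
        have h6 : 2 ^ k * π u / (2 / 3) ^ s ≤ (3 / 4) ^ s := by
          rw [div_le_iff₀ (by positivity), ← mul_pow]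
          refine (mul_le_mul_of_nonneg_left (hlv u) (by positivity)).trans (le_of_eq ?_)
          rw [hs, pow_add, ← mul_assoc, ← mul_pow]
          norm_num
        linarith
      calc _ ≤ 2 ^ #J * (2 * (2 * a * (3 / 4) ^ (j - k))) / (l * (7 / 8) ^ (j - k)) := by gcongr
        _ = _ := by
          rw [show (3 / 4 : ℝ) = 6 / 7 * (7 / 8) by norm_num, mul_pow]
          field_simp; ring
    · calc _ ≤ l * (7 / 8) ^ (j - k) / 2 * (64 * δ * (1 / 2) ^ d * S) := by
            refine mul_le_mul_of_nonneg_left ?_ (by positivity)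
            rw [hS, mul_sum]
            refine sum_le_sum fun θ hθ => ?_
            rw [mul_sum]
            exact sum_le_sum fun e he => e2 k hk' θ hθ e he
        _ = _ := by ring
  have e4 := sum_le_sum e3
  rw [sum_add_distrib, ← mul_sum, ← mul_sum] at e4
  have g1 := geo' (q := 6 / 7) (by norm_num) (by norm_num) j
  have g2 := geo' (q := 7 / 8) (by norm_num) (by norm_num) j
  calc _ = ∑ k ∈ range (j + 1), ∑ θ ∈ J.powerset, ∑ e ∈ J,
        sg θ e * E2 (ν θ) k (fun p => f k e (R φ p.1, R φ p.2)) := by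
        rw [sum_comm (s := range (j + 1))]
        refine sum_congr rfl fun θ hθ => ?_
        rw [sum_comm (s := range (j + 1))]
        exact sum_congr rfl fun e _ => by rw [e1 θ hθ, mul_sum]
    _ ≤ _ := e4
    _ ≤ 2 ^ #J * (4 * a) / l * (1 - 6 / 7)⁻¹ + l * (32 * δ * (1 / 2) ^ d) * S * (1 - 7 / 8)⁻¹ := by
        gcongr
    _ = _ := by ring

/-- The correlation bound. -/
theorem core (hx : ∀ e ∈ J, ∀ A y, 0 < y → (∀ u ∈ A, y ≤ π u) → Γ e A ≤ δ / y) {l : ℝ}
    (hl : 0 < l) :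
    ∑ θ ∈ J.powerset, ∑ e ∈ J, sg θ e * ∑ a, ν θ a * F e (φ a) ≤
      2 ^ #J * (340 * Fintype.card U / l + 6146 * l * δ ^ 2 * #J) := by
  classical
  obtain ⟨I, hI⟩ : ∃ I : ℕ, ∀ e ∈ J, F e univ ≤ 2 ^ (I + 2) * δ := by
    obtain ⟨I, hI⟩ := pow_unbounded_of_one_lt ((∑ e ∈ J, F e univ) / δ) (one_lt_two (α := ℝ))
    refine ⟨I, fun e he => ?_⟩
    rw [div_lt_iff₀ hδ0] at hI
    have := single_le_sum (f := fun e => F e univ) (fun e he => (hF e he).Fnn _) he
    have h3 : (0 : ℝ) < 2 ^ I * δ := by positivity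
    rw [pow_add]
    nlinarith
  have hπ1 : ∀ u, π u ≤ 1 := fun u => by
    rw [← mul_le_mul_iff_right₀ (show (0 : ℝ) < 2 ^ #J by positivity), ← hπ]
    calc _ ≤ ∑ θ ∈ J.powerset, (1 : ℝ) := sum_le_sum fun θ hθ => (sum_le_sum fun a _ =>
          mul_le_of_le_one_right (h0 θ hθ a) (by split_ifs <;> norm_num)).trans (h1 θ hθ).le
      _ = _ := by simp
  set lv : U → ℕ := fun u => Nat.findGreatest (fun n => π u ≤ (1 / 2) ^ n) I with hlv
  have l1 : ∀ u, π u ≤ (1 / 2) ^ lv u := fun u =>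
    Nat.findGreatest_spec (P := fun n => π u ≤ (1 / 2) ^ n) (Nat.zero_le I) (by simpa using hπ1 u)
  have l2 : ∀ u, lv u < I → (1 / 2) ^ (lv u + 1) ≤ π u := fun u hu =>
    (not_le.1 (Nat.findGreatest_is_greatest (P := fun n => π u ≤ (1 / 2) ^ n)
      (Nat.lt_succ_self _) hu)).le
  set W : ℕ → ℕ → Finset U := fun i j => univ.filter fun u => j ≤ i ∧ j ≤ lv u with hW
  have hWs : ∀ i j, W i (j + 1) ⊆ W i j := fun i j u hu => by
    simp only [hW, mem_filter, mem_univ, true_and] at hu ⊢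
    omega
  set G : ℕ → ℕ → ι → Finset U → ℝ := fun i j e A =>
    psi (2 ^ (i + 2) * δ) (F e (A ∩ W i j)) - psi (2 ^ (i + 2) * δ) (F e (A ∩ W i (j + 1))) with hG
  have e1 : ∀ e ∈ J, ∀ A, F e A = min (F e A) (4 * δ) +
      ∑ i ∈ range I, ∑ j ∈ range (i + 1), G i j e A := fun e he A => by
    conv_lhs => rw [← min_eq_left (((hF e he).Fmono (subset_univ A)).trans (hI e he)), psi_tele]
    congr 1
    refine sum_congr rfl fun i _ => ?_
    rw [sum_range_sub' fun j => psi (2 ^ (i + 2) * δ) (F e (A ∩ W i j))]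
    have a1 : W i 0 = univ := by simp [hW]
    have a2 : W i (i + 1) = ∅ := by simp [hW]
    rw [a1, a2, inter_univ, inter_empty, (hF e he).F0, psi_zero (x := 0) (by positivity) (by positivity),
      sub_zero]
  set S : ℕ → ℝ := fun i => ∑ θ ∈ J.powerset, ∑ e ∈ J,
    (∑ a, ν θ a * min (Γ e (φ a)) (2 ^ (i + 2) * δ) ^ 2) / (2 ^ (i + 2) * δ) with hS
  have hS0 : ∀ i, 0 ≤ S i := fun i => sum_nonneg fun θ hθ => sum_nonneg fun e _ =>
    div_nonneg (sum_nonneg fun a _ => mul_nonneg (h0 θ hθ a) (sq_nonneg _)) (by positivity)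
  set a : ℕ → ℝ := fun j => ∑ u with j ≤ lv u, (3 / 4 : ℝ) ^ (lv u - j) with ha
  have ha0 : ∀ j, 0 ≤ a j := fun j => sum_nonneg fun u _ => by positivity
  have e2 : ∀ i ∈ range I, ∀ j ∈ range (i + 1),
      ∑ θ ∈ J.powerset, ∑ e ∈ J, sg θ e * ∑ a, ν θ a * G i j e (φ a) ≤
      2 ^ #J * 28 / l * (a j * (2 / 3) ^ (i - j)) + l * (256 * δ) * S i * (3 / 4) ^ (i - j) :=
    fun i hi j hj => by
    have hji : j ≤ i := Nat.lt_succ_iff.1 (mem_range.1 hj)
    have := piece J ν h0 h1 π hπ hF hδ0 hδ hji (W i j) lv (fun u hu => (mem_filter.1 hu).2.2) l1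
      (G := G i j) (fun e he => (hF e he).pc (hWs i j) (by positivity) (by
        rcases hji.lt_or_eq with c | rfl
        · refine Or.inr ((hx e he _ ((1 / 2) ^ (j + 1)) (by positivity) fun u hu => ?_).trans ?_)
          · simp only [hW, mem_sdiff, mem_filter, mem_univ, true_and] at hu
            have h3 : lv u = j := by omega
            have h4 := mem_range.1 hi
            exact h3 ▸ l2 u (by omega)
          · rw [one_div, inv_pow, div_inv_eq_mul, pow_succ _ (j + 1)]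
            have : 0 < δ * 2 ^ (j + 1) := by positivity
            nlinarith
        · exact Or.inl le_rfl))
      (fun e A => by
        simp only [hG, inter_assoc, inter_self, inter_eq_right.2 (hWs i j)])
      (l := l * (3 / 2) ^ (i - j)) (by positivity)
    refine this.trans (le_of_eq ?_)
    have a1 : ∑ u ∈ W i j, (3 / 4 : ℝ) ^ (lv u - j) = a j := by simp only [hW, ha, hji, true_and]
    rw [a1, show (3 / 4 : ℝ) = 3 / 2 * (1 / 2) by norm_num, mul_pow,
      show (2 / 3 : ℝ) = (3 / 2)⁻¹ by norm_num, inv_pow]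
    simp only [hS]
    field_simp
  have e3 : ∑ j ∈ range I, a j ≤ 4 * Fintype.card U := by
    simp only [ha, sum_filter]
    rw [sum_comm]
    calc _ ≤ ∑ u : U, (1 - 3 / 4 : ℝ)⁻¹ := sum_le_sum fun u _ => by
          refine le_trans ?_ (geo' (by norm_num) (by norm_num) (lv u))
          rw [← sum_filter]
          exact sum_le_sum_of_subset_of_nonneg
            (fun j hj => mem_range.2 (Nat.lt_succ_iff.2 (mem_filter.1 hj).2))
            fun j _ _ => by positivity
      _ = _ := by simp only [sum_const, card_univ, nsmul_eq_mul]; ring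
  have e4 : ∑ i ∈ range I, S i ≤ 2 ^ #J * (6 * δ * #J) := by
    simp only [hS]
    rw [sum_comm]
    calc _ ≤ ∑ θ ∈ J.powerset, ∑ e ∈ J, 6 * δ := sum_le_sum fun θ hθ => by
          rw [sum_comm]
          refine sum_le_sum fun e he => ?_
          simp only [sum_div, mul_div_assoc]
          rw [sum_comm]
          refine le_trans ?_ (mul_le_mul_of_nonneg_left (hδ θ hθ e he) (by norm_num))
          rw [mul_sum]
          refine sum_le_sum fun a _ => ?_
          rw [← mul_sum, mul_left_comm]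
          exact mul_le_mul_of_nonneg_left (pot ((hF e he).Gnn _) hδ0 I) (h0 θ hθ a)
      _ = _ := by simp; ring
  have e5 : ∑ θ ∈ J.powerset, ∑ e ∈ J, sg θ e * ∑ a, ν θ a * min (F e (φ a)) (4 * δ) ≤
      2 ^ #J * (4 * Fintype.card U / l + 2 * l * δ ^ 2 * #J) := by
    have := term J ν h0 h1 π hπ univ (fun _ => 1) (fun _ => one_pos) 0
      (fun e z => min (F e z.1) (4 * δ)) hl
    simp only [inter_univ] at this
    calc _ = _ := sum_congr rfl fun θ hθ => sum_congr rfl fun e _ => by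
          rw [E2_fst (h0 θ hθ) (h1 θ hθ) 0 fun x => min (F e (R φ x)) (4 * δ), Ex_zero]
          simp only [R_single]
      _ ≤ _ := this
      _ ≤ 2 ^ #J * (2 * ∑ u : U, (2 : ℝ)) / l +
          l / 2 * ∑ θ ∈ J.powerset, ∑ e ∈ J, 4 * δ * δ := by
          gcongr with u _ θ hθ e he
          · linarith [hπ1 u]
          · rw [E2_fst (h0 θ hθ) (h1 θ hθ) 0 fun x => min (F e (R φ x)) (4 * δ) ^ 2, Ex_zero]
            refine le_trans ?_ (mul_le_mul_of_nonneg_left (hδ θ hθ e he) (by positivity))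
            rw [mul_sum]
            refine sum_le_sum fun a _ => ?_
            rw [R_single, mul_left_comm, sq]
            exact mul_le_mul_of_nonneg_left (mul_le_mul (min_le_right _ _)
              ((min_le_left _ _).trans ((hF e he).FleG _))
              (le_min ((hF e he).Fnn _) (by positivity)) (by positivity)) (h0 θ hθ a)
      _ = _ := by simp; ring
  have e6 : ∑ i ∈ range I, ∑ j ∈ range (i + 1),
      ∑ θ ∈ J.powerset, ∑ e ∈ J, sg θ e * ∑ a, ν θ a * G i j e (φ a) ≤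
      2 ^ #J * 28 / l * (4 * Fintype.card U * (1 - 2 / 3)⁻¹) +
        l * (256 * δ) * (2 ^ #J * (6 * δ * #J)) * (1 - 3 / 4)⁻¹ := by
    refine (sum_le_sum fun i hi => sum_le_sum (e2 i hi)).trans ?_
    simp only [sum_add_distrib, ← mul_sum]
    refine add_le_add (mul_le_mul_of_nonneg_left ((geo_diag (by norm_num) (by norm_num) I ha0).trans
      (mul_le_mul_of_nonneg_right e3 (by norm_num))) (by positivity)) ?_
    calc _ ≤ ∑ i ∈ range I, l * (256 * δ) * S i * (1 - 3 / 4)⁻¹ := sum_le_sum fun i _ =>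
          mul_le_mul_of_nonneg_left (geo' (by norm_num) (by norm_num) i)
            (mul_nonneg (by positivity) (hS0 i))
      _ ≤ _ := by
          rw [← sum_mul, ← mul_sum]
          gcongr
  calc _ = ∑ θ ∈ J.powerset, ∑ e ∈ J, sg θ e * ∑ a, ν θ a * min (F e (φ a)) (4 * δ) +
        ∑ i ∈ range I, ∑ j ∈ range (i + 1),
          ∑ θ ∈ J.powerset, ∑ e ∈ J, sg θ e * ∑ a, ν θ a * G i j e (φ a) := by
        simp only [sum_comm (t := J.powerset) (s := range _), sum_comm (t := J) (s := range _),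
          ← sum_add_distrib, ← mul_sum, ← mul_add, sum_comm (t := (univ : Finset α)) (s := range _)]
        exact sum_congr rfl fun θ _ => sum_congr rfl fun e he => by simp only [← e1 e he]
    _ ≤ _ := add_le_add e5 e6
    _ = _ := by ring

end core

end Pool.Agent.Lib.MP_348529_lc.X
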