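import Mathlib

/-!
Expectations over batches of `2 ^ k` independent samples, and the change of measure inequality.
-/

namespace Pool.Agent.Lib.MP_348529_lc.X

open Finset

variable {α : Type} [Fintype α]

/-- Expectation of a function of a batch of `2 ^ k` independent samples with law `ν`. -/
noncomputable def Ex (ν : α → ℝ) : ℕ → (Multiset α → ℝ) →ₗ[ℝ] ℝ
  | 0 => ∑ a, ν a • LinearMap.proj ({a} : Multiset α)
  | k + 1 => (Ex ν k).comp (LinearMap.pi fun x =>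
      (Ex ν k).comp (LinearMap.funLeft ℝ ℝ fun y => x + y))

variable {ν : α → ℝ}

lemma Ex_zero (f : Multiset α → ℝ) : Ex ν 0 f = ∑ a, ν a * f {a} := by
  simp [Ex, LinearMap.sum_apply]

lemma Ex_succ (k : ℕ) (f : Multiset α → ℝ) :
    Ex ν (k + 1) f = Ex ν k fun x => Ex ν k fun y => f (x + y) := rfl

/-- A positive normalised functional. -/
structure Pr {Ω : Type} (P : (Ω → ℝ) →ₗ[ℝ] ℝ) : Prop where
  mono : ∀ {f g : Ω → ℝ}, (∀ x, f x ≤ g x) → P f ≤ P g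
  one : P (fun _ => 1) = 1

namespace Pr

variable {Ω : Type} {P : (Ω → ℝ) →ₗ[ℝ] ℝ}

lemma add (P : (Ω → ℝ) →ₗ[ℝ] ℝ) (f g : Ω → ℝ) : P (fun x => f x + g x) = P f + P g :=
  P.map_add f g

lemma sub (P : (Ω → ℝ) →ₗ[ℝ] ℝ) (f g : Ω → ℝ) : P (fun x => f x - g x) = P f - P g :=
  P.map_sub f g

lemma mul (P : (Ω → ℝ) →ₗ[ℝ] ℝ) (c : ℝ) (f : Ω → ℝ) : P (fun x => c * f x) = c * P f :=
  P.map_smul c f

lemma mul' (P : (Ω → ℝ) →ₗ[ℝ] ℝ) (c : ℝ) (f : Ω → ℝ) : P (fun x => f x * c) = P f * c := by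
  simp only [mul_comm _ c]; exact mul P c f

lemma sum {β : Type} (P : (Ω → ℝ) →ₗ[ℝ] ℝ) (s : Finset β) (f : β → Ω → ℝ) :
    P (fun x => ∑ b ∈ s, f b x) = ∑ b ∈ s, P (f b) := by
  rw [← map_sum]; congr 1; ext x; simp

lemma const (h : Pr P) (c : ℝ) : P (fun _ => c) = c := by
  have := mul P c fun _ => 1
  simpa [h.one] using this

lemma nonneg (h : Pr P) {f : Ω → ℝ} (hf : ∀ x, 0 ≤ f x) : 0 ≤ P f := by
  have := h.mono (f := fun _ => 0) hf
  rwa [h.const] at this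

end Pr

lemma pr_Ex (h0 : ∀ a, 0 ≤ ν a) (h1 : ∑ a, ν a = 1) (k : ℕ) : Pr (Ex ν k) := by
  induction k with
  | zero =>
    refine ⟨fun h => ?_, by simp [Ex_zero, h1]⟩
    rw [Ex_zero, Ex_zero]
    exact sum_le_sum fun a _ => mul_le_mul_of_nonneg_left (h _) (h0 a)
  | succ k ih =>
    refine ⟨fun h => ?_, by rw [Ex_succ]; simp only [ih.one]⟩
    rw [Ex_succ, Ex_succ]
    exact ih.mono fun x => ih.mono fun y => h _

/-- Two independent batches. -/
noncomputable def E2 (ν : α → ℝ) (k : ℕ) : (Multiset α × Multiset α → ℝ) →ₗ[ℝ] ℝ :=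
  (Ex ν k).comp (LinearMap.pi fun x => (Ex ν k).comp (LinearMap.funLeft ℝ ℝ fun y => (x, y)))

lemma E2_apply (k : ℕ) (f : Multiset α × Multiset α → ℝ) :
    E2 ν k f = Ex ν k fun x => Ex ν k fun y => f (x, y) := rfl

section

variable (h0 : ∀ a, 0 ≤ ν a) (h1 : ∑ a, ν a = 1)

include h0 h1

lemma pr_E2 (k : ℕ) : Pr (E2 ν k) := by
  have ih := pr_Ex h0 h1 k
  refine ⟨fun h => ?_, by rw [E2_apply]; simp only [ih.one]⟩
  rw [E2_apply, E2_apply]
  exact ih.mono fun x => ih.mono fun y => h _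

omit h0 h1 in
lemma E2_mul (k : ℕ) (f g : Multiset α → ℝ) :
    E2 ν k (fun p => f p.1 * g p.2) = Ex ν k f * Ex ν k g := by
  rw [E2_apply]
  simp only [Pr.mul, Pr.mul']

lemma E2_fst (k : ℕ) (f : Multiset α → ℝ) : E2 ν k (fun p => f p.1) = Ex ν k f := by
  rw [E2_apply]
  simp only [(pr_Ex h0 h1 k).const]

lemma E2_snd (k : ℕ) (f : Multiset α → ℝ) : E2 ν k (fun p => f p.2) = Ex ν k f := by
  rw [E2_apply]
  simp only [(pr_Ex h0 h1 k).const]

omit h0 h1 in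
lemma E2_add (k : ℕ) (f : Multiset α → ℝ) :
    E2 ν k (fun p => f (p.1 + p.2)) = Ex ν (k + 1) f := rfl

lemma Ex_subadd {f : Multiset α → ℝ} (hf : ∀ x y, f (x + y) ≤ f x + f y) (k : ℕ) :
    Ex ν k f ≤ 2 ^ k * Ex ν 0 f := by
  induction k with
  | zero => simp
  | succ k ih =>
    rw [← E2_add]
    refine ((pr_E2 h0 h1 k).mono (g := fun p => f p.1 + f p.2) fun p => hf _ _).trans ?_
    rw [Pr.add, E2_fst h0 h1, E2_snd h0 h1, pow_succ]
    linarith

lemma Ex_var (Y : α → ℝ) (k : ℕ) :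
    Ex ν k (fun x => (x.map Y).sum - 2 ^ k * ∑ a, ν a * Y a) = 0 ∧
    Ex ν k (fun x => ((x.map Y).sum - 2 ^ k * ∑ a, ν a * Y a) ^ 2) ≤
      2 ^ k * ∑ a, ν a * Y a ^ 2 := by
  set μ := ∑ a, ν a * Y a with hμ
  induction k with
  | zero =>
    have e1 : Ex ν 0 (fun x => (x.map Y).sum) = μ := by simp [Ex_zero, hμ]
    have e2 : Ex ν 0 (fun x => (x.map Y).sum ^ 2) = ∑ a, ν a * Y a ^ 2 := by simp [Ex_zero]
    have hp := pr_Ex h0 h1 0
    refine ⟨by rw [Pr.sub, e1, hp.const]; ring, ?_⟩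
    have e3 : (fun x : Multiset α => ((x.map Y).sum - 2 ^ 0 * μ) ^ 2) =
        fun x => (x.map Y).sum ^ 2 - 2 * μ * (x.map Y).sum + μ ^ 2 := by
      ext x; ring
    rw [e3, Pr.add, Pr.sub, Pr.mul, e1, e2, hp.const]
    nlinarith [sq_nonneg μ]
  | succ k ih =>
    set Z : Multiset α → ℝ := fun x => (x.map Y).sum - 2 ^ k * μ with hZ
    have e : ∀ p : Multiset α × Multiset α,
        ((p.1 + p.2).map Y).sum - 2 ^ (k + 1) * μ = Z p.1 + Z p.2 := fun p => by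
      simp only [hZ, Multiset.map_add, Multiset.sum_add]; ring
    constructor
    · rw [← E2_add]
      simp only [e]
      rw [Pr.add, E2_fst h0 h1, E2_snd h0 h1, ih.1, add_zero]
    · rw [← E2_add]
      simp only [e]
      have e3 : (fun p : Multiset α × Multiset α => (Z p.1 + Z p.2) ^ 2) =
          fun p => Z p.1 ^ 2 + Z p.2 ^ 2 + 2 * (Z p.1 * Z p.2) := by
        ext p; ring
      rw [e3, Pr.add, Pr.add, Pr.mul, E2_mul, E2_fst h0 h1 k fun x => Z x ^ 2,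
        E2_snd h0 h1 k fun x => Z x ^ 2, ih.1, pow_succ]
      linarith [ih.2]

/-- Telescoping in the size of the batch. -/
lemma Ex_tele (G : Multiset α → ℝ) (j : ℕ) :
    Ex ν 0 G = ∑ k ∈ range j,
      E2 ν k (fun p => (G p.1 + G p.2 - G (p.1 + p.2)) / 2 ^ (k + 1)) + Ex ν j G / 2 ^ j := by
  induction j with
  | zero => simp
  | succ j ih =>
    rw [sum_range_succ, ih]
    have e : E2 ν j (fun p => (G p.1 + G p.2 - G (p.1 + p.2)) / 2 ^ (j + 1)) =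
        (Ex ν j G + Ex ν j G - Ex ν (j + 1) G) / 2 ^ (j + 1) := by
      simp only [div_eq_mul_inv]
      rw [Pr.mul', Pr.sub, Pr.add, E2_fst h0 h1, E2_snd h0 h1, E2_add]
    rw [e]
    field_simp
    ring

end

/-- The sign vector of a subset. -/
def sg {ι : Type} [DecidableEq ι] (θ : Finset ι) (e : ι) : ℝ := if e ∈ θ then 1 else -1

lemma sum_exp_sg {ι : Type} [DecidableEq ι] (J : Finset ι) (f : ι → ℝ) :
    ∑ θ ∈ J.powerset, Real.exp (∑ e ∈ J, sg θ e * f e) ≤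
      2 ^ #J * Real.exp (∑ e ∈ J, f e ^ 2 / 2) := by
  have e1 : ∑ θ ∈ J.powerset, Real.exp (∑ e ∈ J, sg θ e * f e) =
      ∏ e ∈ J, (Real.exp (f e) + Real.exp (-f e)) := by
    rw [prod_add]
    refine sum_congr rfl fun θ hθ => ?_
    rw [← sum_sdiff (mem_powerset.1 hθ), Real.exp_add, Real.exp_sum, Real.exp_sum, mul_comm]
    congr 1
    · exact prod_congr rfl fun e he => by simp [sg, he]
    · exact prod_congr rfl fun e he => by simp [sg, (mem_sdiff.1 he).2]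
  rw [e1, Real.exp_sum, ← prod_const, ← prod_mul_distrib]
  refine prod_le_prod (fun e _ => by positivity) fun e _ => ?_
  have := Real.cosh_le_exp_half_sq (f e)
  rw [Real.cosh_eq] at this
  linarith

/-- Change of measure: a message `ζ` with code weights `w` carries little information on `θ`. -/
lemma info {ι Ω Z : Type} [DecidableEq ι] [Fintype Z] (J : Finset ι)
    (P : Finset ι → (Ω → ℝ) →ₗ[ℝ] ℝ) (hP : ∀ θ ∈ J.powerset, Pr (P θ)) (ζ : Ω → Z) (w : Z → ℝ)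
    (hw : ∀ z, 0 ≤ w z) (hw' : ∀ x, 0 < w (ζ x)) {L : ℝ} (hL : ∑ z, w z ≤ Real.exp L)
    (f : ι → Z → ℝ) :
    ∑ θ ∈ J.powerset, P θ (fun x => ∑ e ∈ J, sg θ e * f e (ζ x)) ≤
      2 ^ #J * L + ∑ θ ∈ J.powerset, P θ (fun x => -Real.log (w (ζ x))) +
        ∑ θ ∈ J.powerset, P θ (fun x => ∑ e ∈ J, f e (ζ x) ^ 2 / 2) := by
  set A : Finset ι → Z → ℝ := fun θ z =>
    w z * Real.exp (∑ e ∈ J, sg θ e * f e z - ∑ e ∈ J, f e z ^ 2 / 2 - L) with hA
  have hA0 : ∀ θ z, 0 ≤ A θ z := fun θ z => mul_nonneg (hw z) (Real.exp_pos _).le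
  have h1 : ∀ θ ∈ J.powerset, P θ (fun x => ∑ e ∈ J, sg θ e * f e (ζ x)) ≤
      (L - 1 + ∑ z, A θ z) + P θ (fun x => -Real.log (w (ζ x))) +
        P θ (fun x => ∑ e ∈ J, f e (ζ x) ^ 2 / 2) := fun θ hθ => by
    rw [← (hP θ hθ).const (L - 1 + ∑ z, A θ z), ← Pr.add, ← Pr.add]
    refine (hP θ hθ).mono fun x => ?_
    have h2 : A θ (ζ x) ≤ ∑ z, A θ z := single_le_sum (fun z _ => hA0 θ z) (mem_univ _)
    have h3 := Real.add_one_le_exp (Real.log (w (ζ x)) +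
      (∑ e ∈ J, sg θ e * f e (ζ x) - ∑ e ∈ J, f e (ζ x) ^ 2 / 2 - L))
    rw [Real.exp_add, Real.exp_log (hw' x)] at h3
    simp only [hA] at h2
    linarith
  refine (sum_le_sum h1).trans ?_
  rw [sum_add_distrib, sum_add_distrib, sum_add_distrib, sum_const, card_powerset, sum_comm]
  have h2 : ∑ z, ∑ θ ∈ J.powerset, A θ z ≤ ∑ z, w z * (2 ^ #J * Real.exp (-L)) := by
    refine sum_le_sum fun z _ => ?_
    simp only [hA]
    rw [← mul_sum]
    refine mul_le_mul_of_nonneg_left ?_ (hw z)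
    simp only [sub_eq_add_neg, Real.exp_add, ← sum_mul]
    refine mul_le_mul_of_nonneg_right ?_ (Real.exp_pos _).le
    rw [Real.exp_neg, ← div_eq_mul_inv, div_le_iff₀ (Real.exp_pos _)]
    exact sum_exp_sg J fun e => f e z
  rw [← sum_mul] at h2
  have h3 : (∑ z, w z) * (2 ^ #J * Real.exp (-L)) ≤ Real.exp L * (2 ^ #J * Real.exp (-L)) :=
    mul_le_mul_of_nonneg_right hL (by positivity)
  have h4 : Real.exp L * (2 ^ #J * Real.exp (-L)) = 2 ^ #J := by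
    rw [Real.exp_neg]; field_simp
  simp only [nsmul_eq_mul, Nat.cast_pow, Nat.cast_ofNat]
  linarith

end Pool.Agent.Lib.MP_348529_lc.X
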