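import Pool.Agent.Lib.MP_348529_lc.XClass

/-!
Examples of splitting functions that are represented by gadgets: monotone submodular functions,
directed hyperedges, cardinality based functions, minimum cuts of digraphs with auxiliary nodes
(all with `K = 1`), and arbitrary submodular functions on `r` vertices (with `K = r + 1`).
-/

namespace Pool.Agent.Lib.MP_348529_lc.X

open Finset

variable {V : Type} [Fintype V] [DecidableEq V]

/-- The hypothesis of the hand-in `NetworkQuadratic` on one hyperedge. -/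
def Rep (e : Finset V) (g : Finset V → ℝ) (K : ℝ) : Prop :=
  ∃ (k : ℕ) (m₀ : Finset (V ⊕ Fin k) → ℝ) (m m' : V ⊕ Fin k → Finset (V ⊕ Fin k) → ℝ),
    MonoSub m₀ ∧ (∀ b, MonoSub (m b)) ∧ (∀ a, MonoSub (m' a)) ∧
    ∀ S ⊆ e, (∃ T : Finset (Fin k), cost m₀ m m' (S.disjSum T) ≤ g S) ∧
      ∀ T : Finset (Fin k), g S ≤ K * cost m₀ m m' (S.disjSum T)

lemma monoSub_zero {W : Type} [DecidableEq W] : MonoSub fun _ : Finset W => (0 : ℝ) := by
  simp [MonoSub]

lemma monoSub_sum {W : Type} [DecidableEq W] {w : W → ℝ} (hw : ∀ x, 0 ≤ w x) :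
    MonoSub fun X : Finset W => ∑ x ∈ X, w x :=
  ⟨by simp, fun _ _ h => sum_le_sum_of_subset_of_nonneg h fun x _ _ => hw x,
    fun _ _ => sum_union_inter.le⟩

omit [Fintype V] in
lemma MonoSub.left {m : Finset V → ℝ} (h : MonoSub m) {A : Type} [DecidableEq A] :
    MonoSub fun X : Finset (V ⊕ A) => m X.toLeft :=
  ⟨h.1, fun _ _ hST => h.2.1 _ _ (toLeft_subset_toLeft hST), fun S T => by
    simpa [toLeft_union, toLeft_inter] using h.2.2 S.toLeft T.toLeft⟩

/-- Minimum cuts of a digraph with auxiliary nodes and a sink. -/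
theorem rep_digraph {e : Finset V} {g : Finset V → ℝ} {k : ℕ} (w : V ⊕ Fin k → V ⊕ Fin k → ℝ)
    (c : V ⊕ Fin k → ℝ) (hw : ∀ x y, 0 ≤ w x y) (hc : ∀ x, 0 ≤ c x)
    (h : ∀ S ⊆ e, IsLeast (Set.range fun T : Finset (Fin k) =>
      ∑ x ∈ S.disjSum T, c x + ∑ y ∈ (S.disjSum T)ᶜ, ∑ x ∈ S.disjSum T, w x y) (g S)) :
    Rep e g 1 :=
  ⟨k, _, _, fun _ _ => 0, monoSub_sum hc, fun y => monoSub_sum fun x => hw x y,
    fun _ => monoSub_zero, fun S hS => ⟨let ⟨T, hT⟩ := (h S hS).1; ⟨T, by simpa [cost] using hT.le⟩,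
      fun T => by simpa [cost] using (h S hS).2 ⟨T, rfl⟩⟩⟩

theorem rep_min {e : Finset V} {g m₁ m₂ : Finset V → ℝ} (h₁ : MonoSub m₁) (h₂ : MonoSub m₂) {c : ℝ}
    (hc : 0 ≤ c) (h : ∀ S ⊆ e, g S = min (m₁ S) (c + m₂ Sᶜ)) : Rep e g 1 := by
  refine ⟨1, fun X => ∑ x ∈ X, Sum.elim (fun _ => 0) (fun _ => c) x,
    Sum.elim (fun _ _ => 0) fun _ X => m₁ X.toLeft, Sum.elim (fun _ _ => 0) fun _ X => m₂ X.toLeft,
    monoSub_sum (by simp [hc]), ?_, ?_, fun S hS => ?_⟩
  · rintro (b | b)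
    exacts [monoSub_zero, h₁.left]
  · rintro (b | b)
    exacts [monoSub_zero, h₂.left]
  have e1 : ∀ T : Finset (Fin 1), (S.disjSum T)ᶜ = Sᶜ.disjSum Tᶜ := fun T => by
    ext (x | x) <;> simp
  have e2 : ∀ T : Finset (Fin 1), T = ∅ ∨ T = univ := by decide
  rw [h S hS]
  refine ⟨?_, fun T => ?_⟩
  · rcases le_total (m₁ S) (c + m₂ Sᶜ) with h' | h'
    · exact ⟨∅, by simp [cost, e1, sum_disjSum, h', -disjSum_empty]⟩
    · exact ⟨univ, by simp [cost, e1, sum_disjSum, h']⟩
  · rcases e2 T with rfl | rfl <;> simp [cost, e1, sum_disjSum, -disjSum_empty]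

/-- Monotone submodular splitting functions. -/
theorem rep_mono {e : Finset V} {g : Finset V → ℝ} (h : MonoSub fun S => g (S ∩ e)) : Rep e g 1 :=
  rep_min h monoSub_zero (h.nn univ) fun S hS => by
    have := h.2.1 S univ (subset_univ _)
    simp only [inter_eq_left.2 hS] at this ⊢
    rw [add_zero, min_eq_left this]

omit [Fintype V] in
lemma monoSub_hit (A : Finset V) : MonoSub fun S => if (S ∩ A).Nonempty then (1 : ℝ) else 0 := by
  refine ⟨by simp, fun S T h => ?_, fun S T => ?_⟩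
  · have := Nonempty.mono (inter_subset_inter_right h : S ∩ A ⊆ T ∩ A)
    dsimp only
    split_ifs <;> simp_all
  · have h1 := Nonempty.mono (inter_subset_inter_right inter_subset_left : S ∩ T ∩ A ⊆ S ∩ A)
    have h2 := Nonempty.mono (inter_subset_inter_right inter_subset_right : S ∩ T ∩ A ⊆ T ∩ A)
    simp only [union_inter_distrib_right, union_nonempty]
    split_ifs <;> simp_all

/-- Directed hyperedges with tail `A` and head `B`. -/
theorem rep_directed (e A B : Finset V) :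
    Rep e (fun S => if (S ∩ A).Nonempty ∧ (Sᶜ ∩ B).Nonempty then 1 else 0) 1 :=
  rep_min (monoSub_hit A) (monoSub_hit B) le_rfl fun S _ => by
    split_ifs <;> simp_all

omit [Fintype V] in
lemma monoSub_card (e : Finset V) {a : ℕ → ℝ} (h0 : ∀ i, 0 ≤ a i)
    (h : ∀ i j, i ≤ j → j < #e → a j ≤ a i) : MonoSub fun S => ∑ i ∈ range #(S ∩ e), a i := by
  refine ⟨by simp, fun S T hST => sum_le_sum_of_subset_of_nonneg
    (range_subset_range.2 (card_le_card (inter_subset_inter_right hST))) fun i _ _ => h0 i,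
    fun S T => ?_⟩
  have h1 := card_union_add_card_inter (S ∩ e) (T ∩ e)
  rw [← union_inter_distrib_right, ← inter_inter_distrib_right] at h1
  have h2 : #((S ∪ T) ∩ e) ≤ #e := card_le_card inter_subset_right
  have h3 : #(S ∩ T ∩ e) ≤ #(S ∩ e) := card_le_card (inter_subset_inter_right inter_subset_left)
  obtain ⟨t, ht⟩ := Nat.exists_eq_add_of_le
    (card_le_card (inter_subset_inter_right inter_subset_right) : #(S ∩ T ∩ e) ≤ #(T ∩ e))
  have h4 : #((S ∪ T) ∩ e) = #(S ∩ e) + t := by omega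
  dsimp only
  rw [h4, ht, sum_range_add, sum_range_add]
  have := sum_le_sum fun i (hi : i ∈ range t) =>
    h (#(S ∩ T ∩ e) + i) (#(S ∩ e) + i) (by omega) (by have := mem_range.1 hi; omega)
  linarith

/-- Cardinality based splitting functions. -/
theorem rep_card (e : Finset V) {f : ℕ → ℝ} (f0 : f 0 = 0) (f1 : 0 ≤ f #e)
    (f2 : ∀ i j, i ≤ j → j < #e → f (j + 1) - f j ≤ f (i + 1) - f i) :
    Rep e (fun S => f #S) 1 := by
  refine rep_min (monoSub_card e (a := fun i => max (f (i + 1) - f i) 0) (fun i => le_max_right _ _)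
    fun i j hij hj => max_le_max (f2 i j hij hj) le_rfl)
    (monoSub_card e (a := fun i => max (f (#e - 1 - i) - f (#e - 1 - i + 1)) 0)
      (fun i => le_max_right _ _) fun i j hij hj => max_le_max (by
        linarith [f2 (#e - 1 - j) (#e - 1 - i) (by omega) (by omega)]) le_rfl) f1 fun S hS => ?_
  obtain ⟨t, ht⟩ := Nat.exists_eq_add_of_le (card_le_card hS)
  have e1 : #(Sᶜ ∩ e) = t := by
    rw [inter_comm, ← sdiff_eq_inter_compl, card_sdiff_of_subset hS]; omega
  have e2 : f #S = ∑ i ∈ range #S, (f (i + 1) - f i) := by rw [sum_range_sub, f0, sub_zero]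
  have e3 : f #S = f #e + ∑ i ∈ range t, (f (#e - 1 - i) - f (#e - 1 - i + 1)) := by
    rw [sum_congr rfl fun i hi => show _ = f (#e - (i + 1)) - f (#e - i) by
      have := mem_range.1 hi
      congr 2 <;> omega, sum_range_sub fun i => f (#e - i)]
    simp [ht]
  rw [inter_eq_left.2 hS, e1]
  refine le_antisymm (le_min (e2.trans_le (sum_le_sum fun i _ => le_max_left _ _))
    (e3.trans_le (add_le_add le_rfl (sum_le_sum fun i _ => le_max_left _ _)))) ?_
  by_cases c : ∀ i < #S, 0 ≤ f (i + 1) - f i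
  · exact min_le_of_left_le (e2.trans (sum_congr rfl fun i hi =>
      (max_eq_left (c i (mem_range.1 hi))).symm)).ge
  · push Not at c
    obtain ⟨j, hj, hj'⟩ := c
    refine min_le_of_right_le (e3.trans ?_).ge
    congr 1
    refine sum_congr rfl fun i hi => (max_eq_left ?_).symm
    have := mem_range.1 hi
    linarith [f2 j (#e - 1 - i) (by omega) (by omega)]

/-- The monotone closure inside `e`. -/
noncomputable def clo (g : Finset V → ℝ) (e S : Finset V) : ℝ :=
  (e.powerset.filter fun Y => S ∩ e ⊆ Y).inf' ⟨e, by simp⟩ g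

omit [Fintype V] in
lemma clo_le (g : Finset V → ℝ) {e S Y : Finset V} (h : Y ⊆ e) (h' : S ∩ e ⊆ Y) : clo g e S ≤ g Y :=
  inf'_le _ (mem_filter.2 ⟨mem_powerset.2 h, h'⟩)

omit [Fintype V] in
lemma clo_ex (g : Finset V → ℝ) (e S : Finset V) : ∃ Y ⊆ e, S ∩ e ⊆ Y ∧ clo g e S = g Y := by
  obtain ⟨Y, hY, h⟩ := exists_mem_eq_inf' (s := e.powerset.filter fun Y => S ∩ e ⊆ Y) ⟨e, by simp⟩ g
  exact ⟨Y, mem_powerset.1 (mem_filter.1 hY).1, (mem_filter.1 hY).2, h⟩

/-- Arbitrary submodular splitting functions. -/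
theorem rep_arity {e : Finset V} {g : Finset V → ℝ} (g0 : g ∅ = 0) (g1 : ∀ S ⊆ e, 0 ≤ g S)
    (g2 : ∀ S ⊆ e, ∀ T ⊆ e, g (S ∪ T) + g (S ∩ T) ≤ g S + g T) : Rep e g (#e + 1) := by
  have hK : (0 : ℝ) < #e + 1 := by positivity
  have hm : ∀ e' ⊆ e, MonoSub fun S => clo g e' S / (#e + 1) := fun e' he => by
    refine ⟨?_, fun S T h => ?_, fun S T => ?_⟩
    · obtain ⟨Y, h1, -, h3⟩ := clo_ex g e' ∅
      have := clo_le g (e := e') (S := ∅) (empty_subset _) (by simp)
      have : clo g e' ∅ = 0 := le_antisymm (g0 ▸ this) (h3 ▸ g1 Y (h1.trans he))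
      simp [this]
    · obtain ⟨Y, h1, h2, h3⟩ := clo_ex g e' T
      exact div_le_div_of_nonneg_right (h3 ▸ clo_le g h1 ((inter_subset_inter_right h).trans h2)) hK.le
    · obtain ⟨Y, h1, h2, h3⟩ := clo_ex g e' S
      obtain ⟨Z, h4, h5, h6⟩ := clo_ex g e' T
      have a1 := clo_le g (S := S ∪ T) (union_subset h1 h4)
        (by rw [union_inter_distrib_right]; exact union_subset_union h2 h5)
      have a2 := clo_le g (S := S ∩ T) (inter_subset_left.trans h1 : Y ∩ Z ⊆ e')
        (by rw [inter_inter_distrib_right]; exact inter_subset_inter h2 h5)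
      simp only [← add_div]
      exact div_le_div_of_nonneg_right (by linarith [g2 Y (h1.trans he) Z (h4.trans he)]) hK.le
  refine ⟨0, fun X => clo g e X.toLeft / (#e + 1), Sum.elim
    (fun b X => if b ∈ e then clo g (e.erase b) X.toLeft / (#e + 1) else 0) fun _ _ => 0,
    fun _ _ => 0, (hm e subset_rfl).left, ?_, fun _ => monoSub_zero, fun S hS => ?_⟩
  · rintro (b | b)
    · by_cases c : b ∈ e
      · simpa only [Sum.elim_inl, if_pos c] using (hm _ (erase_subset b e)).left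
      · simpa only [Sum.elim_inl, if_neg c] using monoSub_zero
    · exact monoSub_zero
  have e1 : ∀ T : Finset (Fin 0), (S.disjSum T)ᶜ = Sᶜ.disjSum Tᶜ := fun T => by
    ext (x | x) <;> simp
  have e2 : Sᶜ ∩ e = e \ S := by rw [inter_comm, sdiff_eq_inter_compl]
  simp only [cost, e1, sum_disjSum, Sum.elim_inl, Sum.elim_inr, toLeft_disjSum, sum_const_zero,
    add_zero, sum_ite_mem, e2, ← sum_div, ← add_div, exists_const, forall_const,
    mul_div_cancel₀ _ hK.ne', div_le_iff₀ hK]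
  constructor
  · have a1 := clo_le g (S := S) hS inter_subset_left
    have a2 := sum_le_card_nsmul (e \ S) (fun b => clo g (e.erase b) S) (g S) fun b hb =>
      clo_le g (subset_erase.2 ⟨hS, (mem_sdiff.1 hb).2⟩) inter_subset_left
    have a3 : (#(e \ S) : ℝ) ≤ #e := by exact_mod_cast card_le_card sdiff_subset
    rw [nsmul_eq_mul] at a2
    nlinarith [g1 S hS]
  · have key : ∀ B ⊆ e \ S, ∃ Y, S ⊆ Y ∧ Y ⊆ e \ B ∧
        g Y ≤ clo g e S + ∑ b ∈ B, clo g (e.erase b) S := fun B => by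
      induction B using Finset.induction_on with
      | empty =>
        obtain ⟨Y, h1, h2, h3⟩ := clo_ex g e S
        exact fun _ => ⟨Y, inter_eq_left.2 hS ▸ h2, by simpa using h1, by simp [h3]⟩
      | insert b B hb ih =>
        intro hB
        obtain ⟨Y, h1, h2, h3⟩ := ih ((subset_insert _ _).trans hB)
        obtain ⟨Z, h4, h5, h6⟩ := clo_ex g (e.erase b) S
        have h7 := mem_sdiff.1 (hB (mem_insert_self _ _))
        have h8 := h2.trans sdiff_subset
        have h9 := h4.trans (erase_subset _ _)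
        rw [inter_eq_left.2 (subset_erase.2 ⟨hS, h7.2⟩)] at h5
        refine ⟨Y ∩ Z, subset_inter h1 h5, fun x hx => ?_, ?_⟩
        · have a1 := mem_sdiff.1 (h2 (mem_inter.1 hx).1)
          have a2 := mem_erase.1 (h4 (mem_inter.1 hx).2)
          simp [a1.1, a1.2, a2.1]
        · rw [sum_insert hb, h6]
          linarith [g2 Y h8 Z h9, g1 _ (union_subset h8 h9)]
    obtain ⟨Y, h1, h2, h3⟩ := key _ subset_rfl
    rw [Finset.sdiff_sdiff_eq_self hS] at h2
    rwa [subset_antisymm h2 h1] at h3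

end Pool.Agent.Lib.MP_348529_lc.X
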