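import Pool.Agent.Lib.MP_348529_lc.XEx

/-!
A lower bound for reweighted subgraphs of a complete bipartite graph.
-/

namespace Pool.Agent.Lib.MP_348529_lc.X

open Finset

variable {β : Type} [DecidableEq β]

lemma moments (f : β → ℝ) (J : Finset β) :
    ∑ θ ∈ J.powerset, (∑ b ∈ J, sg θ b * f b) ^ 2 = 2 ^ #J * ∑ b ∈ J, f b ^ 2 ∧
    ∑ θ ∈ J.powerset, (∑ b ∈ J, sg θ b * f b) ^ 4 ≤ 2 ^ #J * (3 * (∑ b ∈ J, f b ^ 2) ^ 2) := by
  induction J using Finset.induction_on with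
  | empty => simp
  | insert a J ha ih =>
    have e1 : ∀ θ ∈ J.powerset, ∑ b ∈ insert a J, sg θ b * f b = ∑ b ∈ J, sg θ b * f b - f a :=
      fun θ hθ => by
      rw [sum_insert ha, sg, if_neg fun c => ha (mem_powerset.1 hθ c)]; ring
    have e2 : ∀ θ ∈ J.powerset,
        ∑ b ∈ insert a J, sg (insert a θ) b * f b = ∑ b ∈ J, sg θ b * f b + f a := fun θ hθ => by
      rw [sum_insert ha, sg, if_pos (mem_insert_self _ _), one_mul, add_comm]
      congr 1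
      exact sum_congr rfl fun b hb => by simp [sg, (ne_of_mem_of_not_mem hb ha)]
    have e0 : ∀ F : ℝ → ℝ, ∑ θ ∈ (insert a J).powerset, F (∑ b ∈ insert a J, sg θ b * f b) =
        ∑ θ ∈ J.powerset, (F (∑ b ∈ J, sg θ b * f b - f a) + F (∑ b ∈ J, sg θ b * f b + f a)) :=
      fun F => by
      rw [sum_powerset_insert ha, ← sum_add_distrib]
      exact sum_congr rfl fun θ hθ => by rw [e1 θ hθ, e2 θ hθ]
    rw [e0 (· ^ 2), e0 (· ^ 4), card_insert_of_notMem ha, sum_insert ha]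
    have e3 : ∀ z : ℝ, (z - f a) ^ 2 + (z + f a) ^ 2 = 2 * z ^ 2 + 2 * f a ^ 2 := fun z => by ring
    have e4 : ∀ z : ℝ, (z - f a) ^ 4 + (z + f a) ^ 4 =
        2 * z ^ 4 + 12 * f a ^ 2 * z ^ 2 + 2 * f a ^ 4 := fun z => by ring
    simp only [e3, e4, sum_add_distrib, ← mul_sum, sum_const, card_powerset, nsmul_eq_mul, ih.1,
      Nat.cast_pow, Nat.cast_ofNat, pow_succ _ #J]
    refine ⟨by ring, ?_⟩
    have : (0 : ℝ) ≤ 2 ^ #J * f a ^ 4 := by positivity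
    nlinarith [ih.2]

lemma khin (f : β → ℝ) (J : Finset β) :
    2 ^ #J * √(∑ b ∈ J, f b ^ 2) ≤ 2 * ∑ θ ∈ J.powerset, |∑ b ∈ J, sg θ b * f b| := by
  have h0 : 0 ≤ ∑ b ∈ J, f b ^ 2 := sum_nonneg fun b _ => sq_nonneg _
  obtain ⟨m1, m2⟩ := moments f J
  rw [← Real.sq_sqrt h0] at m1 m2
  rcases (Real.sqrt_nonneg (∑ b ∈ J, f b ^ 2)).eq_or_lt with c | c
  · rw [← c, mul_zero]; positivity
  generalize √(∑ b ∈ J, f b ^ 2) = s at *
  have h1 : ∀ z : ℝ, s ^ 2 * z ^ 2 - z ^ 4 / 6 ≤ s ^ 3 * |z| := fun z => by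
    rw [← sq_abs z, ← Even.pow_abs (by decide : Even 4)]
    have hu := abs_nonneg z
    generalize |z| = u at *
    have : 0 ≤ s ^ 3 - s ^ 2 * u + u ^ 3 / 6 := by
      nlinarith [mul_nonneg hu (sq_nonneg (u - 3 / 2 * s)), mul_nonneg c.le (sq_nonneg (u - 11 / 8 * s)),
        pow_pos c 3]
    nlinarith [mul_nonneg hu this]
  have h2 := sum_le_sum fun θ (_ : θ ∈ J.powerset) => h1 (∑ b ∈ J, sg θ b * f b)
  rw [sum_sub_distrib, ← mul_sum, ← mul_sum, ← sum_div, m1] at h2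
  rw [← mul_le_mul_iff_right₀ (pow_pos c 3)]
  nlinarith

variable {α : Type} [Fintype α] [DecidableEq α] [Fintype β]

lemma block (M : α → β → ℝ) {η : ℝ}
    (h : ∀ (A : Finset α) (B : Finset β),
      |∑ a, ∑ b, M a b * if a ∈ A ∨ b ∈ B then 1 else 0| ≤ η) :
    ∑ a, √(∑ b, M a b ^ 2) ≤ 16 * η := by
  have h1 : ∀ (A : Finset α) (B : Finset β), |∑ a ∈ A, ∑ b ∈ B, M a b| ≤ 2 * η := fun A B => by
    have a1 := abs_le.1 (h univ univ)
    have a2 := abs_le.1 (h Aᶜ Bᶜ)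
    have e : ∑ a, ∑ b, M a b * (if a ∈ Aᶜ ∨ b ∈ Bᶜ then 1 else 0) =
        ∑ a, ∑ b, M a b - ∑ a ∈ A, ∑ b ∈ B, M a b := by
      rw [← univ_inter A, ← sum_ite_mem, ← sum_sub_distrib, univ_inter]
      refine sum_congr rfl fun a _ => ?_
      by_cases c : a ∈ A
      · rw [if_pos c, ← univ_inter B, ← sum_ite_mem, ← sum_sub_distrib, univ_inter]
        refine sum_congr rfl fun b _ => ?_
        by_cases c' : b ∈ B <;> simp [c, c']
      · simp [c]
    rw [e] at a2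
    simp only [mem_univ, or_self, if_true, mul_one] at a1
    exact abs_le.2 ⟨by linarith, by linarith⟩
  have h2 : ∀ θ : Finset β, ∑ a, |∑ b, sg θ b * M a b| ≤ 8 * η := fun θ => by
    have e : ∀ a, ∑ b, sg θ b * M a b = ∑ b ∈ θ, M a b - ∑ b ∈ θᶜ, M a b := fun a => by
      rw [← sum_add_sum_compl θ, sub_eq_add_neg, ← sum_neg_distrib]
      congr 1
      · exact sum_congr rfl fun b hb => by simp [sg, hb]
      · exact sum_congr rfl fun b hb => by simp [sg, mem_compl.1 hb]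
    set A : Finset α := {a | 0 ≤ ∑ b, sg θ b * M a b} with hA
    rw [← sum_add_sum_compl A, sum_congr rfl fun a (ha : a ∈ A) => abs_of_nonneg (mem_filter.1 ha).2,
      sum_congr rfl fun a (ha : a ∈ Aᶜ) => abs_of_neg (by simpa [hA] using ha)]
    clear_value A
    simp only [e, sum_neg_distrib, sum_sub_distrib]
    linarith [abs_le.1 (h1 A θ), abs_le.1 (h1 A θᶜ), abs_le.1 (h1 Aᶜ θ), abs_le.1 (h1 Aᶜ θᶜ)]
  have h3 := sum_le_sum fun a (_ : a ∈ (univ : Finset α)) => khin (M a) univ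
  rw [← mul_sum, ← mul_sum, sum_comm] at h3
  have h4 := sum_le_sum fun θ (_ : θ ∈ (univ : Finset β).powerset) => h2 θ
  rw [sum_const, card_powerset, nsmul_eq_mul] at h4
  push_cast at h4
  rw [← mul_le_mul_iff_right₀ (show (0 : ℝ) < 2 ^ #(univ : Finset β) by positivity)]
  linarith

lemma block' {d : ℕ} (P : Fin d → Fin d → Prop) [∀ a b, Decidable (P a b)] (s : Fin d → Fin d → ℝ)
    {ε : ℝ} (hε : 0 ≤ ε) (hd : 1024 * ε ^ 2 * d ≤ 1)
    (h : ∀ A B : Finset (Fin d),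
      |∑ a, ∑ b, ((if P a b then s a b else 0) - 1) * if a ∈ A ∨ b ∈ B then 1 else 0| ≤ ε * d ^ 2) :
    (d : ℝ) ^ 2 / 2 ≤ ∑ a, ∑ b, if P a b then 1 else 0 := by
  have h1 := block _ h
  have h2 : ∀ a, d - ∑ b, (if P a b then 1 else 0 : ℝ) ≤
      √d * √(∑ b, ((if P a b then s a b else 0) - 1) ^ 2) := fun a => by
    have e : d - ∑ b, (if P a b then 1 else 0 : ℝ) = ∑ b, (if P a b then 0 else 1 : ℝ) := by
      rw [sub_eq_iff_eq_add, ← sum_add_distrib, sum_congr rfl fun b _ => show _ = (1 : ℝ) by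
        split_ifs <;> simp]
      simp
    have a1 : ∑ b, (if P a b then 0 else 1 : ℝ) ≤ d :=
      (sum_le_sum fun b _ => show _ ≤ (1 : ℝ) by split_ifs <;> simp).trans (by simp)
    have a2 : ∑ b, (if P a b then 0 else 1 : ℝ) ≤ ∑ b, ((if P a b then s a b else 0) - 1) ^ 2 :=
      sum_le_sum fun b _ => by split_ifs <;> simp [sq_nonneg]
    rw [e, ← Real.mul_self_sqrt (x := ∑ b, (if P a b then 0 else 1 : ℝ))
      (sum_nonneg fun b _ => by positivity)]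
    gcongr
  have h3 := sum_le_sum fun a (_ : a ∈ (univ : Finset (Fin d))) => h2 a
  rw [sum_sub_distrib, ← mul_sum] at h3
  simp only [sum_const, card_univ, Fintype.card_fin, nsmul_eq_mul] at h3
  have h4 : 32 * ε * √d ≤ 1 := by
    rw [← abs_of_nonneg (show 0 ≤ 32 * ε * √d by positivity), ← sq_le_one_iff_abs_le_one, mul_pow,
      Real.sq_sqrt (by positivity)]
    linarith
  nlinarith [mul_le_mul_of_nonneg_left h1 (Real.sqrt_nonneg d), sq_nonneg (d : ℝ)]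

/-- The directed hyperedge from `u` to the pair `a, b` of block `j`. -/
def gL {p q d : ℕ} (i : (Fin p × Fin q) × Fin d × Fin d)
    (S : Finset (Fin p ⊕ Fin q × (Fin d ⊕ Fin d))) : ℝ :=
  if Sum.inl i.1.1 ∈ S ∧ (Sum.inr (i.1.2, Sum.inl i.2.1) ∉ S ∨ Sum.inr (i.1.2, Sum.inr i.2.2) ∉ S)
    then 1 else 0

theorem lower {p q d : ℕ} {ε : ℝ} (hε : 0 ≤ ε) (hd : 1024 * ε ^ 2 * d ≤ 1)
    (E : Finset ((Fin p × Fin q) × Fin d × Fin d)) (s : (Fin p × Fin q) × Fin d × Fin d → ℝ)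
    (h : ∀ S, (1 - ε) * ∑ i, gL i S ≤ ∑ i ∈ E, s i * gL i S ∧
      ∑ i ∈ E, s i * gL i S ≤ (1 + ε) * ∑ i, gL i S) : p * q * ((d : ℝ) ^ 2 / 2) ≤ #E := by
  have e : (#E : ℝ) = ∑ x, ∑ a, ∑ b, if (x, a, b) ∈ E then 1 else 0 := by
    simp only [← Fintype.sum_prod_type', Prod.mk.eta]
    simp
  rw [e]
  refine le_trans (by simp) (sum_le_sum fun x _ =>
    block' (fun a b => (x, a, b) ∈ E) (fun a b => s (x, a, b)) hε hd fun A B => ?_)
  set S := ({Sum.inl x.1} : Finset (Fin p ⊕ Fin q × (Fin d ⊕ Fin d))) ∪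
    univ.image Sum.inr \ (A.disjSum B).image fun y => Sum.inr (x.2, y) with hS
  have e1 : ∀ i, gL i S = if i.1 = x then (if i.2.1 ∈ A ∨ i.2.2 ∈ B then 1 else 0) else 0 := by
    rintro ⟨⟨u, j⟩, a, b⟩
    obtain ⟨u', j'⟩ := x
    rw [← ite_and]
    refine if_congr ?_ rfl rfl
    simp [hS]
    aesop
  have e2 : ∀ c : (Fin p × Fin q) × Fin d × Fin d → ℝ, ∑ i, c i * gL i S =
      ∑ a, ∑ b, c (x, a, b) * if a ∈ A ∨ b ∈ B then 1 else 0 := fun c => by
    simp only [e1, Fintype.sum_prod_type (α₁ := Fin p × Fin q), mul_ite (_ = x), mul_zero]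
    rw [sum_eq_single x (fun y _ hy => by simp [hy]) (by simp), Fintype.sum_prod_type]
    simp
  have e3 := e2 fun _ => 1
  have e4 := e2 fun i => if i ∈ E then s i else 0
  simp only [one_mul] at e3
  simp only [ite_mul (_ ∈ E), zero_mul, sum_ite_mem, univ_inter] at e4
  have h1 := h S
  have h2 : ∑ i, gL i S ≤ d ^ 2 := by
    rw [e3]
    exact (sum_le_sum fun a _ => sum_le_sum fun b _ => show _ ≤ (1 : ℝ) by
      split_ifs <;> simp).trans (by simp [sq])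
  simp only [sub_mul, sum_sub_distrib, one_mul, ite_mul (_ ∈ E), zero_mul, ← e3, ← e4]
  have h3 := mul_le_mul_of_nonneg_left h2 hε
  exact abs_le.2 ⟨by linarith [h1.1], by linarith [h1.2]⟩

end Pool.Agent.Lib.MP_348529_lc.X
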