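import Pool.Agent.Lib.MP_348529_lc.XShat

/-!
Partial colouring by linear programming, and repeated halving.
-/

namespace Pool.Agent.Lib.MP_348529_lc.X

open Finset Filter Topology

variable {α ι : Type} [Fintype α] [Fintype ι] [DecidableEq ι]

lemma dual (A : Finset ι) (f : ι → α → ℝ) (c : α → ℝ) (hc : ∀ S, 0 ≤ c S)
    (hc0 : ∀ S, c S = 0 → ∀ e ∈ A, f e S = 0) (γ : ι → ℝ) {M : ℝ} (hM : 0 < M)
    (h : ∀ y : ι → ℝ, (∀ S, |∑ e ∈ A, y e * f e S| ≤ c S) → ∑ e ∈ A, γ e * y e ≤ M) :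
    ∃ w : α → ℝ, (∀ e ∈ A, ∑ S, w S * f e S = γ e) ∧ ∑ S, |w S| * c S ≤ M := by
  classical
  set T : (α → ℝ) →ₗ[ℝ] ι → ℝ := Matrix.mulVecLin fun e S => if e ∈ A then f e S / c S else 0
    with hT
  have hTa : ∀ u e, T u e = if e ∈ A then ∑ S, u S / c S * f e S else 0 := fun u e => by
    simp only [hT, Matrix.mulVecLin_apply, Matrix.mulVec, dotProduct]
    split_ifs
    · exact sum_congr rfl fun S _ => by ring
    · simp
  set B : Set (α → ℝ) := {u | ∑ S, |u S| ≤ M} with hB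
  have hBc : IsCompact B := (isCompact_Icc (a := fun _ => -M) (b := fun _ => M)).of_isClosed_subset
    (isClosed_le (by fun_prop) continuous_const) fun u hu => by
      have : ∀ S, |u S| ≤ M := fun S =>
        (single_le_sum (f := fun S => |u S|) (fun S _ => abs_nonneg _) (mem_univ S)).trans hu
      exact ⟨fun S => (abs_le.1 (this S)).1, fun S => (abs_le.1 (this S)).2⟩
  have hBv : Convex ℝ B := fun x hx y hy a b ha hb hab => by
    simp only [hB, Set.mem_setOf_eq, Pi.add_apply, Pi.smul_apply, smul_eq_mul] at hx hy ⊢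
    calc _ ≤ ∑ S, (a * |x S| + b * |y S|) := sum_le_sum fun S _ => (abs_add_le _ _).trans
          (by rw [abs_mul, abs_mul, abs_of_nonneg ha, abs_of_nonneg hb])
      _ ≤ a * M + b * M := by
          rw [sum_add_distrib, ← mul_sum, ← mul_sum]
          gcongr
      _ = M := by rw [← add_mul, hab, one_mul]
  by_cases hx : (fun e => if e ∈ A then γ e else 0) ∈ T '' B
  · obtain ⟨u, hu, hu'⟩ := hx
    refine ⟨fun S => u S / c S, fun e he => ?_, le_trans (sum_le_sum fun S _ => ?_) hu⟩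
    · have := congrFun hu' e
      rwa [hTa, if_pos he, if_pos he] at this
    · rw [abs_div, abs_of_nonneg (hc S)]
      rcases eq_or_ne (c S) 0 with c0 | c0
      · simp [c0]
      · rw [div_mul_cancel₀ _ c0]
  obtain ⟨l, t, h1, h2⟩ := geometric_hahn_banach_closed_point (hBv.linear_image T)
    (hBc.image T.continuous_of_finiteDimensional).isClosed hx
  set y : ι → ℝ := fun e => l fun j => if e = j then 1 else 0 with hy
  have hl : ∀ x : ι → ℝ, l x = ∑ e, x e * y e := fun x => l.toLinearMap.pi_apply_eq_sum_univ x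
  have ht : 0 < t := by simpa using h1 0 ⟨0, by simp [hB, hM.le], map_zero _⟩
  have h3 : ∀ S (s : ℝ), |s| ≤ M → s / c S * ∑ e ∈ A, y e * f e S < t := fun S s hs => by
    have := h1 _ ⟨fun S' => if S' = S then s else 0, by
      simpa [hB, apply_ite abs] using hs, rfl⟩
    simp only [hl, hTa, ite_div, ite_mul, zero_div, zero_mul, sum_ite_eq', mem_univ, if_true,
      sum_ite_mem, univ_inter] at this
    rw [mul_sum]
    exact (sum_congr rfl fun e _ => by ring).trans_lt this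
  have h4 := h (fun e => M / t * y e) fun S => by
    simp only [mul_assoc, ← mul_sum]
    rcases (hc S).eq_or_lt with c0 | c0
    · rw [sum_eq_zero fun e he => by rw [hc0 S c0.symm e he, mul_zero]]
      simpa using hc S
    · have a1 := h3 S M (abs_of_pos hM).le
      have a2 := h3 S (-M) (by rw [abs_neg, abs_of_pos hM])
      rw [div_mul_eq_mul_div, div_lt_iff₀ c0] at a1 a2
      rw [div_mul_eq_mul_div, abs_le, le_div_iff₀ ht, div_le_iff₀ ht]
      constructor <;> linarith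
  simp only [hl, ite_mul, zero_mul, sum_ite_mem, univ_inter] at h2
  simp only [mul_left_comm _ (M / t), ← mul_sum] at h4
  rw [div_mul_eq_mul_div, div_le_iff₀ ht] at h4
  nlinarith

lemma extreme (E : Finset ι) (f : ι → α → ℝ) (c : α → ℝ) (hc : ∀ S, 0 ≤ c S) (θ : Finset ι) :
    ∃ x : ι → ℝ, (∀ e, |x e| ≤ 1) ∧ (∀ S, |∑ e ∈ E, x e * f e S| ≤ c S) ∧
      ∀ y : ι → ℝ, (∀ S, |∑ e ∈ E with |x e| ≠ 1, y e * f e S| ≤ c S) →
        ∑ e ∈ E with |x e| ≠ 1, sg θ e * y e ≤ #E := by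
  set Q : Set (ι → ℝ) := {x | (∀ e, |x e| ≤ 1) ∧ ∀ S, |∑ e ∈ E, x e * f e S| ≤ c S} with hQ
  have hQc : IsCompact Q := (isCompact_Icc (a := fun _ => -1) (b := fun _ => 1)).of_isClosed_subset
    (by
      simp only [hQ, Set.setOf_and, Set.setOf_forall]
      exact (isClosed_iInter fun e => isClosed_le (by fun_prop) continuous_const).inter
        (isClosed_iInter fun S => isClosed_le (by fun_prop) continuous_const))
    fun u hu => ⟨fun e => (abs_le.1 (hu.1 e)).1, fun e => (abs_le.1 (hu.1 e)).2⟩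
  obtain ⟨x, hx, hmax⟩ := hQc.exists_isMaxOn ⟨0, by simp [hQ, hc]⟩
    (f := fun x => ∑ e ∈ E, sg θ e * x e) (by fun_prop)
  refine ⟨x, hx.1, hx.2, fun y hy => ?_⟩
  have ev : ∀ᶠ t : ℝ in 𝓝 0, t < 1 ∧ ∀ e, |x e| ≠ 1 → |(1 - t) * x e + t * y e| < 1 :=
    (eventually_lt_nhds one_pos).and (eventually_all.2 fun e => by
      by_cases h : |x e| = 1
      · simp [h]
      · refine Eventually.mono (ContinuousAt.eventually_lt (f := fun t : ℝ => |(1 - t) * x e + t * y e|)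
          (g := fun _ => 1) (by fun_prop) continuousAt_const ?_) fun t ht _ => ht
        simpa using (hx.1 e).lt_of_ne h)
  obtain ⟨t, ⟨ht1, ht⟩, ht0⟩ := ((ev.filter_mono nhdsWithin_le_nhds).and
    (self_mem_nhdsWithin (s := Set.Ioi 0))).exists
  have ht0 : 0 < t := ht0
  have h1 := hmax (a := fun e => (1 - t) * x e + t * if |x e| ≠ 1 then y e else 0) ⟨fun e => by
    by_cases h : |x e| ≠ 1
    · simp only [if_pos h]
      exact (ht e h).le
    · simp only [if_neg h]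
      rw [mul_zero, add_zero, abs_mul, not_not.1 h, abs_of_pos (by linarith)]
      linarith, fun S => by
    simp only [add_mul, sum_add_distrib, mul_assoc, ← mul_sum, ite_mul, zero_mul, ← sum_filter]
    refine (abs_add_le _ _).trans ?_
    rw [abs_mul, abs_mul, abs_of_pos ht0, abs_of_pos (sub_pos.2 ht1)]
    nlinarith [hx.2 S, hy S]⟩
  simp only [Set.mem_setOf_eq, mul_add, sum_add_distrib, mul_left_comm (sg θ _), ← mul_sum] at h1
  simp only [mul_ite, mul_zero, ← sum_filter] at h1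
  have h2 : ∑ e ∈ E, sg θ e * x e ≤ #E := by
    rw [card_eq_sum_ones]
    push_cast
    refine sum_le_sum fun e _ => ?_
    have := abs_le.1 (hx.1 e)
    unfold sg
    split_ifs <;> linarith
  nlinarith

omit [Fintype ι] in
lemma card_small (E : Finset ι) :
    (#{s ∈ E.powerset | 16 * #s ≤ #E} : ℝ) ≤ (51 / 40) ^ #E := by
  have h1 := sum_pow_mul_eq_add_pow (1 / 16 : ℝ) 1 E
  simp only [one_pow, mul_one] at h1
  have h2 : ∑ s ∈ E.powerset with 16 * #s ≤ #E, (5 / 6 : ℝ) ^ #E ≤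
      ∑ s ∈ E.powerset, (1 / 16 : ℝ) ^ #s :=
    (sum_le_sum fun s hs => (pow_le_pow_of_le_one (by norm_num) (by norm_num)
      (mem_filter.1 hs).2).trans (by
        rw [pow_mul]; exact pow_le_pow_left₀ (by norm_num) (by norm_num) _)).trans
      (sum_le_sum_of_subset_of_nonneg (filter_subset _ _) fun s _ _ => by positivity)
  rw [h1, sum_const, nsmul_eq_mul, ← le_div_iff₀ (by positivity), ← div_pow] at h2
  exact h2.trans (le_of_eq (by norm_num))

omit [Fintype ι] in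
lemma exists_shatter {E : Finset ι} (hE : 0 < #E) (B : Finset ι → Finset ι)
    (hB : ∀ θ, B θ ⊆ E ∧ 32 * #(B θ) ≤ #E) :
    ∃ J ⊆ E, #E < 32 * #J ∧ ∀ θ' ⊆ J, ∃ θ, J ∩ θ = θ' ∧ Disjoint J (B θ) := by
  set P := {s ∈ E.powerset | 16 * #s ≤ #E} with hP
  have hP' := card_small E
  by_cases h : ∀ s ∈ P, #{θ ∈ E.powerset | B θ = s} ≤ #P
  · exfalso
    have h1 := card_eq_sum_card_fiberwise (f := B) (s := E.powerset) (t := P) fun θ _ =>
      mem_filter.2 ⟨mem_powerset.2 (hB θ).1, by have := (hB θ).2; omega⟩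
    have h2 := sum_le_sum h
    rw [← h1, card_powerset, sum_const, smul_eq_mul] at h2
    have h3 : (2 : ℝ) ^ #E ≤ #P * #P := by exact_mod_cast h2
    have h4 := mul_le_mul hP' hP' (by positivity) (by positivity)
    rw [← mul_pow] at h4
    have h5 : (51 / 40 * (51 / 40) : ℝ) ^ #E < 2 ^ #E :=
      pow_lt_pow_left₀ (by norm_num) (by norm_num) hE.ne'
    linarith
  push Not at h
  obtain ⟨s, -, hs⟩ := h
  obtain ⟨J, hJ, hJ'⟩ := exists_mem_notMem_of_card_lt_card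
    (hs.trans_le (card_le_card_shatterer _))
  rw [mem_shatterer] at hJ
  obtain ⟨θ₀, h₀, h₀'⟩ := hJ.exists_superset
  have hJE : J ⊆ E := h₀'.trans (mem_powerset.1 (mem_filter.1 h₀).1)
  simp only [hP, mem_filter, mem_powerset, hJE, true_and, not_le] at hJ'
  have h1 := (hB θ₀).2
  rw [(mem_filter.1 h₀).2] at h1
  have h2 := le_card_sdiff s J
  refine ⟨J \ s, sdiff_subset.trans hJE, by omega, fun θ' hθ' => ?_⟩
  obtain ⟨θ, hθ, hθ''⟩ := hJ.mono_right sdiff_subset hθ'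
  exact ⟨θ, hθ'', (mem_filter.1 hθ).2 ▸ sdiff_disjoint⟩

variable {U : Type} [Fintype U] [DecidableEq U] {φ : α → Finset U} {S₀ : α} {K : ℝ}

theorem colour {E : Finset ι} {f : ι → α → ℝ} (hf : ∀ e ∈ E, Cov φ S₀ K (f e)) (hK : 0 < K)
    (h0 : φ S₀ = ∅) {δ : ℝ} (hδ : 0 < δ) (hE : 0 < #E)
    (hm : 2 ^ 42 * K ^ 2 * Fintype.card U ≤ δ ^ 2 * #E) :
    ∃ x : ι → ℝ, (∀ e, |x e| ≤ 1) ∧ (∀ S, |∑ e ∈ E, x e * f e S| ≤ δ * ∑ e ∈ E, f e S) ∧
      #E < 64 * #{e ∈ E | |x e| = 1} := by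
  by_contra hcon
  push Not at hcon
  have hE' : (0 : ℝ) < #E := by exact_mod_cast hE
  have hG : ∀ S, 0 ≤ δ * ∑ e ∈ E, f e S := fun S =>
    mul_nonneg hδ.le (sum_nonneg fun e he => (hf e he).nn S)
  have h1 : ∀ θ : Finset ι, ∃ B : Finset ι, (B ⊆ E ∧ 32 * #B ≤ #E) ∧ ∃ w : α → ℝ, ∀ e ∈ E, e ∉ B →
      ∑ a, w a * f e a = sg θ e ∧ ∑ a, |w a| * f e a ≤ 64 / δ := fun θ => by
    obtain ⟨x, x1, x2, x3⟩ := extreme E f _ hG θ
    obtain ⟨w, w1, w2⟩ := dual _ f _ hG (fun S hS e he => (sum_eq_zero_iff_of_nonneg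
      fun e he => (hf e he).nn S).1 ((mul_eq_zero.1 hS).resolve_left hδ.ne') e
      (mem_filter.1 he).1) _ hE' x3
    have a1 := hcon x x1 x2
    set B := {e ∈ E | 64 / δ < ∑ a, |w a| * f e a} with hB
    have a2 : #B * (64 / δ) ≤ ∑ e ∈ E, ∑ a, |w a| * f e a := by
      rw [← nsmul_eq_mul]
      exact (card_nsmul_le_sum _ _ _ fun e he => (mem_filter.1 he).2.le).trans
        (sum_le_sum_of_subset_of_nonneg (filter_subset _ _) fun e he _ =>
          sum_nonneg fun a _ => mul_nonneg (abs_nonneg _) ((hf e he).nn a))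
    rw [sum_comm, ← mul_div_assoc, div_le_iff₀ hδ] at a2
    simp only [← mul_sum] at a2
    simp only [mul_left_comm _ δ, ← mul_sum] at w2
    have a3 : 64 * #B ≤ #E := by
      have : (64 * #B : ℝ) ≤ #E := by linarith
      exact_mod_cast this
    refine ⟨{e ∈ E | |x e| = 1} ∪ B, ⟨union_subset (filter_subset _ _) (filter_subset _ _), ?_⟩, w,
      fun e he he' => ?_⟩
    · have := card_union_le {e ∈ E | |x e| = 1} B
      omega
    · simp only [hB, mem_union, mem_filter, he, true_and, not_or, not_lt] at he'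
      exact ⟨w1 e (mem_filter.2 ⟨he, he'.1⟩), he'.2⟩
  choose B hB w hw using h1
  obtain ⟨J, hJ, hJ', h⟩ := exists_shatter hE B hB
  have h2 := shat (fun e he => hf e (hJ he)) hK h0 (D := 64 / δ) (by positivity) fun θ' hθ' => by
    obtain ⟨θ, rfl, hd⟩ := h θ' hθ'
    refine ⟨w θ, fun e he => ?_⟩
    have := hw θ e (hJ he) (disjoint_left.1 hd he)
    simpa [sg, he] using this
  have h3 : (#E : ℝ) < 32 * #J := by exact_mod_cast hJ'
  have h4 : δ ^ 2 * #J ≤ 2 ^ 37 * K ^ 2 * Fintype.card U :=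
    (mul_le_mul_of_nonneg_left h2 (sq_nonneg δ)).trans (le_of_eq (by field_simp; ring))
  nlinarith [mul_lt_mul_of_pos_left h3 (pow_pos hδ 2)]

theorem round {E : Finset ι} {f : ι → α → ℝ} (hf : ∀ e ∈ E, Cov φ S₀ K (f e)) (hK : 0 < K)
    (h0 : φ S₀ = ∅) {δ : ℝ} (hδ : 0 < δ) (hE : 0 < #E)
    (hm : 2 ^ 42 * K ^ 2 * Fintype.card U ≤ δ ^ 2 * #E) :
    ∃ E₁ ⊆ E, ∃ c : ι → ℝ, (∀ e ∈ E₁, 0 < c e) ∧ 128 * #E₁ < 127 * #E ∧
      ∀ S, |∑ e ∈ E₁, c e * f e S - ∑ e ∈ E, f e S| ≤ δ * ∑ e ∈ E, f e S := by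
  obtain ⟨x, x1, x2, x3⟩ := colour hf hK h0 hδ hE hm
  wlog hw : #E < 128 * #{e ∈ E | x e = -1} generalizing x
  · refine this (fun e => -x e) (by simpa using x1) (by simpa using x2) (by simpa using x3) ?_
    have : {e ∈ E | |x e| = 1} ⊆ {e ∈ E | x e = -1} ∪ {e ∈ E | -x e = -1} := fun e he => by
      simp only [mem_union, mem_filter, neg_inj] at he ⊢
      rcases (abs_eq zero_le_one).1 he.2 with h | h <;> simp [he.1, h]
    have := (card_le_card this).trans (card_union_le _ _)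
    omega
  refine ⟨{e ∈ E | ¬ x e = -1}, filter_subset _ _, fun e => 1 + x e, fun e he => ?_, ?_,
    fun S => le_trans (le_of_eq ?_) (x2 S)⟩
  · have := lt_of_le_of_ne (abs_le.1 (x1 e)).1 (Ne.symm (mem_filter.1 he).2)
    linarith
  · have := card_filter_add_card_filter_not (s := E) fun e => x e = -1
    omega
  · congr 1
    rw [sum_filter, ← sum_sub_distrib]
    refine sum_congr rfl fun e _ => ?_
    split_ifs with h
    · rw [h]; ring
    · ring

theorem sparsify (hK : 0 < K) (h0 : φ S₀ = ∅) {ε : ℝ} (hε : 0 < ε) (hε1 : ε < 1) {Q : ℝ}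
    (hQ0 : 0 < Q) (hQ : 2 ^ 42 * K ^ 2 * Fintype.card U ≤ Q) (m : ℕ) :
    ∀ (E : Finset ι) (g : ι → α → ℝ), #E = m → (∀ e ∈ E, Cov φ S₀ K (g e)) → ∀ x : ℝ, #E ≤ x →
      ∃ E' ⊆ E, ∃ s : ι → ℝ, (∀ e ∈ E', 0 < s e) ∧ (#E' : ℝ) ≤ 514 ^ 2 * Q / ε ^ 2 ∧
        ∀ S, |∑ e ∈ E', s e * g e S - ∑ e ∈ E, g e S| ≤
          max 0 (ε - 512 * √(Q / x)) * ∑ e ∈ E, g e S := by
  induction m using Nat.strong_induction_on with
  | _ m ih =>
  intro E g hm hg x hx
  have hF : ∀ S, 0 ≤ ∑ e ∈ E, g e S := fun S => sum_nonneg fun e he => (hg e he).nn S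
  by_cases hsmall : (#E : ℝ) ≤ 514 ^ 2 * Q / ε ^ 2
  · refine ⟨E, subset_rfl, fun _ => 1, fun _ _ => one_pos, hsmall, fun S => ?_⟩
    simpa using mul_nonneg (le_max_left _ _) (hF S)
  push Not at hsmall
  have hm0 : (0 : ℝ) < #E := lt_trans (by positivity) hsmall
  have hm1 : 0 < #E := by exact_mod_cast hm0
  set δ := √(Q / #E) with hδ
  have hδ0 : 0 < δ := by positivity
  have hδ2 : δ ^ 2 = Q / #E := Real.sq_sqrt (by positivity)
  obtain ⟨E₁, hE₁, c, hc, hcard, h₁⟩ := round hg hK h0 hδ0 hm1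
    (by rwa [hδ2, div_mul_cancel₀ _ hm0.ne'])
  have hcard' : (#E₁ : ℝ) ≤ 127 / 128 * #E := by
    have : (128 * #E₁ : ℝ) < 127 * #E := by exact_mod_cast hcard
    linarith
  obtain ⟨E', hE', s, hs, hcard'', h₂⟩ := ih #E₁ (by omega) E₁ (fun e S => c e * g e S) rfl
    (fun e he => (hg e (hE₁ he)).smul (hc e he).le) _ hcard'
  refine ⟨E', hE'.trans hE₁, fun e => s e * c e, fun e he => mul_pos (hs e he) (hc e (hE' he)),
    hcard'', fun S => ?_⟩
  have a1 : 257 / 256 * δ ≤ √(Q / (127 / 128 * #E)) := by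
    refine Real.le_sqrt_of_sq_le ?_
    have : Q / (127 / 128 * #E) = 128 / 127 * (Q / #E) := by field_simp
    rw [this, mul_pow, hδ2]
    have : 0 ≤ Q / #E := by positivity
    nlinarith
  have a2 : δ ≤ ε / 514 := by
    refine Real.sqrt_le_iff.2 ⟨by positivity, ?_⟩
    rw [div_lt_iff₀ (by positivity)] at hsmall
    rw [div_le_iff₀ hm0]
    nlinarith
  have a3 : √(Q / x) ≤ δ := Real.sqrt_le_sqrt (div_le_div_of_nonneg_left hQ0.le hm0 hx)
  have a4 : max 0 (ε - 512 * √(Q / (127 / 128 * #E))) ≤ ε - 514 * δ :=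
    max_le (by linarith) (by linarith)
  have a5 : ε - 512 * δ ≤ max 0 (ε - 512 * √(Q / x)) := le_max_of_le_right (by linarith)
  have b1 := h₁ S
  have b2 := h₂ S
  have b3 := hF S
  simp only [mul_assoc] at b2 ⊢
  set A := ∑ e ∈ E', s e * (c e * g e S)
  set B := ∑ e ∈ E₁, c e * g e S
  set C := ∑ e ∈ E, g e S
  have b4 : B ≤ (1 + δ) * C := by linarith [(abs_le.1 b1).2]
  have b5 : 0 ≤ B := sum_nonneg fun e he => mul_nonneg (hc e he).le ((hg e (hE₁ he)).nn S)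
  have b6 : |A - B| ≤ (ε - 514 * δ) * ((1 + δ) * C) :=
    b2.trans (mul_le_mul a4 b4 b5 (by linarith))
  have b7 : |A - C| ≤ |A - B| + |B - C| := abs_sub_le _ _ _
  have b8 : (ε - 514 * δ) * δ * C ≤ δ * C := by
    refine mul_le_mul_of_nonneg_right ?_ b3
    nlinarith
  refine le_trans ?_ (mul_le_mul_of_nonneg_right a5 b3)
  nlinarith

/-- Families with the cover property have sparsifiers of size `O(K² N / ε²)`. -/
theorem main {g : ι → α → ℝ} (hg : ∀ e, Cov φ S₀ K (g e)) (hK : 0 < K) (h0 : φ S₀ = ∅) {ε : ℝ}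
    (hε : 0 < ε) (hε1 : ε < 1) :
    ∃ (E' : Finset ι) (s : ι → ℝ), (∀ e ∈ E', 0 < s e) ∧
      (#E' : ℝ) ≤ 2 ^ 61 * K ^ 2 * Fintype.card U / ε ^ 2 ∧
      ∀ S, (1 - ε) * ∑ e, g e S ≤ ∑ e ∈ E', s e * g e S ∧
        ∑ e ∈ E', s e * g e S ≤ (1 + ε) * ∑ e, g e S := by
  rcases isEmpty_or_nonempty U with hU | hU
  · have : ∀ e S, g e S = 0 := fun e S => le_antisymm (by
      simpa [(hg e).zero] using (hg e).cov S S₀ (fun _ => 0) ⟨by simp, by simp⟩) ((hg e).nn S)
    exact ⟨∅, fun _ => 1, by simp, by simp, by simp [this]⟩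
  have hN : (0 : ℝ) < Fintype.card U := by exact_mod_cast Fintype.card_pos
  obtain ⟨E', -, s, hs, hc, h⟩ := sparsify hK h0 hε hε1 (by positivity) le_rfl _ univ g rfl
    (fun e _ => hg e) _ le_rfl
  refine ⟨E', s, hs, hc.trans (div_le_div_of_nonneg_right ?_ (by positivity)), fun S => ?_⟩
  · have : 0 ≤ K ^ 2 * Fintype.card U := by positivity
    nlinarith
  · have := abs_le.1 ((h S).trans (mul_le_mul_of_nonneg_right (max_le hε.le
      (sub_le_self _ (by positivity))) (sum_nonneg fun e _ => (hg e).nn S)))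
    constructor <;> linarith [this.1, this.2]

end Pool.Agent.Lib.MP_348529_lc.X
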