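import Pool.Agent.Lib.MP_348529_lc.XCore

/-!
The cover property bounds the size of shattered families.
-/

namespace Pool.Agent.Lib.MP_348529_lc.X

open Finset

variable {α U : Type} [Fintype α] [DecidableEq U]

/-- `w` is a fractional cover of the displayed elements of `Z`. -/
def Covers (φ : α → Finset U) (Z : Finset U) (w : α → ℝ) : Prop :=
  (∀ T, 0 ≤ w T) ∧ ∀ u ∈ Z, (∃ T, u ∈ φ T) → 1 ≤ ∑ T, w T * if u ∈ φ T then 1 else 0

/-- The cover property with constant `K`. -/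
structure Cov (φ : α → Finset U) (S₀ : α) (K : ℝ) (g : α → ℝ) : Prop where
  nn : ∀ S, 0 ≤ g S
  zero : g S₀ = 0
  cov : ∀ S S' w, Covers φ (φ S \ φ S') w → g S ≤ g S' + K * ∑ T, w T * g T

variable {φ : α → Finset U} {S₀ : α} {K : ℝ} {g : α → ℝ}

lemma Cov.smul (h : Cov φ S₀ K g) {c : ℝ} (hc : 0 ≤ c) : Cov φ S₀ K fun S => c * g S := by
  refine ⟨fun S => mul_nonneg hc (h.nn S), by simp [h.zero], fun S S' w hw => ?_⟩
  have := mul_le_mul_of_nonneg_left (h.cov S S' w hw) hc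
  simp only [mul_left_comm _ c, ← mul_sum]
  linarith

lemma Cov.mono (h : Cov φ S₀ K g) {K' : ℝ} (hK : K ≤ K') : Cov φ S₀ K' g :=
  ⟨h.nn, h.zero, fun S S' w hw => (h.cov S S' w hw).trans (add_le_add le_rfl
    (mul_le_mul_of_nonneg_right hK (sum_nonneg fun T _ => mul_nonneg (hw.1 T) (h.nn T))))⟩

/-- The cheapest fractional cover. -/
noncomputable def Gam (φ : α → Finset U) (g : α → ℝ) (Z : Finset U) : ℝ :=
  sInf ((fun w => ∑ T, w T * g T) '' {w | Covers φ Z w})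

lemma Gam_le (hg : ∀ S, 0 ≤ g S) {Z : Finset U} {w : α → ℝ} (hw : Covers φ Z w) :
    Gam φ g Z ≤ ∑ T, w T * g T :=
  csInf_le ⟨0, by
    rintro _ ⟨w, hw, rfl⟩
    exact sum_nonneg fun T _ => mul_nonneg (hw.1 T) (hg T)⟩ ⟨w, hw, rfl⟩

lemma le_Gam {Z : Finset U} {c : ℝ} (h : ∀ w, Covers φ Z w → c ≤ ∑ T, w T * g T) :
    c ≤ Gam φ g Z := by
  refine le_csInf ⟨_, fun _ => 1, ⟨fun _ => zero_le_one, fun u _ ⟨T, hT⟩ => ?_⟩, rfl⟩ ?_
  · refine le_trans ?_ (single_le_sum (f := fun T => (1 : ℝ) * if u ∈ φ T then 1 else 0)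
      (fun T _ => by positivity) (mem_univ T))
    simp [hT]
  · rintro _ ⟨w, hw, rfl⟩
    exact h w hw

lemma Gam_mono (hg : ∀ S, 0 ≤ g S) {A B : Finset U} (h : A ⊆ B) : Gam φ g A ≤ Gam φ g B :=
  le_Gam fun _ hw => Gam_le hg ⟨hw.1, fun u hu => hw.2 u (h hu)⟩

lemma Gam_empty (hg : ∀ S, 0 ≤ g S) : Gam φ g ∅ = 0 :=
  le_antisymm (by simpa using Gam_le (φ := φ) hg (Z := ∅) (w := fun _ => 0) ⟨by simp, by simp⟩)
    (le_Gam fun w hw => sum_nonneg fun T _ => mul_nonneg (hw.1 T) (hg T))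

lemma Gam_add (hg : ∀ S, 0 ≤ g S) (A B : Finset U) :
    Gam φ g (A ∪ B) ≤ Gam φ g A + Gam φ g B := by
  rw [← sub_le_iff_le_add]
  refine le_Gam fun w hw => ?_
  rw [sub_le_comm]
  refine le_Gam fun w' hw' => ?_
  rw [sub_le_iff_le_add', ← sum_add_distrib]
  simp only [← add_mul]
  refine Gam_le hg ⟨fun T => add_nonneg (hw.1 T) (hw'.1 T), fun u hu hu' => ?_⟩
  simp only [add_mul, sum_add_distrib]
  have a1 : 0 ≤ ∑ T, w T * if u ∈ φ T then 1 else 0 :=
    sum_nonneg fun T _ => mul_nonneg (hw.1 T) (by positivity)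
  have a2 : 0 ≤ ∑ T, w' T * if u ∈ φ T then 1 else 0 :=
    sum_nonneg fun T _ => mul_nonneg (hw'.1 T) (by positivity)
  rcases mem_union.1 hu with h | h
  · linarith [hw.2 u h hu']
  · linarith [hw'.2 u h hu']

lemma Gam_self (hg : ∀ S, 0 ≤ g S) (S : α) : Gam φ g (φ S) ≤ g S := by
  classical
  simpa using Gam_le (φ := φ) hg (Z := φ S) (w := fun T => if T = S then 1 else 0)
    ⟨fun T => by positivity, fun u hu _ => by simp only [ite_mul, one_mul, zero_mul]; simp [hu]⟩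

lemma Cov.le (h : Cov φ S₀ K g) (hK : 0 < K) (S S' : α) :
    g S ≤ g S' + K * Gam φ g (φ S \ φ S') := by
  rw [← sub_le_iff_le_add', ← div_le_iff₀' hK]
  refine le_Gam fun w hw => ?_
  rw [div_le_iff₀' hK]
  linarith [h.cov S S' w hw]

lemma Cov.exists_F (h : Cov φ S₀ K g) (hK : 0 < K) (h0 : φ S₀ = ∅) :
    ∃ F : Finset U → ℝ, FG F (fun Z => K * Gam φ g Z) ∧ ∀ S, F (φ S) = g S := by
  have hne : (univ : Finset α).Nonempty := ⟨S₀, mem_univ _⟩
  have hm : ∀ {A B : Finset U}, A ⊆ B → K * Gam φ g A ≤ K * Gam φ g B := fun hAB =>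
    mul_le_mul_of_nonneg_left (Gam_mono h.nn hAB) hK.le
  have ha : ∀ A B : Finset U, K * Gam φ g (A ∪ B) ≤ K * Gam φ g A + K * Gam φ g B := fun A B => by
    rw [← mul_add]; exact mul_le_mul_of_nonneg_left (Gam_add h.nn A B) hK.le
  set F : Finset U → ℝ := fun Z => univ.sup' hne fun S => g S - K * Gam φ g (φ S \ Z) with hF
  have hS : ∀ S, F (φ S) = g S := fun S => le_antisymm
    (sup'_le _ _ fun S' _ => by linarith [h.le hK S' S])
    (le_sup'_of_le _ (mem_univ S) (by simp [Gam_empty h.nn]))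
  refine ⟨F, ⟨by rw [← h0, hS, h.zero], fun hAB => sup'_le _ _ fun S _ =>
    le_sup'_of_le _ (mem_univ S) (by linarith [hm (sdiff_subset_sdiff (Subset.refl (φ S)) hAB)]),
    fun A B => sup'_le _ _ fun S _ => ?_, by simp [Gam_empty h.nn], hm, ha⟩, hS⟩
  have h1 : g S - K * Gam φ g (φ S \ A) ≤ F A := le_sup'_of_le _ (mem_univ S) le_rfl
  have h2 : φ S \ A ⊆ φ S \ (A ∪ B) ∪ B := fun u hu => by
    simp only [mem_union, mem_sdiff] at hu ⊢
    tauto
  linarith [hm h2, ha (φ S \ (A ∪ B)) B]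

variable [Fintype U] {ι : Type} [DecidableEq ι] {J : Finset ι} {f : ι → α → ℝ}

lemma shat1 (hf : ∀ e ∈ J, Cov φ S₀ K (f e)) (hK : 0 < K) (h0 : φ S₀ = ∅) (ν : Finset ι → α → ℝ)
    (ν0 : ∀ θ ∈ J.powerset, ∀ a, 0 ≤ ν θ a) (ν1 : ∀ θ ∈ J.powerset, ∑ a, ν θ a = 1) {d : ℝ}
    (hd0 : 0 < d) (hd : ∀ θ ∈ J.powerset, ∀ e ∈ J, ∑ a, ν θ a * f e a ≤ d) {l : ℝ} (hl : 0 < l) :
    ∑ θ ∈ J.powerset, ∑ e ∈ J, sg θ e * ∑ a, ν θ a * f e a ≤
      2 ^ #J * (340 * Fintype.card U / l + 6146 * l * (K * d) ^ 2 * #J) := by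
  have hF := fun e he => (hf e he).exists_F hK h0
  choose! F hF hF' using hF
  have hJ : (0 : ℝ) < 2 ^ #J := by positivity
  refine le_trans (le_of_eq ?_) (core (φ := φ) J ν ν0 ν1
    (fun u => (∑ θ ∈ J.powerset, ∑ a, ν θ a * if u ∈ φ a then 1 else 0) / 2 ^ #J)
    (fun u => by field_simp) hF (mul_pos hK hd0) (fun θ hθ e he => ?_)
    (fun e he A y hy hA => ?_) hl)
  · exact sum_congr rfl fun θ _ => sum_congr rfl fun e he => by simp only [hF' e he]
  · refine le_trans ?_ (mul_le_mul_of_nonneg_left (hd θ hθ e he) hK.le)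
    rw [mul_sum]
    refine sum_le_sum fun a _ => ?_
    rw [mul_left_comm]
    exact mul_le_mul_of_nonneg_left
      (mul_le_mul_of_nonneg_left (Gam_self (hf e he).nn a) (ν0 θ hθ a)) hK.le
  · rw [mul_div_assoc]
    refine mul_le_mul_of_nonneg_left ((Gam_le (hf e he).nn
      (w := fun a => (2 ^ #J * y)⁻¹ * ∑ θ ∈ J.powerset, ν θ a) ⟨fun a => mul_nonneg (by positivity)
        (sum_nonneg fun θ hθ => ν0 θ hθ a), fun u hu _ => ?_⟩).trans ?_) hK.le
    · have := hA u hu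
      rw [le_div_iff₀ hJ, sum_comm] at this
      simp only [mul_assoc, ← mul_sum]
      simp only [sum_mul]
      rw [← div_eq_inv_mul, le_div_iff₀ (by positivity)]
      linarith
    · simp only [mul_assoc, ← mul_sum]
      simp only [sum_mul]
      rw [sum_comm]
      calc _ ≤ (2 ^ #J * y)⁻¹ * ∑ θ ∈ J.powerset, d :=
            mul_le_mul_of_nonneg_left (sum_le_sum fun θ hθ => hd θ hθ e he) (by positivity)
        _ = _ := by simp; field_simp

theorem shat (hf : ∀ e ∈ J, Cov φ S₀ K (f e)) (hK : 0 < K) (h0 : φ S₀ = ∅) {D : ℝ} (hD : 0 < D)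
    (h : ∀ θ ⊆ J, ∃ w : α → ℝ, ∀ e ∈ J, ∑ a, w a * f e a = sg θ e ∧ ∑ a, |w a| * f e a ≤ D) :
    (#J : ℝ) ≤ 2 ^ 25 * K ^ 2 * D ^ 2 * Fintype.card U := by
  classical
  choose! w hw using h
  set M := 1 + ∑ θ ∈ J.powerset, ∑ a, |w θ a| with hM
  have hM1 : ∀ θ ⊆ J, ∑ a, |w θ a| ≤ M := fun θ hθ => by
    have := single_le_sum (f := fun θ => ∑ a, |w θ a|)
      (fun θ _ => sum_nonneg fun a _ => abs_nonneg _) (mem_powerset.2 hθ)
    linarith
  have hM0 : 0 < M := add_pos_of_pos_of_nonneg one_pos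
    (sum_nonneg fun θ _ => sum_nonneg fun a _ => abs_nonneg _)
  have key : ∀ x : Finset ι → α → ℝ, (∀ θ a, 0 ≤ x θ a) → (∀ θ ⊆ J, ∑ a, x θ a ≤ M) →
      (∀ θ ⊆ J, ∀ e ∈ J, ∑ a, x θ a * f e a ≤ D) →
      ∑ θ ∈ J.powerset, ∑ e ∈ J, sg θ e * ∑ a, x θ a * f e a ≤
        2 ^ #J * (340 * 24584 * K ^ 2 * D ^ 2 * Fintype.card U + #J / 4) := fun x x0 x1 x2 => by
    have e : ∀ θ, ∀ e ∈ J, ∑ a, (x θ a / M + if a = S₀ then 1 - (∑ a, x θ a) / M else 0) * f e a =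
        (∑ a, x θ a * f e a) / M := fun θ e he => by
      simp [add_mul, sum_add_distrib, (hf e he).zero, sum_div, div_mul_eq_mul_div]
    have := shat1 hf hK h0 (fun θ a => x θ a / M + if a = S₀ then 1 - (∑ a, x θ a) / M else 0)
      (fun θ hθ a => add_nonneg (div_nonneg (x0 θ a) hM0.le) (by
        split_ifs
        exacts [sub_nonneg.2 ((div_le_one hM0).2 (x1 θ (mem_powerset.1 hθ))), le_rfl]))
      (fun θ _ => by simp [sum_add_distrib, sum_div]) (div_pos hD hM0)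
      (fun θ hθ e' he => by
        rw [e θ e' he]; exact div_le_div_of_nonneg_right (x2 θ (mem_powerset.1 hθ) e' he) hM0.le)
      (l := M / (24584 * K ^ 2 * D ^ 2)) (by positivity)
    rw [sum_congr rfl fun θ _ => sum_congr rfl fun e' he => by rw [e θ e' he]] at this
    simp only [← mul_div_assoc, ← sum_div] at this
    rw [div_le_iff₀ hM0] at this
    refine this.trans (le_of_eq ?_)
    field_simp
    ring
  have k1 := key (fun θ a => max (w θ a) 0) (fun θ a => le_max_right _ _)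
    (fun θ hθ => (sum_le_sum fun a _ => max_le (le_abs_self _) (abs_nonneg _)).trans (hM1 θ hθ))
    (fun θ hθ e he => (sum_le_sum fun a _ => mul_le_mul_of_nonneg_right
      (max_le (le_abs_self _) (abs_nonneg _)) ((hf e he).nn a)).trans (hw θ hθ e he).2)
  have k2 := key (fun θ a => max (-w (J \ θ) a) 0) (fun θ a => le_max_right _ _)
    (fun θ _ => (sum_le_sum fun a _ => max_le (neg_le_abs _) (abs_nonneg _)).trans
      (hM1 _ sdiff_subset))
    (fun θ _ e he => (sum_le_sum fun a _ => mul_le_mul_of_nonneg_right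
      (max_le (neg_le_abs _) (abs_nonneg _)) ((hf e he).nn a)).trans (hw _ sdiff_subset e he).2)
  have e1 : ∑ θ ∈ J.powerset, ∑ e ∈ J, sg θ e * ∑ a, max (-w (J \ θ) a) 0 * f e a =
      ∑ θ ∈ J.powerset, ∑ e ∈ J, -sg θ e * ∑ a, max (-w θ a) 0 * f e a := by
    refine sum_nbij' (fun θ => J \ θ) (fun θ => J \ θ) (fun θ _ => mem_powerset.2 sdiff_subset)
      (fun θ _ => mem_powerset.2 sdiff_subset)
      (fun θ hθ => Finset.sdiff_sdiff_eq_self (mem_powerset.1 hθ))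
      (fun θ hθ => Finset.sdiff_sdiff_eq_self (mem_powerset.1 hθ)) fun θ _ =>
      sum_congr rfl fun e he => ?_
    congr 1
    by_cases c : e ∈ θ <;> simp [sg, he, c]
  have e2 : ∑ θ ∈ J.powerset, ∑ e ∈ J, sg θ e * ∑ a, max (w θ a) 0 * f e a +
      ∑ θ ∈ J.powerset, ∑ e ∈ J, -sg θ e * ∑ a, max (-w θ a) 0 * f e a = 2 ^ #J * #J := by
    simp only [← sum_add_distrib]
    rw [sum_congr rfl fun θ hθ => sum_congr rfl fun e he => show _ = (1 : ℝ) from ?_]
    · simp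
    · have e3 : ∑ a, max (w θ a) 0 * f e a - ∑ a, max (-w θ a) 0 * f e a = sg θ e := by
        rw [← (hw θ (mem_powerset.1 hθ) e he).1, ← sum_sub_distrib]
        exact sum_congr rfl fun a _ => by rw [← sub_mul, max_zero_sub_max_neg_zero_eq_self]
      rw [neg_mul, ← sub_eq_add_neg, ← mul_sub, e3]
      unfold sg
      split_ifs <;> norm_num
  rw [e1] at k2
  have e3 : (2 : ℝ) ^ #J * #J ≤
      2 ^ #J * (2 * (340 * 24584 * K ^ 2 * D ^ 2 * Fintype.card U + #J / 4)) := by linarith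
  have e4 := le_of_mul_le_mul_left e3 (by positivity)
  have e5 : 0 ≤ K ^ 2 * D ^ 2 * Fintype.card U := by positivity
  nlinarith

end Pool.Agent.Lib.MP_348529_lc.X
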