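import Pool.Agent.Lib.MP_348529_lc.XEx

/-!
Variance and information bounds for one term of the multiscale decomposition.
-/

namespace Pool.Agent.Lib.MP_348529_lc.X

open Finset

variable {α U : Type} [Fintype α] [Fintype U] [DecidableEq U]

/-- The union of the displayed sets of a batch. -/
def R (φ : α → Finset U) (x : Multiset α) : Finset U := (x.map φ).sup

variable {φ : α → Finset U}

omit [Fintype α] [Fintype U] in
lemma R_add (x y : Multiset α) : R φ (x + y) = R φ x ∪ R φ y := by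
  simp [R, Multiset.sup_add]

omit [Fintype α] [Fintype U] in
@[simp] lemma R_single (a : α) : R φ {a} = φ a := by simp [R]

omit [Fintype α] [Fintype U] in
@[simp] lemma R_zero : R φ 0 = ∅ := by simp [R]

/-- A monotone statistic `F` that is Lipschitz for the monotone subadditive function `Γ`. -/
structure FG (F Γ : Finset U → ℝ) : Prop where
  F0 : F ∅ = 0
  Fmono : ∀ {A B}, A ⊆ B → F A ≤ F B
  Fadd : ∀ A B, F (A ∪ B) ≤ F A + Γ B
  G0 : Γ ∅ = 0
  Gmono : ∀ {A B}, A ⊆ B → Γ A ≤ Γ B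
  Gadd : ∀ A B, Γ (A ∪ B) ≤ Γ A + Γ B

namespace FG

variable {F Γ : Finset U → ℝ} (h : FG F Γ)

omit [Fintype U]

include h

lemma Fnn (A : Finset U) : 0 ≤ F A := h.F0 ▸ h.Fmono (empty_subset A)

lemma Gnn (A : Finset U) : 0 ≤ Γ A := h.G0 ▸ h.Gmono (empty_subset A)

lemma FleG (A : Finset U) : F A ≤ Γ A := by
  have := h.Fadd ∅ A
  rwa [empty_union, h.F0, zero_add] at this

omit [Fintype α] in
lemma min_le_sum {v : ℝ} (hv : 0 ≤ v) (x : Multiset α) :
    min (Γ (R φ x)) v ≤ (x.map fun a => min (Γ (φ a)) v).sum := by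
  induction x using Multiset.induction_on with
  | empty => simp [h.G0]
  | cons a x ih =>
    rw [← Multiset.singleton_add, R_add, R_single, Multiset.map_add, Multiset.sum_add]
    simp only [Multiset.map_singleton, Multiset.sum_singleton]
    have h1 := h.Gadd (φ a) (R φ x)
    have h2 := h.Gnn (φ a)
    have h3 := h.Gnn (R φ x)
    refine le_trans ?_ (add_le_add le_rfl ih)
    rcases le_total (Γ (φ a)) v with h4 | h4 <;> rcases le_total (Γ (R φ x)) v with h5 | h5 <;>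
      simp only [min_eq_left, min_eq_right, h4, h5, min_le_iff] <;> first | (left; linarith) | (right; linarith)

end FG

/-- The properties of one piece of the decomposition. -/
structure Pc (G Γ : Finset U → ℝ) (B v : ℝ) : Prop where
  nn : ∀ A, 0 ≤ G A
  le : ∀ A, G A ≤ B
  lip : ∀ A A', |G (A ∪ A') - G A| ≤ Γ A'
  leG : ∀ A, G A ≤ Γ A
  zero : ∀ A, Γ A ≤ v → G A = 0

section var

variable {ν : α → ℝ} (h0 : ∀ a, 0 ≤ ν a) (h1 : ∑ a, ν a = 1) {F Γ G : Finset U → ℝ} (h : FG F Γ)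
  {δ B v : ℝ} (hδ : ∑ a, ν a * Γ (φ a) ≤ δ) (hv : 0 < v) {k : ℕ} (hk : 2 ^ k * δ ≤ v / 4)

omit [Fintype U]

include h0 h1 h hδ hv hk

lemma exists_T : ∃ T : Multiset α → ℝ, (∀ x, 0 ≤ T x) ∧ (∀ x, v / 2 < Γ (R φ x) → 1 ≤ T x) ∧
    Ex ν k T ≤ 16 * 2 ^ k * (∑ a, ν a * min (Γ (φ a)) v ^ 2) / v ^ 2 := by
  set Y : α → ℝ := fun a => min (Γ (φ a)) v with hY
  refine ⟨fun x => 16 / v ^ 2 * ((x.map Y).sum - 2 ^ k * ∑ a, ν a * Y a) ^ 2,
    fun x => by positivity, fun x hx => ?_, ?_⟩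
  · have h2 := h.min_le_sum (φ := φ) hv.le x
    have h3 : v / 2 < min (Γ (R φ x)) v := lt_min hx (by linarith)
    have h4 : ∑ a, ν a * Y a ≤ δ :=
      (sum_le_sum fun a _ => mul_le_mul_of_nonneg_left (min_le_left _ _) (h0 a)).trans hδ
    have h5 : 2 ^ k * ∑ a, ν a * Y a ≤ v / 4 :=
      (mul_le_mul_of_nonneg_left h4 (by positivity)).trans hk
    have h6 : v / 4 ≤ (x.map Y).sum - 2 ^ k * ∑ a, ν a * Y a := by linarith
    have h7 := pow_le_pow_left₀ (by positivity) h6 2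
    beta_reduce
    rw [div_mul_eq_mul_div, le_div_iff₀ (by positivity)]
    nlinarith
  · rw [Pr.mul]
    have := (Ex_var h0 h1 Y k).2
    calc _ ≤ 16 / v ^ 2 * (2 ^ k * ∑ a, ν a * Y a ^ 2) :=
          mul_le_mul_of_nonneg_left this (by positivity)
      _ = _ := by ring

lemma var_top (hG : Pc G Γ B v) : E2 ν k (fun p => G (R φ p.1) ^ 2) ≤
    B ^ 2 * (16 * 2 ^ k * (∑ a, ν a * min (Γ (φ a)) v ^ 2) / v ^ 2) := by
  obtain ⟨T, T0, T1, T2⟩ := exists_T h0 h1 h hδ hv hk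
  rw [E2_fst h0 h1 k fun x => G (R φ x) ^ 2]
  refine ((pr_Ex h0 h1 k).mono (g := fun x => B ^ 2 * T x) fun x => ?_).trans ?_
  · by_cases hx : Γ (R φ x) ≤ v
    · rw [hG.zero _ hx]
      have := T0 x
      simpa using by positivity
    · have h2 := T1 x (by linarith [not_le.1 hx])
      have h3 := pow_le_pow_left₀ (hG.nn (R φ x)) (hG.le _) 2
      nlinarith [sq_nonneg B]
  · rw [Pr.mul]
    exact mul_le_mul_of_nonneg_left T2 (sq_nonneg _)

lemma var_mid (hG : Pc G Γ B v) :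
    E2 ν k (fun p => (G (R φ p.1) + G (R φ p.2) - G (R φ p.1 ∪ R φ p.2)) ^ 2) ≤
    8 * B * (2 ^ k * δ) * (16 * 2 ^ k * (∑ a, ν a * min (Γ (φ a)) v ^ 2) / v ^ 2) := by
  obtain ⟨T, T0, T1, T2⟩ := exists_T h0 h1 h hδ hv hk
  have hB : 0 ≤ B := (hG.nn ∅).trans (hG.le ∅)
  have hE : Ex ν k (fun x => Γ (R φ x)) ≤ 2 ^ k * δ := by
    refine (Ex_subadd h0 h1 (fun x y => by rw [R_add]; exact h.Gadd _ _) k).trans ?_
    rw [Ex_zero]
    simp only [R_single]
    exact mul_le_mul_of_nonneg_left hδ (by positivity)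
  have hE0 : 0 ≤ Ex ν k (fun x => Γ (R φ x)) := (pr_Ex h0 h1 k).nonneg fun x => h.Gnn _
  have hT0 : 0 ≤ Ex ν k T := (pr_Ex h0 h1 k).nonneg T0
  refine ((pr_E2 h0 h1 k).mono (g := fun p => 4 * B * (T p.1 * Γ (R φ p.2)) +
    4 * B * (Γ (R φ p.1) * T p.2)) fun p => ?_).trans ?_
  · set A := R φ p.1
    set A' := R φ p.2
    have a1 := h.Gnn A
    have a2 := h.Gnn A'
    have a3 := T0 p.1
    have a4 := T0 p.2
    have b1 : |G A + G A' - G (A ∪ A')| ≤ 2 * B := abs_le.2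
      ⟨by linarith [hG.nn A, hG.nn A', hG.le (A ∪ A')],
        by linarith [hG.le A, hG.le A', hG.nn (A ∪ A')]⟩
    have b2 : |G A + G A' - G (A ∪ A')| ≤ 2 * Γ A' := by
      have := abs_le.1 (hG.lip A A')
      exact abs_le.2 ⟨by linarith [hG.nn A'], by linarith [hG.leG A']⟩
    have b3 : |G A + G A' - G (A ∪ A')| ≤ 2 * Γ A := by
      have := abs_le.1 (hG.lip A' A)
      rw [union_comm] at this
      exact abs_le.2 ⟨by linarith [hG.nn A], by linarith [hG.leG A]⟩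
    rw [← sq_abs]
    set X := |G A + G A' - G (A ∪ A')|
    have hX : 0 ≤ X := abs_nonneg _
    by_cases c1 : v / 2 < Γ A
    · have c2 := T1 _ c1
      have c3 : X ^ 2 ≤ 2 * B * (2 * Γ A') := by rw [sq]; exact mul_le_mul b1 b2 hX (by positivity)
      have c4 : B * Γ A' ≤ B * Γ A' * T p.1 := le_mul_of_one_le_right (by positivity) c2
      have c5 : 0 ≤ B * (Γ A * T p.2) := by positivity
      nlinarith
    by_cases c1' : v / 2 < Γ A'
    · have c2 := T1 _ c1'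
      have c3 : X ^ 2 ≤ 2 * B * (2 * Γ A) := by rw [sq]; exact mul_le_mul b1 b3 hX (by positivity)
      have c4 : B * Γ A ≤ B * Γ A * T p.2 := le_mul_of_one_le_right (by positivity) c2
      have c5 : 0 ≤ B * (T p.1 * Γ A') := by positivity
      nlinarith
    have c2 : X = 0 := by
      simp only [X]
      rw [hG.zero A (by linarith), hG.zero A' (by linarith),
        hG.zero (A ∪ A') (by linarith [h.Gadd A A'])]
      simp
    rw [c2]
    simpa using by positivity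
  · rw [Pr.add, Pr.mul, Pr.mul, E2_mul k T fun x => Γ (R φ x), E2_mul k (fun x => Γ (R φ x)) T]
    have := mul_le_mul T2 hE hE0 (hT0.trans T2)
    nlinarith [mul_le_mul_of_nonneg_left this hB]

end var

/-- The information bound for the message that shows the two unions inside `W`. -/
lemma term {ι : Type} [DecidableEq ι] (J : Finset ι) (ν : Finset ι → α → ℝ)
    (h0 : ∀ θ ∈ J.powerset, ∀ a, 0 ≤ ν θ a) (h1 : ∀ θ ∈ J.powerset, ∑ a, ν θ a = 1) (π : U → ℝ)
    (hπ : ∀ u, ∑ θ ∈ J.powerset, ∑ a, ν θ a * (if u ∈ φ a then 1 else 0) = 2 ^ #J * π u)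
    (W : Finset U) (r : U → ℝ) (hr : ∀ u, 0 < r u) (k : ℕ) (f : ι → Finset U × Finset U → ℝ)
    {l : ℝ} (hl : 0 < l) :
    ∑ θ ∈ J.powerset, ∑ e ∈ J, sg θ e * E2 (ν θ) k (fun p => f e (R φ p.1 ∩ W, R φ p.2 ∩ W)) ≤
      2 ^ #J * (2 * ∑ u ∈ W, (r u + 2 ^ k * π u / r u)) / l +
        l / 2 * ∑ θ ∈ J.powerset, ∑ e ∈ J,
          E2 (ν θ) k (fun p => f e (R φ p.1 ∩ W, R φ p.2 ∩ W) ^ 2) := by
  classical
  set r' : U → ℝ := fun u => if u ∈ W then r u else 0 with hr'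
  have hr0 : ∀ u, 0 ≤ r' u := fun u => by
    simp only [hr']; split_ifs; exacts [(hr u).le, le_rfl]
  have hp : ∀ A : Finset U, ∏ u ∈ A ∩ W, r' u = ∏ u ∈ A ∩ W, r u := fun A =>
    prod_congr rfl fun u hu => if_pos (mem_inter.1 hu).2
  have hs : ∑ z : Finset U, ∏ u ∈ z, r' u ≤ Real.exp (∑ u ∈ W, r u) := by
    rw [← powerset_univ, ← prod_one_add]
    refine (prod_le_prod (fun u _ => by linarith [hr0 u]) fun u _ =>
      (add_comm _ _).trans_le (Real.add_one_le_exp (r' u))).trans ?_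
    rw [← Real.exp_sum]
    simp [hr']
  have key := info J (fun θ => E2 (ν θ) k) (fun θ hθ => pr_E2 (h0 θ hθ) (h1 θ hθ) k)
    (fun p => (R φ p.1 ∩ W, R φ p.2 ∩ W)) (fun z => (∏ u ∈ z.1, r' u) * ∏ u ∈ z.2, r' u)
    (fun z => mul_nonneg (prod_nonneg fun u _ => hr0 u) (prod_nonneg fun u _ => hr0 u))
    (fun p => by
      simp only [hp]
      exact mul_pos (prod_pos fun u _ => hr u) (prod_pos fun u _ => hr u))
    (L := ∑ u ∈ W, r u + ∑ u ∈ W, r u) (by
      rw [Fintype.sum_prod_type]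
      dsimp only
      rw [← sum_mul_sum, Real.exp_add]
      exact mul_le_mul hs hs (sum_nonneg fun z _ => prod_nonneg fun u _ => hr0 u)
        (Real.exp_pos _).le) (fun e z => l * f e z)
  have e1 : ∀ A : Finset U, -Real.log (∏ u ∈ A ∩ W, r u) ≤
      ∑ u ∈ W, (r u)⁻¹ * (if u ∈ A then 1 else 0) := fun A => by
    rw [Real.log_prod fun u _ => (hr u).ne', ← sum_neg_distrib, inter_comm, ← filter_mem_eq_inter,
      sum_filter]
    refine sum_le_sum fun u _ => ?_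
    split_ifs
    · rw [← Real.log_inv, mul_one]
      exact (Real.log_le_sub_one_of_pos (inv_pos.2 (hr u))).trans (by linarith)
    · simp
  have e2 : ∀ θ ∈ J.powerset, E2 (ν θ) k (fun p => -Real.log ((∏ u ∈ R φ p.1 ∩ W, r' u) *
      ∏ u ∈ R φ p.2 ∩ W, r' u)) ≤
      ∑ u ∈ W, 2 * 2 ^ k * (r u)⁻¹ * ∑ a, ν θ a * (if u ∈ φ a then 1 else 0) := fun θ hθ => by
    refine ((pr_E2 (h0 θ hθ) (h1 θ hθ) k).mono
      (g := fun p => ∑ u ∈ W, (r u)⁻¹ * (if u ∈ R φ p.1 then 1 else 0) +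
        ∑ u ∈ W, (r u)⁻¹ * (if u ∈ R φ p.2 then 1 else 0)) fun p => ?_).trans ?_
    · rw [hp, hp, Real.log_mul (prod_pos fun u _ => hr u).ne' (prod_pos fun u _ => hr u).ne']
      linarith [e1 (R φ p.1), e1 (R φ p.2)]
    · rw [Pr.add, E2_fst (h0 θ hθ) (h1 θ hθ) k
          fun x => ∑ u ∈ W, (r u)⁻¹ * (if u ∈ R φ x then 1 else 0),
        E2_snd (h0 θ hθ) (h1 θ hθ) k fun x => ∑ u ∈ W, (r u)⁻¹ * (if u ∈ R φ x then 1 else 0),
        Pr.sum, ← sum_add_distrib]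
      refine sum_le_sum fun u _ => ?_
      rw [Pr.mul]
      have := Ex_subadd (h0 θ hθ) (h1 θ hθ) (f := fun x => if u ∈ R φ x then (1 : ℝ) else 0)
        (fun x y => by
          simp only [R_add, mem_union]
          split_ifs <;> simp_all) k
      rw [Ex_zero] at this
      simp only [R_single] at this
      have h3 := mul_le_mul_of_nonneg_left this (inv_pos.2 (hr u)).le
      linarith
  have e3 := sum_le_sum e2
  rw [sum_comm] at e3
  simp only [← mul_sum, hπ] at e3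
  have e4 : ∑ θ ∈ J.powerset, E2 (ν θ) k (fun p => ∑ e ∈ J, sg θ e *
      (l * f e (R φ p.1 ∩ W, R φ p.2 ∩ W))) = l * ∑ θ ∈ J.powerset, ∑ e ∈ J,
        sg θ e * E2 (ν θ) k (fun p => f e (R φ p.1 ∩ W, R φ p.2 ∩ W)) := by
    simp only [Pr.sum, Pr.mul, mul_sum]
    exact sum_congr rfl fun θ _ => sum_congr rfl fun e _ => by ring
  have e5 : ∑ θ ∈ J.powerset, E2 (ν θ) k (fun p => ∑ e ∈ J,
      (l * f e (R φ p.1 ∩ W, R φ p.2 ∩ W)) ^ 2 / 2) = l ^ 2 / 2 * ∑ θ ∈ J.powerset, ∑ e ∈ J,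
        E2 (ν θ) k (fun p => f e (R φ p.1 ∩ W, R φ p.2 ∩ W) ^ 2) := by
    simp only [Pr.sum, mul_sum]
    refine sum_congr rfl fun θ _ => sum_congr rfl fun e _ => ?_
    rw [← Pr.mul]
    congr 1; ext p; ring
  simp only [e4, e5] at key
  have e6 : ∑ u ∈ W, 2 * 2 ^ k * (r u)⁻¹ * (2 ^ #J * π u) =
      2 ^ #J * (2 * ∑ u ∈ W, 2 ^ k * π u / r u) := by
    rw [mul_sum, mul_sum]
    exact sum_congr rfl fun u _ => by ring
  rw [e6] at e3
  rw [sum_add_distrib, ← mul_le_mul_iff_right₀ hl]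
  have e7 : ∀ a b : ℝ, l * (a / l + l / 2 * b) = a + l ^ 2 / 2 * b := fun a b => by field_simp
  rw [e7]
  linarith

end Pool.Agent.Lib.MP_348529_lc.X
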