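import Pool.Agent.Lib.MP_348529_lc.YVar
import Pool.Agent.Lib.MP_348529_lc.XCore

/-!
The correlation bound on a finite abelian group: batches are hidden in a sum of decoy batches.
-/

namespace Pool.Agent.Lib.MP_348529_lc.X

open Finset

variable {G ι : Type} [Fintype G] [DecidableEq ι]

/-- The uniform mixture over sign patterns. -/
noncomputable def mix (J : Finset ι) (P : Finset ι → G → ℝ) (z : G) : ℝ :=
  (∑ θ ∈ J.powerset, P θ z) / 2 ^ #J

omit [DecidableEq ι] in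
lemma Ev_mix (J : Finset ι) (P : Finset ι → G → ℝ) (f : G → ℝ) :
    Ev (mix J P) f = (∑ θ ∈ J.powerset, Ev (P θ) f) / 2 ^ #J := by
  simp only [Ev_apply, mix, div_mul_eq_mul_div, sum_mul, ← sum_div]
  rw [sum_comm]

omit [DecidableEq ι] in
lemma avg_le {J : Finset ι} {x : Finset ι → ℝ} {c : ℝ} (h : ∀ θ ∈ J.powerset, x θ ≤ c) :
    (∑ θ ∈ J.powerset, x θ) / 2 ^ #J ≤ c := by
  rw [div_le_iff₀ (by positivity)]
  exact (sum_le_sum h).trans (by simp [mul_comm])

omit [DecidableEq ι] in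
lemma prob_mix {J : Finset ι} {P : Finset ι → G → ℝ} (h : ∀ θ ∈ J.powerset, Prob (P θ)) :
    Prob (mix J P) :=
  ⟨fun z => div_nonneg (sum_nonneg fun θ hθ => (h θ hθ).nn z) (by positivity), by
    simp only [mix, ← sum_div]
    rw [sum_comm, sum_congr rfl fun θ hθ => (h θ hθ).one]
    simp⟩

omit [DecidableEq ι] in
lemma good_mix {J : Finset ι} {P : Finset ι → G → ℝ} {Y : G → ℝ} {a : ℝ} {s : Finset ι → ℝ}
    (h : ∀ θ ∈ J.powerset, Good Y (P θ) a (s θ)) :
    Good Y (mix J P) a ((∑ θ ∈ J.powerset, s θ) / 2 ^ #J) := by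
  refine ⟨prob_mix fun θ hθ => (h θ hθ).prob, by
    rw [Ev_mix]; exact avg_le fun θ hθ => (h θ hθ).mean, fun l => ?_⟩
  rw [Ev_mix, ← sub_le_iff_le_add', ← sub_div, ← sum_sub_distrib]
  exact avg_le fun θ hθ => by linarith [(h θ hθ).fl l]

lemma sum_sg_add (J : Finset ι) (x : Finset ι → ι → ℝ) (c : ι → ℝ) :
    ∑ θ ∈ J.powerset, ∑ e ∈ J, sg θ e * (x θ e + c e) =
      ∑ θ ∈ J.powerset, ∑ e ∈ J, sg θ e * x θ e := by
  simp only [mul_add, sum_add_distrib, add_eq_left]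
  rw [sum_comm]
  exact sum_eq_zero fun e he => by rw [← sum_mul, sum_sg he, zero_mul]

lemma num (d : ℕ) : (2 : ℝ) ^ (d / 2) * (7 / 6) ^ d * (14400 / 4 ^ (d / 2) + 38592 / 2 ^ d) ≤
    70656 * (7 / 8) ^ d := by
  have h1 : (2 : ℝ) ^ (d / 2) * 2 ^ (d / 2) ≤ 2 ^ d := by
    rw [← pow_add]; exact pow_le_pow_right₀ one_le_two (by omega)
  have h2 : (3 / 4 : ℝ) * (2 ^ (d / 2))⁻¹ ≤ (3 / 4) ^ d := by
    refine le_trans ?_ (pow_le_pow_of_le_one (by norm_num) (by norm_num)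
      (show d ≤ 2 * (d / 2) + 1 by omega))
    rw [pow_succ', pow_mul, ← inv_pow]
    exact mul_le_mul_of_nonneg_left (pow_le_pow_left₀ (by norm_num) (by norm_num) _) (by norm_num)
  have h3 : (4 : ℝ) ^ (d / 2) = 2 ^ (d / 2) * 2 ^ (d / 2) := by rw [← mul_pow]; norm_num
  calc _ ≤ (2 : ℝ) ^ (d / 2) * (7 / 6) ^ d *
        (14400 / 4 ^ (d / 2) + 38592 / (2 ^ (d / 2) * 2 ^ (d / 2))) := by gcongr
    _ = 70656 * ((7 / 6) ^ d * (3 / 4 * (2 ^ (d / 2))⁻¹)) := by rw [h3]; field_simp; ring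
    _ ≤ 70656 * ((7 / 6) ^ d * (3 / 4) ^ d) := by gcongr
    _ = _ := by rw [← mul_pow]; norm_num

variable [AddCommGroup G] [DecidableEq G]

/-- The law of a sum of `2 ^ k` samples. -/
def bat (p : G → ℝ) : ℕ → G → ℝ
  | 0 => p
  | k + 1 => conv (bat p k) (bat p k)

/-- The law of the noise at stage `k`. -/
noncomputable def noi (J : Finset ι) (ν : Finset ι → G → ℝ) : ℕ → G → ℝ
  | 0 => Pi.single 0 1
  | k + 1 => conv (mix J fun θ => bat (ν θ) k) (noi J ν k)

lemma Ev_single (f : G → ℝ) : Ev (Pi.single 0 1) f = f 0 := by simp [Ev_apply, Pi.single_apply]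

lemma prob_single : Prob (Pi.single (0 : G) (1 : ℝ)) :=
  ⟨fun a => by rw [Pi.single_apply]; positivity, by simp⟩

omit [DecidableEq G] in
lemma Prob.bat {p : G → ℝ} (h : Prob p) (k : ℕ) : Prob (bat p k) := by
  induction k with
  | zero => exact h
  | succ k ih => exact ih.conv ih

omit [DecidableEq G] in
lemma Good.bat {Y p : G → ℝ} {a s : ℝ} (hY : ∀ x y, Y (x + y) ≤ Y x + Y y) (h : Good Y p a s)
    (k : ℕ) : Good Y (bat p k) (2 ^ k * a) (2 ^ k * s) := by
  induction k with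
  | zero => simpa [X.bat] using h
  | succ k ih => exact (ih.conv hY ih).mono (le_of_eq (by ring)) (le_of_eq (by ring))

variable {J : Finset ι} {ν : Finset ι → G → ℝ} (hν : ∀ θ ∈ J.powerset, Prob (ν θ))

include hν

omit [DecidableEq ι] in
lemma prob_noi (k : ℕ) : Prob (noi J ν k) := by
  induction k with
  | zero => exact prob_single
  | succ k ih => exact (prob_mix fun θ hθ => (hν θ hθ).bat k).conv ih

omit [DecidableEq ι] in
lemma stage (k : ℕ) : ∃ h : Finset ι → ℝ,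
    (∀ θ ∈ J.powerset, DV (Ev (conv (bat (ν θ) k) (noi J ν k))) (Ev (noi J ν (k + 1))) (h θ)) ∧
    ∑ θ ∈ J.powerset, h θ = 2 ^ #J * (Ent (noi J ν (k + 1)) - Ent (noi J ν k)) := by
  have e : noi J ν (k + 1) = mix J fun θ => conv (bat (ν θ) k) (noi J ν k) := Ev_ext fun f => by
    simp only [noi, Ev_conv, Ev_mix]
  refine ⟨_, fun θ hθ => dv_conv ((hν θ hθ).bat k) (prob_noi hν k) (prob_noi hν _) fun z hz => ?_,
    ?_⟩
  · have := fun θ hθ => (((hν θ hθ).bat k).conv (prob_noi hν k)).nn z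
    rw [e]
    exact (div_pos (sum_pos' this ⟨θ, hθ, (this θ hθ).lt_of_ne' hz⟩) (by positivity)).ne'
  · have := Ev_mix J (fun θ => conv (bat (ν θ) k) (noi J ν k)) fun z => Real.log (noi J ν (k + 1) z)
    rw [← e, eq_div_iff (by positivity)] at this
    rw [sum_sub_distrib, ← this, Ent.eq_1 (noi J ν (k + 1))]
    simp only [sum_const, card_powerset, nsmul_eq_mul, Nat.cast_pow, Nat.cast_ofNat]
    ring

omit [DecidableEq ι] in
lemma stage_nn (k : ℕ) : 0 ≤ Ent (noi J ν (k + 1)) - Ent (noi J ν k) := by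
  obtain ⟨h, h1, h2⟩ := stage hν k
  refine nonneg_of_mul_nonneg_right ?_ (show (0 : ℝ) < 2 ^ #J by positivity)
  rw [← h2]
  refine sum_nonneg fun θ hθ => ?_
  have := h1 θ hθ fun _ => 0
  simpa only [Real.exp_zero, (prob_noi hν _).pr.const,
    (((hν θ hθ).bat k).conv (prob_noi hν k)).pr.const, Real.log_one, add_zero] using this

lemma level {φ Y : ι → G → ℝ} {δ : ℝ} (hδ0 : 0 < δ) (i : ℕ)
    (hφ : ∀ e ∈ J, Ph (φ e) (Y e) (2 ^ (i + 2) * (8 * δ))) (hY : ∀ e ∈ J, Y e 0 = 0)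
    (hδ : ∀ θ ∈ J.powerset, ∀ e ∈ J, Ev (ν θ) (Y e) ≤ δ) {l : ℝ} (hl : 0 < l) :
    ∑ θ ∈ J.powerset, ∑ e ∈ J, sg θ e * Ev (ν θ) (φ e) ≤
      2 * 2 ^ #J / l * ∑ k ∈ range (i + 1),
        (Ent (noi J ν (k + 1)) - Ent (noi J ν k)) * (6 / 7) ^ (i - k) +
      565248 * l * δ * ∑ θ ∈ J.powerset, ∑ e ∈ J,
        Ev (ν θ) (fun x => Y e x ^ 2) / (2 ^ (i + 2) * (8 * δ)) := by
  set v := 2 ^ (i + 2) * (8 * δ) with hv
  have hv0 : 0 < v := by positivity
  set Q : Finset ι → ι → ℝ := fun θ e => Ev (ν θ) fun x => Y e x ^ 2 with hQ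
  set Q' : ι → ℝ := fun e => (∑ θ ∈ J.powerset, Q θ e) / 2 ^ #J with hQ'
  have Q0 : ∀ θ ∈ J.powerset, ∀ e, 0 ≤ Q θ e := fun θ hθ e =>
    (hν θ hθ).pr.nonneg fun _ => sq_nonneg _
  have Q1 : ∀ e, 0 ≤ Q' e := fun e => div_nonneg (sum_nonneg fun θ hθ => Q0 θ hθ e) (by positivity)
  have Q2 : ∀ θ ∈ J.powerset, ∀ e ∈ J, Q θ e ≤ v * δ := fun θ hθ e he => by
    refine ((hν θ hθ).pr.mono (g := fun z => v * Y e z) fun z => ?_).trans ?_
    · rw [sq]; exact mul_le_mul_of_nonneg_right ((hφ e he).le z) ((hφ e he).nn z)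
    · rw [Pr.mul]; exact mul_le_mul_of_nonneg_left (hδ θ hθ e he) hv0.le
  have Q3 : ∀ e ∈ J, Q' e ≤ v * δ := fun e he => avg_le fun θ hθ => Q2 θ hθ e he
  have g1 : ∀ θ ∈ J.powerset, ∀ e ∈ J, ∀ k, Good (Y e) (bat (ν θ) k) (2 ^ k * δ) (2 ^ k * Q θ e) :=
    fun θ hθ e he k => (good_base (hν θ hθ) (hφ e he).nn (hδ θ hθ e he)).bat (hφ e he).add k
  have g2 : ∀ e ∈ J, ∀ k, Good (Y e) (mix J fun θ => bat (ν θ) k) (2 ^ k * δ) (2 ^ k * Q' e) :=
    fun e he k => (good_mix fun θ hθ => g1 θ hθ e he k).mono le_rfl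
      (le_of_eq (by rw [← mul_sum, mul_div_assoc]))
  have g3 : ∀ e ∈ J, ∀ k, Good (Y e) (noi J ν k) (2 ^ k * δ) (2 ^ k * Q' e) := fun e he k => by
    induction k with
    | zero =>
      refine (good_base prob_single (hφ e he).nn le_rfl).mono ?_ ?_ <;>
        simp [Ev_single, hY e he, hδ0.le, Q1]
    | succ k ih =>
      exact ((g2 e he k).conv (hφ e he).add ih).mono (le_of_eq (by ring)) (le_of_eq (by ring))
  set ζ : Finset ι → ℕ → G → ℝ := fun θ k => conv (bat (ν θ) k) (noi J ν k) with hζ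
  have pζ : ∀ θ ∈ J.powerset, ∀ k, Prob (ζ θ k) := fun θ hθ k =>
    ((hν θ hθ).bat k).conv (prob_noi hν k)
  set χ : ℕ → ι → G → ℝ := fun k e => sm (noi J ν (k - 1)) (φ e) with hχ
  set A : Finset ι → ι → ℕ → ℝ := fun θ e k => Ev (ζ θ k) (χ k e) / 2 ^ k with hA
  set S := ∑ θ ∈ J.powerset, ∑ e ∈ J, (Q θ e + Q' e) / v with hS
  have hS0 : 0 ≤ S := sum_nonneg fun θ hθ => sum_nonneg fun e _ =>
    div_nonneg (add_nonneg (Q0 θ hθ e) (Q1 e)) hv0.le
  have facts : ∀ k ≤ i, ∀ θ ∈ J.powerset, ∀ e ∈ J, 32 * (2 ^ k * δ) ≤ v ∧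
      0 ≤ 2 ^ k * (Q θ e + Q' e) ∧ 2 ^ k * (Q θ e + Q' e) ≤ 2 * (2 ^ k * δ) * v ∧
      Good (Y e) (ζ θ k) (3 * (2 ^ k * δ)) (2 * (2 ^ k * (Q θ e + Q' e))) ∧
      Good (Y e) (noi J ν (k - 1)) (3 * (2 ^ k * δ)) (2 * (2 ^ k * (Q θ e + Q' e))) ∧
      Good (Y e) (mix J fun θ => bat (ν θ) k) (3 * (2 ^ k * δ)) (2 * (2 ^ k * (Q θ e + Q' e))) ∧
      Good (Y e) (conv (ζ θ k) (mix J fun θ => bat (ν θ) k)) (3 * (2 ^ k * δ))
        (2 * (2 ^ k * (Q θ e + Q' e))) := fun k hk θ hθ e he => by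
    have a1 : (2 : ℝ) ^ k ≤ 2 ^ i := pow_le_pow_right₀ one_le_two hk
    have a2 : (2 : ℝ) ^ (k - 1) ≤ 2 ^ k := pow_le_pow_right₀ one_le_two (Nat.sub_le _ _)
    have a3 : (0 : ℝ) < 2 ^ k := by positivity
    have a4 := mul_nonneg a3.le (Q0 θ hθ e)
    have a5 := mul_nonneg a3.le (Q1 e)
    have a6 := mul_pos a3 hδ0
    have a7 := (g1 θ hθ e he k).conv (hφ e he).add (g3 e he k)
    refine ⟨by rw [hv, pow_add]; nlinarith, by linarith, ?_, a7.mono (by linarith) (by linarith),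
      (g3 e he (k - 1)).mono (by nlinarith) (by nlinarith [Q1 e]),
      (g2 e he k).mono (by linarith) (by linarith),
      (a7.conv (hφ e he).add (g2 e he k)).mono (by linarith) (by linarith)⟩
    nlinarith [mul_le_mul_of_nonneg_left (Q2 θ hθ e he) a3.le,
      mul_le_mul_of_nonneg_left (Q3 e he) a3.le]
  have mid : ∀ k ∈ range i, ∑ θ ∈ J.powerset, ∑ e ∈ J, sg θ e * (A θ e k - A θ e (k + 1)) ≤
      2 * 2 ^ #J / l * ((Ent (noi J ν (k + 1)) - Ent (noi J ν k)) * (6 / 7) ^ (i - k)) +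
        35328 * l * δ * S * (7 / 8) ^ (i - k) := fun k hk => by
    have hk' := (mem_range.1 hk).le
    obtain ⟨h, h1, h2⟩ := stage hν k
    set χ' : ι → G → ℝ := fun e => sm (mix J fun θ => bat (ν θ) k) (φ e) with hχ'
    set D : ι → G → G → ℝ := fun e z z' =>
      χ k e z + χ k e z' - χ' e (z + z') - (2 * χ k e 0 - χ' e 0) with hD
    have sy : ∀ e z z', D e z z' = D e z' z := fun e z z' => by
      simp only [hD, add_comm z, add_comm (χ k e z)]
    have pw := prob_noi hν (k + 1)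
    obtain ⟨d, rfl⟩ := Nat.exists_eq_add_of_le hk'
    rw [add_tsub_cancel_left]
    have key := info2 J (fun θ => E2 (ζ θ k) (d / 2)) (pr_E2 pw.nn pw.one _)
      (fun f hf => by rw [E2_apply]; exact pw.ps_Ex _ _ fun x => pw.ps_Ex _ _ fun y => hf _) _
      (fun θ hθ => (h1 θ hθ).e2 (pζ θ hθ k) pw (d / 2))
      (fun e x => (2 ^ (k + 1))⁻¹ * Av (d / 2) (fun z' => Av (d / 2) (fun z => D e z z') x.1) x.2)
      (l := l * (2 ^ (d / 2) * (7 / 6) ^ d)) (by positivity)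
    refine le_trans (le_of_eq ?_) (key.trans (add_le_add (le_of_eq ?_) ?_))
    · rw [← sum_sg_add J _ fun e => -((2 ^ (k + 1))⁻¹ * (2 * χ k e 0 - χ' e 0))]
      refine sum_congr rfl fun θ hθ => sum_congr rfl fun e _ => ?_
      have e1 : Ev (ζ θ k) (fun z => Ev (ζ θ k) fun z' => χ' e (z + z')) =
          Ev (ζ θ (k + 1)) (χ (k + 1) e) := by
        have : conv (conv (ζ θ k) (ζ θ k)) (mix J fun θ => bat (ν θ) k) =
            conv (ζ θ (k + 1)) (noi J ν k) := by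
          simp only [hζ, bat, noi]
          ac_rfl
        have := congrArg (fun p => Ev p (φ e)) this
        simp only [Ev_conv _ _ (φ e), Ev_conv (ζ θ k) (ζ θ k)] at this
        exact this
      rw [Pr.mul, (ustat (pζ θ hθ k) _ (sy e)).1]
      simp only [hD, hA, Pr.add, Pr.sub, (pζ θ hθ k).pr.const, e1]
      ring
    · rw [← mul_sum, ← mul_sum, h2, show (6 / 7 : ℝ) = (7 / 6)⁻¹ by norm_num, inv_pow]
      field_simp
    · calc _ ≤ l * (2 ^ (d / 2) * (7 / 6) ^ d) / 2 * ∑ θ ∈ J.powerset, ∑ e ∈ J,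
            δ * (14400 / 4 ^ (d / 2) + 38592 / 2 ^ d) * ((Q θ e + Q' e) / v) := by
            refine mul_le_mul_of_nonneg_left (sum_le_sum fun θ hθ => sum_le_sum fun e he => ?_)
              (by positivity)
            obtain ⟨f1, f2, f3, f4, f5, f6, f7⟩ := facts k hk' θ hθ e he
            have a0 : 0 < 2 ^ k * δ := by positivity
            have c := f5.sm (hφ e he) a0 f1 rfl
            have b1 := D_sq (hφ e he) a0 f1 rfl f2 f3 f4 c (f6.sm (hφ e he) a0 f1 rfl)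
            have b2 := beta_sq (hφ e he) a0 f1 rfl f2 f3 f4 c f6 f7
            simp only [mul_pow]
            rw [Pr.mul]
            refine (mul_le_mul_of_nonneg_left ((ustat (pζ θ hθ k) _ (sy e)).2.trans (add_le_add
              (div_le_div_of_nonneg_right b1 (by positivity))
              (mul_le_mul_of_nonneg_left b2 (by norm_num)))) (by positivity)).trans (le_of_eq ?_)
            rw [hv]
            field_simp
            ring
        _ = l / 2 * δ * S *
            (2 ^ (d / 2) * (7 / 6) ^ d * (14400 / 4 ^ (d / 2) + 38592 / 2 ^ d)) := by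
            simp only [hS, ← mul_sum]; ring
        _ ≤ l / 2 * δ * S * (70656 * (7 / 8) ^ d) :=
            mul_le_mul_of_nonneg_left (num d) (by positivity)
        _ = _ := by ring
  have top : ∑ θ ∈ J.powerset, ∑ e ∈ J, sg θ e * A θ e i ≤
      2 * 2 ^ #J / l * ((Ent (noi J ν (i + 1)) - Ent (noi J ν i)) * (6 / 7) ^ (i - i)) +
        35328 * l * δ * S * (7 / 8) ^ (i - i) := by
    obtain ⟨h, h1, h2⟩ := stage hν i
    have pw := prob_noi hν (i + 1)
    have key := info2 J (fun θ => Ev (ζ θ i)) pw.pr pw.ps _ h1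
      (fun e z => (2 ^ i)⁻¹ * (χ i e z - χ i e 0)) hl
    refine le_trans (le_of_eq ?_) (key.trans (add_le_add ?_ ?_))
    · rw [← sum_sg_add J _ fun e => -((2 ^ i)⁻¹ * χ i e 0)]
      refine sum_congr rfl fun θ hθ => sum_congr rfl fun e _ => ?_
      simp only [hA, Pr.mul, Pr.sub, (pζ θ hθ i).pr.const]
      ring
    · have : 0 ≤ 2 ^ #J * (Ent (noi J ν (i + 1)) - Ent (noi J ν i)) / l :=
        div_nonneg (mul_nonneg (by positivity) (stage_nn hν i)) hl.le
      rw [h2, Nat.sub_self, pow_zero]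
      exact (le_add_of_nonneg_right this).trans (le_of_eq (by ring))
    · calc _ ≤ l / 2 * ∑ θ ∈ J.powerset, ∑ e ∈ J, 8192 * δ * ((Q θ e + Q' e) / v) := by
            refine mul_le_mul_of_nonneg_left (sum_le_sum fun θ hθ => sum_le_sum fun e he => ?_)
              (by positivity)
            obtain ⟨f1, f2, f3, f4, f5, -⟩ := facts i le_rfl θ hθ e he
            have a0 : 0 < 2 ^ i * δ := by positivity
            simp only [mul_pow]
            rw [Pr.mul]
            refine (mul_le_mul_of_nonneg_left (top_sq (hφ e he) a0 f1 rfl f2 f3 f4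
              (f5.sm (hφ e he) a0 f1 rfl)) (by positivity)).trans (le_of_eq ?_)
            rw [hv]
            field_simp
            ring
        _ = 4096 * (l * δ * S) := by simp only [hS, ← mul_sum]; ring
        _ ≤ _ := by
            have : 0 ≤ l * δ * S := by positivity
            rw [Nat.sub_self, pow_zero]
            linarith
  have e0 : ∀ θ e, Ev (ν θ) (φ e) = ∑ k ∈ range i, (A θ e k - A θ e (k + 1)) + A θ e i :=
    fun θ e => by
    rw [sum_range_sub', sub_add_cancel]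
    simp [hA, hζ, hχ, bat, noi, Ev_conv, Ev_single, sm]
  have e1 : S = 2 * ∑ θ ∈ J.powerset, ∑ e ∈ J, Q θ e / v := by
    simp only [hS, add_div, sum_add_distrib, sum_const, card_powerset, nsmul_eq_mul, two_mul,
      add_right_inj, hQ', ← sum_div, Nat.cast_pow, Nat.cast_ofNat]
    rw [sum_comm]
    field_simp
  have e2 := add_le_add (sum_le_sum mid) top
  rw [← sum_range_succ fun k => 2 * 2 ^ #J / l * ((Ent (noi J ν (k + 1)) - Ent (noi J ν k)) *
    (6 / 7) ^ (i - k)) + 35328 * l * δ * S * (7 / 8) ^ (i - k), sum_add_distrib, ← mul_sum,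
    ← mul_sum] at e2
  have e3 := mul_le_mul_of_nonneg_left (geo' (q := 7 / 8) (by norm_num) (by norm_num) i)
    (show 0 ≤ 35328 * l * δ * S by positivity)
  calc _ = _ := by
        simp only [e0, mul_add, sum_add_distrib, mul_sum, sum_comm (t := range i)]
    _ ≤ _ := e2
    _ ≤ _ := add_le_add le_rfl (e3.trans (le_of_eq (by rw [e1]; ring)))

/-- A statistic `f` that is Lipschitz for the subadditive length `Γ`. -/
structure LG (f Γ : G → ℝ) : Prop where
  zero : f 0 = 0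
  nn : ∀ x, 0 ≤ f x
  lip : ∀ x y, |f (x + y) - f x| ≤ Γ y
  G0 : Γ 0 = 0
  add : ∀ x y, Γ (x + y) ≤ Γ x + Γ y

/-- The correlation bound. -/
theorem core2 {f Γ : ι → G → ℝ} (hf : ∀ e ∈ J, LG (f e) (Γ e)) {δ : ℝ} (hδ0 : 0 < δ)
    (hδ : ∀ θ ∈ J.powerset, ∀ e ∈ J, Ev (ν θ) (Γ e) ≤ δ) {l : ℝ} (hl : 0 < l) :
    ∑ θ ∈ J.powerset, ∑ e ∈ J, sg θ e * Ev (ν θ) (f e) ≤
      2 ^ #J * (15 * Real.log (Fintype.card G) / l + 2 ^ 22 * l * δ ^ 2 * #J) := by
  have G0 : ∀ e ∈ J, ∀ x, 0 ≤ Γ e x := fun e he x => (abs_nonneg _).trans ((hf e he).lip 0 x)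
  have fG : ∀ e ∈ J, ∀ x, f e x ≤ Γ e x := fun e he x => by
    simpa [(hf e he).zero] using (abs_le.1 ((hf e he).lip 0 x)).2
  obtain ⟨I, hI⟩ : ∃ I : ℕ, ∀ e ∈ J, ∀ x, f e x ≤ 2 ^ (I + 2) * (8 * δ) := by
    obtain ⟨I, hI⟩ := pow_unbounded_of_one_lt ((∑ e ∈ J, ∑ x, f e x) / δ) (one_lt_two (α := ℝ))
    refine ⟨I, fun e he x => ?_⟩
    rw [div_lt_iff₀ hδ0] at hI
    have a1 := single_le_sum (f := fun e => ∑ x, f e x)
      (fun e he => sum_nonneg fun x _ => (hf e he).nn x) he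
    have a2 := single_le_sum (f := f e) (fun x _ => (hf e he).nn x) (mem_univ x)
    have h3 : (0 : ℝ) < 2 ^ I * δ := by positivity
    rw [pow_add]
    nlinarith
  have n0 : Ent (noi J ν 0) = 0 := by simp [Ent, noi, Ev_single]
  have e1 := fun i (_ : i ∈ range I) => level hν hδ0 i
    (φ := fun e x => psi (2 ^ (i + 2) * (8 * δ)) (f e x))
    (Y := fun e x => min (Γ e x) (2 ^ (i + 2) * (8 * δ))) (fun e he => by
      have v0 : 0 ≤ 2 ^ (i + 2) * (8 * δ) := by positivity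
      generalize 2 ^ (i + 2) * (8 * δ) = v at *
      have p0 : ∀ x, 0 ≤ psi v (f e x) := fun x =>
        (psi_zero v0 v0).symm.trans_le (psi_lip v0 ((hf e he).nn x)).1
      refine ⟨fun x => le_min (G0 e he x) v0, fun x => min_le_right _ _, fun x y => ?_,
        fun x y => le_min ?_ (abs_le.2 ⟨by linarith [p0 (x + y), psi_le (x := f e x) v0],
          by linarith [p0 x, psi_le (x := f e (x + y)) v0]⟩), fun x hx =>
        psi_zero v0 ((fG e he x).trans ((min_lt_iff.1 hx).resolve_right (lt_irrefl _)).le)⟩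
      · have a1 := (hf e he).add x y
        have a2 := G0 e he x
        have a3 := G0 e he y
        simp only [min_def]
        split_ifs <;> linarith
      · have a1 := abs_le.1 ((hf e he).lip x y)
        rcases le_total (f e x) (f e (x + y)) with c | c
        · exact abs_le.2 ⟨by linarith [(psi_lip v0 c).1], by linarith [(psi_lip v0 c).2]⟩
        · exact abs_le.2 ⟨by linarith [(psi_lip v0 c).2], by linarith [(psi_lip v0 c).1]⟩)
    (fun e he => by rw [(hf e he).G0]; exact min_eq_left (by positivity))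
    (fun θ hθ e he => ((hν θ hθ).pr.mono fun x => min_le_left _ _).trans (hδ θ hθ e he)) hl
  have e2 := sum_le_sum e1
  rw [sum_add_distrib, ← mul_sum, ← mul_sum] at e2
  have e3 := geo_diag (q := 6 / 7) (by norm_num) (by norm_num) I (stage_nn hν)
  rw [sum_range_sub fun k => Ent (noi J ν k), n0, sub_zero] at e3
  have e4 : ∑ i ∈ range I, ∑ θ ∈ J.powerset, ∑ e ∈ J,
      Ev (ν θ) (fun x => min (Γ e x) (2 ^ (i + 2) * (8 * δ)) ^ 2) / (2 ^ (i + 2) * (8 * δ)) ≤
      2 ^ #J * (6 * δ * #J) := by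
    rw [sum_comm]
    calc _ ≤ ∑ θ ∈ J.powerset, ∑ e ∈ J, 6 * δ := sum_le_sum fun θ hθ => by
          rw [sum_comm]
          refine sum_le_sum fun e he => ?_
          refine le_trans ?_ (mul_le_mul_of_nonneg_left (hδ θ hθ e he) (by norm_num))
          simp only [div_eq_mul_inv, ← Pr.mul', ← Pr.sum]
          rw [← Pr.mul]
          exact (hν θ hθ).pr.mono fun x => pot (G0 e he x) (by positivity) I
      _ = _ := by simp; ring
  have e5 : ∑ θ ∈ J.powerset, ∑ e ∈ J, sg θ e * Ev (ν θ) (fun x => min (f e x) (4 * (8 * δ))) ≤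
      2 ^ #J * (Real.log (Fintype.card G) / l + 16 * l * δ ^ 2 * #J) := by
    obtain ⟨h, h1, h2⟩ := stage hν 0
    have pw := prob_noi hν 1
    have c : ∀ θ, conv (bat (ν θ) 0) (noi J ν 0) = ν θ := fun θ => Ev_ext fun f => by
      simp [bat, noi, Ev_conv, Ev_single]
    simp only [c] at h1
    refine (info2 J (fun θ => Ev (ν θ)) pw.pr pw.ps _ h1 _ hl).trans ?_
    rw [h2, n0, sub_zero]
    calc _ ≤ 2 ^ #J * Real.log (Fintype.card G) / l +
          l / 2 * ∑ θ ∈ J.powerset, ∑ e ∈ J, 32 * δ * δ := by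
          gcongr with θ hθ e he
          · exact pw.ent_le
          · refine le_trans ?_ (mul_le_mul_of_nonneg_left (hδ θ hθ e he) (by positivity))
            rw [← Pr.mul]
            refine (hν θ hθ).pr.mono fun x => ?_
            rw [sq]
            exact mul_le_mul ((min_le_right _ _).trans (le_of_eq (by ring)))
              ((min_le_left _ _).trans (fG e he x))
              (le_min ((hf e he).nn _) (by positivity)) (by positivity)
      _ = _ := by simp; ring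
  have e6 := mul_le_mul_of_nonneg_left (e3.trans (mul_le_mul_of_nonneg_right
    (prob_noi hν I).ent_le (by norm_num))) (show 0 ≤ 2 * 2 ^ #J / l by positivity)
  have e7 := mul_le_mul_of_nonneg_left e4 (show 0 ≤ 565248 * l * δ by positivity)
  have e8 : (0 : ℝ) ≤ 2 ^ #J * (l * δ ^ 2 * #J) := by positivity
  calc _ = ∑ θ ∈ J.powerset, ∑ e ∈ J, sg θ e * Ev (ν θ) (fun x => min (f e x) (4 * (8 * δ))) +
        ∑ i ∈ range I, ∑ θ ∈ J.powerset, ∑ e ∈ J,
          sg θ e * Ev (ν θ) fun x => psi (2 ^ (i + 2) * (8 * δ)) (f e x) := by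
        simp only [sum_comm (s := range I), ← sum_add_distrib, ← mul_sum, ← mul_add, ← Pr.sum,
          ← Pr.add, ← psi_tele]
        exact sum_congr rfl fun θ _ => sum_congr rfl fun e he => by
          simp only [min_eq_left (hI e he _)]
    _ ≤ _ := add_le_add e5 (e2.trans (add_le_add e6 e7))
    _ = 2 ^ #J * (15 * Real.log (Fintype.card G) / l) + 3391504 * (2 ^ #J * (l * δ ^ 2 * #J)) := by
        ring
    _ ≤ _ := by nlinarith

end Pool.Agent.Lib.MP_348529_lc.X
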