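import Pool.Agent.Lib.MP_348529_lc.XEx

/-!
Change of measure for noisy messages in a finite abelian group, and two-sample averages.
-/

namespace Pool.Agent.Lib.MP_348529_lc.X

open Finset

/-- The change of measure inequality with cost `h`. -/
def DV {Ω : Type} (P W : (Ω → ℝ) →ₗ[ℝ] ℝ) (h : ℝ) : Prop :=
  ∀ A : Ω → ℝ, P A ≤ h + Real.log (W fun x => Real.exp (A x))

/-- A strictly positive functional. -/
def Ps {Ω : Type} (W : (Ω → ℝ) →ₗ[ℝ] ℝ) : Prop := ∀ f : Ω → ℝ, (∀ x, 0 < f x) → 0 < W f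

lemma DV.prod {Ω Ω' : Type} {P W : (Ω → ℝ) →ₗ[ℝ] ℝ} {P' W' : (Ω' → ℝ) →ₗ[ℝ] ℝ} {h h' : ℝ}
    (hP : Pr P) (hW : Ps W') (d : DV P W h) (d' : DV P' W' h') (A : Ω → Ω' → ℝ) :
    P (fun x => P' (A x)) ≤ h + h' + Real.log (W fun x => W' fun y => Real.exp (A x y)) := by
  refine (hP.mono fun x => d' (A x)).trans ?_
  have := d fun x => Real.log (W' fun y => Real.exp (A x y))
  simp only [Real.exp_log (hW _ fun _ => Real.exp_pos _)] at this
  rw [Pr.add, hP.const]
  linarith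

lemma Pr.abs_le {Ω : Type} {P : (Ω → ℝ) →ₗ[ℝ] ℝ} (h : Pr P) {f g u : Ω → ℝ}
    (hu : ∀ x, |f x - g x| ≤ u x) : |P f - P g| ≤ P u := by
  rw [← Pr.sub, _root_.abs_le]
  refine ⟨?_, h.mono fun x => (le_abs_self _).trans (hu x)⟩
  have := h.mono (f := fun x => -1 * u x) (g := fun x => f x - g x) fun x => by
    linarith [(_root_.abs_le.1 (hu x)).1]
  rwa [Pr.mul, neg_one_mul] at this

lemma Pr.sq_le {Ω : Type} {P : (Ω → ℝ) →ₗ[ℝ] ℝ} (h : Pr P) (f : Ω → ℝ) :
    P f ^ 2 ≤ P fun x => f x ^ 2 := by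
  have := h.mono (f := fun x => 2 * P f * f x - P f ^ 2) (g := fun x => f x ^ 2) fun x => by
    nlinarith [sq_nonneg (f x - P f)]
  rw [Pr.sub, Pr.mul, h.const] at this
  linarith

lemma info2 {ι Ω : Type} [DecidableEq ι] (J : Finset ι) (P : Finset ι → (Ω → ℝ) →ₗ[ℝ] ℝ)
    {W : (Ω → ℝ) →ₗ[ℝ] ℝ} (hW : Pr W) (hW' : Ps W) (h : Finset ι → ℝ)
    (d : ∀ θ ∈ J.powerset, DV (P θ) W (h θ)) (f : ι → Ω → ℝ) {l : ℝ} (hl : 0 < l) :
    ∑ θ ∈ J.powerset, ∑ e ∈ J, sg θ e * P θ (f e) ≤ (∑ θ ∈ J.powerset, h θ) / l +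
      l / 2 * ∑ θ ∈ J.powerset, ∑ e ∈ J, P θ fun x => f e x ^ 2 := by
  set A : Finset ι → Ω → ℝ := fun θ x =>
    ∑ e ∈ J, sg θ e * (l * f e x) - ∑ e ∈ J, (l * f e x) ^ 2 / 2 with hA
  have h1 : ∀ θ ∈ J.powerset, l * ∑ e ∈ J, sg θ e * P θ (f e) -
      l ^ 2 / 2 * ∑ e ∈ J, P θ (fun x => f e x ^ 2) ≤
      h θ + (W (fun x => Real.exp (A θ x)) - 1) := fun θ hθ => by
    refine le_trans (le_of_eq ?_) ((d θ hθ (A θ)).trans (add_le_add le_rfl
      (Real.log_le_sub_one_of_pos (hW' _ fun _ => Real.exp_pos _))))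
    simp only [hA, Pr.sub, Pr.sum, Pr.mul, mul_sum, mul_pow, mul_div_right_comm]
    congr 1
    exact sum_congr rfl fun e _ => by ring
  have h2 := sum_le_sum h1
  rw [sum_sub_distrib, sum_add_distrib, sum_sub_distrib, ← mul_sum, ← mul_sum, ← Pr.sum] at h2
  have h3 : W (fun x => ∑ θ ∈ J.powerset, Real.exp (A θ x)) ≤ 2 ^ #J := by
    rw [← hW.const (2 ^ #J)]
    refine hW.mono fun x => ?_
    simp only [hA, Real.exp_sub, ← sum_div]
    rw [div_le_iff₀ (Real.exp_pos _), sum_div]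
    exact sum_exp_sg J fun e => l * f e x
  simp only [sum_const, card_powerset, nsmul_eq_mul, mul_one, Nat.cast_pow, Nat.cast_ofNat] at h2
  rw [← mul_le_mul_iff_right₀ hl, mul_add, mul_div_cancel₀ _ hl.ne']
  nlinarith

lemma sum_sg {ι : Type} [DecidableEq ι] {J : Finset ι} {e : ι} (he : e ∈ J) :
    ∑ θ ∈ J.powerset, sg θ e = 0 := by
  rw [← insert_erase he, sum_powerset_insert (notMem_erase e J), ← sum_add_distrib]
  refine sum_eq_zero fun θ hθ => ?_
  have : e ∉ θ := fun c => notMem_erase e J (mem_powerset.1 hθ c)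
  simp [sg, this]

variable {G : Type} [Fintype G]

/-- Expectation under a probability vector. -/
noncomputable def Ev (p : G → ℝ) : (G → ℝ) →ₗ[ℝ] ℝ := ∑ a, p a • LinearMap.proj a

lemma Ev_apply (p f : G → ℝ) : Ev p f = ∑ a, p a * f a := by simp [Ev, LinearMap.sum_apply]

/-- Probability vectors. -/
structure Prob (p : G → ℝ) : Prop where
  nn : ∀ a, 0 ≤ p a
  one : ∑ a, p a = 1

variable {p q w : G → ℝ}

lemma Ex_zero' (f : Multiset G → ℝ) : Ex p 0 f = Ev p fun a => f {a} := by rw [Ex_zero, Ev_apply]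

lemma Prob.pr (h : Prob p) : Pr (Ev p) :=
  ⟨fun hf => by
    rw [Ev_apply, Ev_apply]
    exact sum_le_sum fun a _ => mul_le_mul_of_nonneg_left (hf a) (h.nn a), by simp [Ev_apply, h.one]⟩

lemma Prob.ps (h : Prob p) : Ps (Ev p) := fun f hf => by
  obtain ⟨a, -, ha⟩ := exists_ne_zero_of_sum_ne_zero (h.one.trans_ne one_ne_zero)
  rw [Ev_apply]
  exact sum_pos' (fun a _ => mul_nonneg (h.nn a) (hf a).le)
    ⟨a, mem_univ _, mul_pos ((h.nn a).lt_of_ne' ha) (hf a)⟩

lemma Prob.ps_Ex (h : Prob p) (t : ℕ) : Ps (Ex p t) := by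
  induction t with
  | zero => exact fun f hf => by rw [Ex_zero']; exact h.ps _ fun a => hf _
  | succ t ih => exact fun f hf => by rw [Ex_succ]; exact ih _ fun x => ih _ fun y => hf _

lemma DV.ex (hp : Prob p) (hw : Prob w) {h : ℝ} (d : DV (Ev p) (Ev w) h) (t : ℕ) :
    DV (Ex p t) (Ex w t) (2 ^ t * h) := by
  induction t with
  | zero => exact fun A => by simpa only [Ex_zero', pow_zero, one_mul] using d fun a => A {a}
  | succ t ih =>
    intro A
    rw [Ex_succ, Ex_succ, pow_succ]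
    linarith [DV.prod (pr_Ex hp.nn hp.one t) (hw.ps_Ex t) ih ih fun x y => A (x + y)]

lemma DV.e2 (hp : Prob p) (hw : Prob w) {h : ℝ} (d : DV (Ev p) (Ev w) h) (t : ℕ) :
    DV (E2 p t) (E2 w t) (2 * (2 ^ t * h)) := fun A => by
  rw [E2_apply, E2_apply]
  linarith [DV.prod (pr_Ex hp.nn hp.one t) (hw.ps_Ex t) (d.ex hp hw t) (d.ex hp hw t)
    fun x y => A (x, y)]

lemma dv_base (hp : Prob p) (hw : Prob w) (h : ∀ z, p z ≠ 0 → w z ≠ 0) :
    DV (Ev p) (Ev w) (Ev p (fun z => Real.log (p z)) - Ev p fun z => Real.log (w z)) := fun A => by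
  have hS := hw.ps _ fun x => Real.exp_pos (A x)
  set S := Ev w fun x => Real.exp (A x) with hS'
  have h1 : ∀ z, p z * A z - p z * Real.log (p z) + p z * Real.log (w z) - p z * Real.log S ≤
      w z * Real.exp (A z) / S - p z := fun z => by
    rcases (hp.nn z).eq_or_lt with c | c
    · rw [← c]
      simpa using div_nonneg (mul_nonneg (hw.nn z) (Real.exp_pos _).le) hS.le
    · have c' := (hw.nn z).lt_of_ne' (h z c.ne')
      have h2 := Real.log_le_sub_one_of_pos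
        (show 0 < w z * Real.exp (A z) / S / p z by positivity)
      rw [Real.log_div (by positivity) c.ne', Real.log_div (by positivity) hS.ne',
        Real.log_mul c'.ne' (by positivity), Real.log_exp] at h2
      have h3 := mul_le_mul_of_nonneg_left h2 c.le
      rw [mul_sub (p z) (_ / p z), mul_div_cancel₀ _ c.ne'] at h3
      linarith
  have h2 := sum_le_sum fun z (_ : z ∈ univ) => h1 z
  simp only [sum_sub_distrib, sum_add_distrib, ← sum_mul, ← sum_div, hp.one, ← Ev_apply] at h2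
  rw [← hS', div_self hS.ne'] at h2
  linarith

/-- The average of `f` over a batch. -/
noncomputable def Av (t : ℕ) (f : G → ℝ) (x : Multiset G) : ℝ := (x.map f).sum / 2 ^ t

lemma Av_Ev (t : ℕ) (D : G → G → ℝ) (x : Multiset G) :
    Ev p (fun z' => Av t (fun z => D z z') x) = Av t (fun z => Ev p (D z)) x := by
  simp only [Av, div_eq_mul_inv, Pr.mul']
  congr 1
  induction x using Multiset.induction_on with
  | empty => simp [Ev_apply]
  | cons a x ih => simp only [Multiset.map_cons, Multiset.sum_cons, Pr.add, ih]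

lemma Ex_Av (hp : Prob p) (t : ℕ) (f : G → ℝ) : Ex p t (Av t f) = Ev p f ∧
    Ex p t (fun x => Av t f x ^ 2) ≤ Ev p (fun z => f z ^ 2) / 2 ^ t + Ev p f ^ 2 := by
  obtain ⟨h1, h2⟩ := Ex_var hp.nn hp.one f t
  simp only [← Ev_apply] at h1 h2
  have h0 := pr_Ex hp.nn hp.one t
  have e : ∀ x : Multiset G,
      Av t f x = (2 ^ t)⁻¹ * ((x.map f).sum - 2 ^ t * Ev p f) + Ev p f := fun x => by
    rw [Av]; field_simp; ring
  constructor
  · rw [funext e, Pr.add, Pr.mul, h1, h0.const]; ring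
  · simp only [e, add_sq, mul_pow, mul_assoc, mul_left_comm _ _ (Ev p f)]
    rw [Pr.add, Pr.add, Pr.mul, Pr.mul, Pr.mul, Pr.mul', h1, h0.const]
    have := mul_le_mul_of_nonneg_left h2 (show (0 : ℝ) ≤ (2 ^ t)⁻¹ ^ 2 by positivity)
    have e2 : ((2 : ℝ) ^ t)⁻¹ ^ 2 * (2 ^ t * Ev p fun z => f z ^ 2) =
        Ev p (fun z => f z ^ 2) / 2 ^ t := by field_simp
    linarith

lemma lin_Ev {Ω : Type} (P : (Ω → ℝ) →ₗ[ℝ] ℝ) (f : Ω → G → ℝ) :
    P (fun x => Ev p (f x)) = Ev p fun z => P fun x => f x z := by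
  simp only [Ev_apply, Pr.sum, Pr.mul]

/-- Two-sample averages of a symmetric kernel. -/
lemma ustat (hp : Prob p) (t : ℕ) {D : G → G → ℝ} (hD : ∀ z z', D z z' = D z' z) :
    E2 p t (fun x => Av t (fun z' => Av t (fun z => D z z') x.1) x.2) =
      Ev p (fun z => Ev p (D z)) ∧
    E2 p t (fun x => Av t (fun z' => Av t (fun z => D z z') x.1) x.2 ^ 2) ≤
      Ev p (fun z => Ev p fun z' => D z z' ^ 2) / 4 ^ t + 3 * Ev p fun z => Ev p (D z) ^ 2 := by
  have h0 := pr_Ex hp.nn hp.one t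
  constructor
  · rw [E2_apply]
    simp only [(Ex_Av hp t _).1, Av_Ev]
  · rw [E2_apply]
    refine (h0.mono fun x => (Ex_Av hp t fun z' => Av t (fun z => D z z') x).2).trans ?_
    simp only [div_eq_mul_inv, Av_Ev]
    rw [Pr.add, Pr.mul', lin_Ev]
    have h1 := hp.pr.mono fun z' => (Ex_Av hp t fun z => D z z').2
    have h2 := (Ex_Av hp t fun z => Ev p (D z)).2
    have h3 := hp.pr.sq_le fun z => Ev p (D z)
    simp only [div_eq_mul_inv] at h1 h2
    rw [Pr.add, Pr.mul', ← lin_Ev (Ev p) fun z z' => D z z' ^ 2, show (fun z' => Ev p (fun z => D z z') ^ 2) =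
      fun z' => Ev p (D z') ^ 2 from by simp only [fun z' => funext fun z => hD z z']] at h1
    have h4 : 0 ≤ Ev p fun z => Ev p (D z) ^ 2 := hp.pr.nonneg fun _ => sq_nonneg _
    have h5 : ((2 : ℝ) ^ t)⁻¹ ≤ 1 := inv_le_one_of_one_le₀ (one_le_pow₀ one_le_two)
    have h6 : ((4 : ℝ) ^ t)⁻¹ = (2 ^ t)⁻¹ * (2 ^ t)⁻¹ := by
      rw [← mul_inv, ← mul_pow]; norm_num
    have h7 := mul_le_mul_of_nonneg_right h1 (show (0 : ℝ) ≤ (2 ^ t)⁻¹ by positivity)
    rw [h6]
    nlinarith [mul_le_mul_of_nonneg_left h5 h4]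

variable [AddCommGroup G]

/-- Convolution. -/
def conv (p q : G → ℝ) (z : G) : ℝ := ∑ x, p x * q (z - x)

lemma Ev_conv (p q f : G → ℝ) : Ev (conv p q) f = Ev p fun x => Ev q fun y => f (x + y) := by
  simp only [Ev_apply, conv, sum_mul, mul_sum]
  rw [sum_comm]
  refine sum_congr rfl fun x _ => ?_
  rw [← Equiv.sum_comp (Equiv.addLeft x)]
  simp [mul_assoc]

omit [AddCommGroup G] in
lemma Ev_ext (h : ∀ f, Ev p f = Ev q f) : p = q := by
  classical
  ext z
  simpa [Ev_apply] using h fun a => if a = z then 1 else 0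

instance : Std.Commutative (conv (G := G)) :=
  ⟨fun p q => Ev_ext fun f => by rw [Ev_conv, Ev_conv, lin_Ev]; simp only [add_comm]⟩

instance : Std.Associative (conv (G := G)) :=
  ⟨fun p q r => Ev_ext fun f => by simp only [Ev_conv, add_assoc]⟩

lemma Prob.conv (hp : Prob p) (hq : Prob q) : Prob (conv p q) :=
  ⟨fun z => sum_nonneg fun x _ => mul_nonneg (hp.nn _) (hq.nn _), by
    have := Ev_conv p q fun _ => 1
    rw [hq.pr.const, hp.pr.const] at this
    simpa [Ev_apply] using this⟩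

/-- Entropy. -/
noncomputable def Ent (p : G → ℝ) : ℝ := -Ev p fun z => Real.log (p z)

lemma dv_conv (hp : Prob p) (hq : Prob q) (hw : Prob w) (h : ∀ z, conv p q z ≠ 0 → w z ≠ 0) :
    DV (Ev (conv p q)) (Ev w) (-Ent q - Ev (conv p q) fun z => Real.log (w z)) := fun A => by
  rw [Ev_conv, Ev_conv, Ent, neg_neg, ← hp.pr.const (Ev q _), ← Pr.sub,
    ← hp.pr.const (Real.log _), ← Pr.add, Ev_apply p, Ev_apply p]
  refine sum_le_sum fun x _ => ?_
  rcases (hp.nn x).eq_or_lt with c | c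
  · simp [← c]
  refine mul_le_mul_of_nonneg_left ?_ c.le
  have e : ∀ f : G → ℝ, Ev (fun y => w (x + y)) (fun y => f (x + y)) = Ev w f := fun f => by
    simp only [Ev_apply]
    exact Equiv.sum_comp (Equiv.addLeft x) fun z => w z * f z
  have := dv_base hq (w := fun y => w (x + y))
    ⟨fun y => hw.nn _, (Equiv.sum_comp (Equiv.addLeft x) w).trans hw.one⟩ (fun y hy => h _ (by
      refine (sum_pos' (fun a _ => mul_nonneg (hp.nn _) (hq.nn _)) ⟨x, mem_univ _, ?_⟩).ne'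
      simpa using mul_pos c ((hq.nn y).lt_of_ne' hy))) fun y => A (x + y)
  rwa [e fun z => Real.exp (A z)] at this

lemma Prob.ent_le (hp : Prob p) : Ent p ≤ Real.log (Fintype.card G) := by
  have hN : (0 : ℝ) < Fintype.card G := by exact_mod_cast Fintype.card_pos
  have hw : Prob fun _ : G => (Fintype.card G : ℝ)⁻¹ := ⟨fun _ => by positivity, by simp⟩
  have := dv_base hp hw (fun _ _ => by positivity) fun _ => 0
  simp only [Real.exp_zero, hw.pr.const, hp.pr.const, Real.log_one, Real.log_inv] at this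
  rw [Ent]
  linarith

end Pool.Agent.Lib.MP_348529_lc.X
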