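import Pool.Agent.Lib.MP_348529_lc.YCore
import Pool.Agent.Lib.MP_348529_lc.XPart

/-!
Sparsifiers for families of Lipschitz functions on a finite abelian group.
-/

namespace Pool.Agent.Lib.MP_348529_lc.X

open Finset

variable {α ι G : Type} [Fintype α] [DecidableEq ι] [Fintype G] [AddCommGroup G]

/-- `g` extends along `φ` to a function that is Lipschitz for a length bounded by `K g`. -/
structure Lip (φ : α → G) (S₀ : α) (K : ℝ) (g : α → ℝ) : Prop where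
  nn : ∀ S, 0 ≤ g S
  zero : g S₀ = 0
  ex : ∃ f Γ : G → ℝ, LG f Γ ∧ ∀ S, f (φ S) = g S ∧ Γ (φ S) ≤ K * g S

variable {φ : α → G} {S₀ : α} {K : ℝ}

omit [Fintype α] [Fintype G] in
lemma Lip.smul {g : α → ℝ} (h : Lip φ S₀ K g) {c : ℝ} (hc : 0 ≤ c) :
    Lip φ S₀ K fun S => c * g S := by
  obtain ⟨f, Γ, h1, h2⟩ := h.ex
  refine ⟨fun S => mul_nonneg hc (h.nn S), by simp [h.zero], fun x => c * f x, fun x => c * Γ x,
    ⟨by simp [h1.zero], fun x => mul_nonneg hc (h1.nn x), fun x y => ?_, by simp [h1.G0],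
      fun x y => ?_⟩, fun S => ⟨congrArg (c * ·) (h2 S).1, ?_⟩⟩
  · rw [← mul_sub, abs_mul, abs_of_nonneg hc]
    exact mul_le_mul_of_nonneg_left (h1.lip x y) hc
  · rw [← mul_add]
    exact mul_le_mul_of_nonneg_left (h1.add x y) hc
  · rw [mul_left_comm]
    exact mul_le_mul_of_nonneg_left (h2 S).2 hc

section

variable {J : Finset ι} {f : ι → α → ℝ}

lemma shat3 (hf : ∀ e ∈ J, Lip φ S₀ K (f e)) (hK : 0 < K) (ν : Finset ι → α → ℝ)
    (ν0 : ∀ θ ∈ J.powerset, ∀ a, 0 ≤ ν θ a) (ν1 : ∀ θ ∈ J.powerset, ∑ a, ν θ a = 1) {d : ℝ}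
    (hd0 : 0 < d) (hd : ∀ θ ∈ J.powerset, ∀ e ∈ J, ∑ a, ν θ a * f e a ≤ d) {l : ℝ} (hl : 0 < l) :
    ∑ θ ∈ J.powerset, ∑ e ∈ J, sg θ e * ∑ a, ν θ a * f e a ≤
      2 ^ #J * (15 * Real.log (Fintype.card G) / l + 2 ^ 22 * l * (K * d) ^ 2 * #J) := by
  classical
  have hF := fun e he => (hf e he).ex
  choose! F Γ hF hF' using hF
  set μ : Finset ι → G → ℝ := fun θ z => ∑ a, if φ a = z then ν θ a else 0 with hμ
  have e : ∀ θ (u : G → ℝ), Ev (μ θ) u = ∑ a, ν θ a * u (φ a) := fun θ u => by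
    simp only [Ev_apply, hμ, sum_mul]
    rw [sum_comm]
    simp
  refine le_trans (le_of_eq ?_) (core2 (ν := μ) (fun θ hθ => ⟨fun z => sum_nonneg fun a _ => by
    have := ν0 θ hθ a
    positivity, by simpa [Ev_apply, ν1 θ hθ] using e θ fun _ => 1⟩) hF (mul_pos hK hd0)
    (fun θ hθ e' he => ?_) hl)
  · exact sum_congr rfl fun θ _ => sum_congr rfl fun e' he => by
      simp only [e, fun S => (hF' e' he S).1]
  · refine le_trans ?_ (mul_le_mul_of_nonneg_left (hd θ hθ e' he) hK.le)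
    rw [e, mul_sum]
    refine sum_le_sum fun a _ => ?_
    rw [mul_left_comm]
    exact mul_le_mul_of_nonneg_left (hF' e' he a).2 (ν0 θ hθ a)

theorem shat2 (hf : ∀ e ∈ J, Lip φ S₀ K (f e)) (hK : 0 < K) {D : ℝ} (hD : 0 < D)
    (h : ∀ θ ⊆ J, ∃ w : α → ℝ, ∀ e ∈ J, ∑ a, w a * f e a = sg θ e ∧ ∑ a, |w a| * f e a ≤ D) :
    (#J : ℝ) ≤ 2 ^ 30 * K ^ 2 * D ^ 2 * Real.log (Fintype.card G) := by
  classical
  choose! w hw using h
  set M := 1 + ∑ θ ∈ J.powerset, ∑ a, |w θ a| with hM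
  have hM1 : ∀ θ ⊆ J, ∑ a, |w θ a| ≤ M := fun θ hθ => by
    have := single_le_sum (f := fun θ => ∑ a, |w θ a|)
      (fun θ _ => sum_nonneg fun a _ => abs_nonneg _) (mem_powerset.2 hθ)
    linarith
  have hM0 : 0 < M := add_pos_of_pos_of_nonneg one_pos
    (sum_nonneg fun θ _ => sum_nonneg fun a _ => abs_nonneg _)
  have key : ∀ x : Finset ι → α → ℝ, (∀ θ a, 0 ≤ x θ a) → (∀ θ ⊆ J, ∑ a, x θ a ≤ M) →
      (∀ θ ⊆ J, ∀ e ∈ J, ∑ a, x θ a * f e a ≤ D) →
      ∑ θ ∈ J.powerset, ∑ e ∈ J, sg θ e * ∑ a, x θ a * f e a ≤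
        2 ^ #J * (15 * 2 ^ 24 * K ^ 2 * D ^ 2 * Real.log (Fintype.card G) + #J / 4) := fun x x0 x1 x2 => by
    have e : ∀ θ, ∀ e ∈ J, ∑ a, (x θ a / M + if a = S₀ then 1 - (∑ a, x θ a) / M else 0) * f e a =
        (∑ a, x θ a * f e a) / M := fun θ e he => by
      simp [add_mul, sum_add_distrib, (hf e he).zero, sum_div, div_mul_eq_mul_div]
    have := shat3 hf hK (fun θ a => x θ a / M + if a = S₀ then 1 - (∑ a, x θ a) / M else 0)
      (fun θ hθ a => add_nonneg (div_nonneg (x0 θ a) hM0.le) (by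
        split_ifs
        exacts [sub_nonneg.2 ((div_le_one hM0).2 (x1 θ (mem_powerset.1 hθ))), le_rfl]))
      (fun θ _ => by simp [sum_add_distrib, sum_div]) (div_pos hD hM0)
      (fun θ hθ e' he => by
        rw [e θ e' he]; exact div_le_div_of_nonneg_right (x2 θ (mem_powerset.1 hθ) e' he) hM0.le)
      (l := M / (2 ^ 24 * K ^ 2 * D ^ 2)) (by positivity)
    rw [sum_congr rfl fun θ _ => sum_congr rfl fun e' he => by rw [e θ e' he]] at this
    simp only [← mul_div_assoc, ← sum_div] at this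
    rw [div_le_iff₀ hM0] at this
    refine this.trans (le_of_eq ?_)
    field_simp
    ring
  have k1 := key (fun θ a => max (w θ a) 0) (fun θ a => le_max_right _ _)
    (fun θ hθ => (sum_le_sum fun a _ => max_le (le_abs_self _) (abs_nonneg _)).trans (hM1 θ hθ))
    (fun θ hθ e he => (sum_le_sum fun a _ => mul_le_mul_of_nonneg_right
      (max_le (le_abs_self _) (abs_nonneg _)) ((hf e he).nn a)).trans (hw θ hθ e he).2)
  have k2 := key (fun θ a => max (-w (J \ θ) a) 0) (fun θ a => le_max_right _ _)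
    (fun θ _ => (sum_le_sum fun a _ => max_le (neg_le_abs _) (abs_nonneg _)).trans
      (hM1 _ sdiff_subset))
    (fun θ _ e he => (sum_le_sum fun a _ => mul_le_mul_of_nonneg_right
      (max_le (neg_le_abs _) (abs_nonneg _)) ((hf e he).nn a)).trans (hw _ sdiff_subset e he).2)
  have e1 : ∑ θ ∈ J.powerset, ∑ e ∈ J, sg θ e * ∑ a, max (-w (J \ θ) a) 0 * f e a =
      ∑ θ ∈ J.powerset, ∑ e ∈ J, -sg θ e * ∑ a, max (-w θ a) 0 * f e a := by
    refine sum_nbij' (fun θ => J \ θ) (fun θ => J \ θ) (fun θ _ => mem_powerset.2 sdiff_subset)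
      (fun θ _ => mem_powerset.2 sdiff_subset)
      (fun θ hθ => Finset.sdiff_sdiff_eq_self (mem_powerset.1 hθ))
      (fun θ hθ => Finset.sdiff_sdiff_eq_self (mem_powerset.1 hθ)) fun θ _ =>
      sum_congr rfl fun e he => ?_
    congr 1
    by_cases c : e ∈ θ <;> simp [sg, he, c]
  have e2 : ∑ θ ∈ J.powerset, ∑ e ∈ J, sg θ e * ∑ a, max (w θ a) 0 * f e a +
      ∑ θ ∈ J.powerset, ∑ e ∈ J, -sg θ e * ∑ a, max (-w θ a) 0 * f e a = 2 ^ #J * #J := by
    simp only [← sum_add_distrib]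
    rw [sum_congr rfl fun θ hθ => sum_congr rfl fun e he => show _ = (1 : ℝ) from ?_]
    · simp
    · have e3 : ∑ a, max (w θ a) 0 * f e a - ∑ a, max (-w θ a) 0 * f e a = sg θ e := by
        rw [← (hw θ (mem_powerset.1 hθ) e he).1, ← sum_sub_distrib]
        exact sum_congr rfl fun a _ => by rw [← sub_mul, max_zero_sub_max_neg_zero_eq_self]
      rw [neg_mul, ← sub_eq_add_neg, ← mul_sub, e3]
      unfold sg
      split_ifs <;> norm_num
  rw [e1] at k2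
  have e3 : (2 : ℝ) ^ #J * #J ≤
      2 ^ #J * (2 * (15 * 2 ^ 24 * K ^ 2 * D ^ 2 * Real.log (Fintype.card G) + #J / 4)) := by linarith
  have e4 := le_of_mul_le_mul_left e3 (by positivity)
  have e5 : 0 ≤ K ^ 2 * D ^ 2 * Real.log (Fintype.card G) :=
    mul_nonneg (by positivity) (Real.log_natCast_nonneg _)
  nlinarith

end

variable [Fintype ι]

theorem colour2 {E : Finset ι} {f : ι → α → ℝ} (hf : ∀ e ∈ E, Lip φ S₀ K (f e)) (hK : 0 < K)
    {δ : ℝ} (hδ : 0 < δ) (hE : 0 < #E)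
    (hm : 2 ^ 47 * K ^ 2 * Real.log (Fintype.card G) ≤ δ ^ 2 * #E) :
    ∃ x : ι → ℝ, (∀ e, |x e| ≤ 1) ∧ (∀ S, |∑ e ∈ E, x e * f e S| ≤ δ * ∑ e ∈ E, f e S) ∧
      #E < 64 * #{e ∈ E | |x e| = 1} := by
  by_contra hcon
  push Not at hcon
  have hE' : (0 : ℝ) < #E := by exact_mod_cast hE
  have hG : ∀ S, 0 ≤ δ * ∑ e ∈ E, f e S := fun S =>
    mul_nonneg hδ.le (sum_nonneg fun e he => (hf e he).nn S)
  have h1 : ∀ θ : Finset ι, ∃ B : Finset ι, (B ⊆ E ∧ 32 * #B ≤ #E) ∧ ∃ w : α → ℝ, ∀ e ∈ E, e ∉ B →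
      ∑ a, w a * f e a = sg θ e ∧ ∑ a, |w a| * f e a ≤ 64 / δ := fun θ => by
    obtain ⟨x, x1, x2, x3⟩ := extreme E f _ hG θ
    obtain ⟨w, w1, w2⟩ := dual _ f _ hG (fun S hS e he => (sum_eq_zero_iff_of_nonneg
      fun e he => (hf e he).nn S).1 ((mul_eq_zero.1 hS).resolve_left hδ.ne') e
      (mem_filter.1 he).1) _ hE' x3
    have a1 := hcon x x1 x2
    set B := {e ∈ E | 64 / δ < ∑ a, |w a| * f e a} with hB
    have a2 : #B * (64 / δ) ≤ ∑ e ∈ E, ∑ a, |w a| * f e a := by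
      rw [← nsmul_eq_mul]
      exact (card_nsmul_le_sum _ _ _ fun e he => (mem_filter.1 he).2.le).trans
        (sum_le_sum_of_subset_of_nonneg (filter_subset _ _) fun e he _ =>
          sum_nonneg fun a _ => mul_nonneg (abs_nonneg _) ((hf e he).nn a))
    rw [sum_comm, ← mul_div_assoc, div_le_iff₀ hδ] at a2
    simp only [← mul_sum] at a2
    simp only [mul_left_comm _ δ, ← mul_sum] at w2
    have a3 : 64 * #B ≤ #E := by
      have : (64 * #B : ℝ) ≤ #E := by linarith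
      exact_mod_cast this
    refine ⟨{e ∈ E | |x e| = 1} ∪ B, ⟨union_subset (filter_subset _ _) (filter_subset _ _), ?_⟩, w,
      fun e he he' => ?_⟩
    · have := card_union_le {e ∈ E | |x e| = 1} B
      omega
    · simp only [hB, mem_union, mem_filter, he, true_and, not_or, not_lt] at he'
      exact ⟨w1 e (mem_filter.2 ⟨he, he'.1⟩), he'.2⟩
  choose B hB w hw using h1
  obtain ⟨J, hJ, hJ', h⟩ := exists_shatter hE B hB
  have h2 := shat2 (fun e he => hf e (hJ he)) hK (D := 64 / δ) (by positivity) fun θ' hθ' => by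
    obtain ⟨θ, rfl, hd⟩ := h θ' hθ'
    refine ⟨w θ, fun e he => ?_⟩
    have := hw θ e (hJ he) (disjoint_left.1 hd he)
    simpa [sg, he] using this
  have h3 : (#E : ℝ) < 32 * #J := by exact_mod_cast hJ'
  have h4 : δ ^ 2 * #J ≤ 2 ^ 42 * K ^ 2 * Real.log (Fintype.card G) :=
    (mul_le_mul_of_nonneg_left h2 (sq_nonneg δ)).trans (le_of_eq (by field_simp; ring))
  nlinarith [mul_lt_mul_of_pos_left h3 (pow_pos hδ 2)]

theorem round2 {E : Finset ι} {f : ι → α → ℝ} (hf : ∀ e ∈ E, Lip φ S₀ K (f e)) (hK : 0 < K)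
    {δ : ℝ} (hδ : 0 < δ) (hE : 0 < #E)
    (hm : 2 ^ 47 * K ^ 2 * Real.log (Fintype.card G) ≤ δ ^ 2 * #E) :
    ∃ E₁ ⊆ E, ∃ c : ι → ℝ, (∀ e ∈ E₁, 0 < c e) ∧ 128 * #E₁ < 127 * #E ∧
      ∀ S, |∑ e ∈ E₁, c e * f e S - ∑ e ∈ E, f e S| ≤ δ * ∑ e ∈ E, f e S := by
  obtain ⟨x, x1, x2, x3⟩ := colour2 hf hK hδ hE hm
  wlog hw : #E < 128 * #{e ∈ E | x e = -1} generalizing x
  · refine this (fun e => -x e) (by simpa using x1) (by simpa using x2) (by simpa using x3) ?_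
    have : {e ∈ E | |x e| = 1} ⊆ {e ∈ E | x e = -1} ∪ {e ∈ E | -x e = -1} := fun e he => by
      simp only [mem_union, mem_filter, neg_inj] at he ⊢
      rcases (abs_eq zero_le_one).1 he.2 with h | h <;> simp [he.1, h]
    have := (card_le_card this).trans (card_union_le _ _)
    omega
  refine ⟨{e ∈ E | ¬ x e = -1}, filter_subset _ _, fun e => 1 + x e, fun e he => ?_, ?_,
    fun S => le_trans (le_of_eq ?_) (x2 S)⟩
  · have := lt_of_le_of_ne (abs_le.1 (x1 e)).1 (Ne.symm (mem_filter.1 he).2)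
    linarith
  · have := card_filter_add_card_filter_not (s := E) fun e => x e = -1
    omega
  · congr 1
    rw [sum_filter, ← sum_sub_distrib]
    refine sum_congr rfl fun e _ => ?_
    split_ifs with h
    · rw [h]; ring
    · ring

theorem sparsify2 (hK : 0 < K) {ε : ℝ} (hε : 0 < ε) (hε1 : ε < 1) {Q : ℝ}
    (hQ0 : 0 < Q) (hQ : 2 ^ 47 * K ^ 2 * Real.log (Fintype.card G) ≤ Q) (m : ℕ) :
    ∀ (E : Finset ι) (g : ι → α → ℝ), #E = m → (∀ e ∈ E, Lip φ S₀ K (g e)) → ∀ x : ℝ, #E ≤ x →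
      ∃ E' ⊆ E, ∃ s : ι → ℝ, (∀ e ∈ E', 0 < s e) ∧ (#E' : ℝ) ≤ 514 ^ 2 * Q / ε ^ 2 ∧
        ∀ S, |∑ e ∈ E', s e * g e S - ∑ e ∈ E, g e S| ≤
          max 0 (ε - 512 * √(Q / x)) * ∑ e ∈ E, g e S := by
  induction m using Nat.strong_induction_on with
  | _ m ih =>
  intro E g hm hg x hx
  have hF : ∀ S, 0 ≤ ∑ e ∈ E, g e S := fun S => sum_nonneg fun e he => (hg e he).nn S
  by_cases hsmall : (#E : ℝ) ≤ 514 ^ 2 * Q / ε ^ 2
  · refine ⟨E, subset_rfl, fun _ => 1, fun _ _ => one_pos, hsmall, fun S => ?_⟩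
    simpa using mul_nonneg (le_max_left _ _) (hF S)
  push Not at hsmall
  have hm0 : (0 : ℝ) < #E := lt_trans (by positivity) hsmall
  have hm1 : 0 < #E := by exact_mod_cast hm0
  set δ := √(Q / #E) with hδ
  have hδ0 : 0 < δ := by positivity
  have hδ2 : δ ^ 2 = Q / #E := Real.sq_sqrt (by positivity)
  obtain ⟨E₁, hE₁, c, hc, hcard, h₁⟩ := round2 hg hK hδ0 hm1
    (by rwa [hδ2, div_mul_cancel₀ _ hm0.ne'])
  have hcard' : (#E₁ : ℝ) ≤ 127 / 128 * #E := by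
    have : (128 * #E₁ : ℝ) < 127 * #E := by exact_mod_cast hcard
    linarith
  obtain ⟨E', hE', s, hs, hcard'', h₂⟩ := ih #E₁ (by omega) E₁ (fun e S => c e * g e S) rfl
    (fun e he => (hg e (hE₁ he)).smul (hc e he).le) _ hcard'
  refine ⟨E', hE'.trans hE₁, fun e => s e * c e, fun e he => mul_pos (hs e he) (hc e (hE' he)),
    hcard'', fun S => ?_⟩
  have a1 : 257 / 256 * δ ≤ √(Q / (127 / 128 * #E)) := by
    refine Real.le_sqrt_of_sq_le ?_
    have : Q / (127 / 128 * #E) = 128 / 127 * (Q / #E) := by field_simp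
    rw [this, mul_pow, hδ2]
    have : 0 ≤ Q / #E := by positivity
    nlinarith
  have a2 : δ ≤ ε / 514 := by
    refine Real.sqrt_le_iff.2 ⟨by positivity, ?_⟩
    rw [div_lt_iff₀ (by positivity)] at hsmall
    rw [div_le_iff₀ hm0]
    nlinarith
  have a3 : √(Q / x) ≤ δ := Real.sqrt_le_sqrt (div_le_div_of_nonneg_left hQ0.le hm0 hx)
  have a4 : max 0 (ε - 512 * √(Q / (127 / 128 * #E))) ≤ ε - 514 * δ :=
    max_le (by linarith) (by linarith)
  have a5 : ε - 512 * δ ≤ max 0 (ε - 512 * √(Q / x)) := le_max_of_le_right (by linarith)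
  have b1 := h₁ S
  have b2 := h₂ S
  have b3 := hF S
  simp only [mul_assoc] at b2 ⊢
  set A := ∑ e ∈ E', s e * (c e * g e S)
  set B := ∑ e ∈ E₁, c e * g e S
  set C := ∑ e ∈ E, g e S
  have b4 : B ≤ (1 + δ) * C := by linarith [(abs_le.1 b1).2]
  have b5 : 0 ≤ B := sum_nonneg fun e he => mul_nonneg (hc e he).le ((hg e (hE₁ he)).nn S)
  have b6 : |A - B| ≤ (ε - 514 * δ) * ((1 + δ) * C) :=
    b2.trans (mul_le_mul a4 b4 b5 (by linarith))
  have b7 : |A - C| ≤ |A - B| + |B - C| := abs_sub_le _ _ _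
  have b8 : (ε - 514 * δ) * δ * C ≤ δ * C := by
    refine mul_le_mul_of_nonneg_right ?_ b3
    nlinarith
  refine le_trans ?_ (mul_le_mul_of_nonneg_right a5 b3)
  nlinarith

/-- Lipschitz families on a group `G` have sparsifiers of size `O(K² log |G| / ε²)`. -/
theorem main2 {g : ι → α → ℝ} (hg : ∀ e, Lip φ S₀ K (g e)) (hK : 0 < K) {ε : ℝ}
    (hε : 0 < ε) (hε1 : ε < 1) {N : ℝ} (hN0 : 0 < N) (hN : Real.log (Fintype.card G) ≤ N) :
    ∃ (E' : Finset ι) (s : ι → ℝ), (∀ e ∈ E', 0 < s e) ∧ (#E' : ℝ) ≤ 2 ^ 66 * K ^ 2 * N / ε ^ 2 ∧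
      ∀ S, (1 - ε) * ∑ e, g e S ≤ ∑ e ∈ E', s e * g e S ∧
        ∑ e ∈ E', s e * g e S ≤ (1 + ε) * ∑ e, g e S := by
  obtain ⟨E', -, s, hs, hc, h⟩ := sparsify2 hK hε hε1 (Q := 2 ^ 47 * K ^ 2 * N) (by positivity)
    (mul_le_mul_of_nonneg_left hN (by positivity)) _ univ g rfl (fun e _ => hg e) _ le_rfl
  refine ⟨E', s, hs, hc.trans (div_le_div_of_nonneg_right ?_ (by positivity)), fun S => ?_⟩
  · have : 0 ≤ K ^ 2 * N := by positivity
    nlinarith
  · have := abs_le.1 ((h S).trans (mul_le_mul_of_nonneg_right (max_le hε.le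
      (sub_le_self _ (by positivity))) (sum_nonneg fun e _ => (hg e).nn S)))
    constructor <;> linarith [this.1, this.2]

end Pool.Agent.Lib.MP_348529_lc.X
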