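import Pool.Agent.Lib.MP_348529_lc.YInfo

/-!
Tail and variance bounds for smoothed statistics.
-/

namespace Pool.Agent.Lib.MP_348529_lc.X

open Finset

variable {G : Type} [Fintype G] {Y φ p q : G → ℝ} {a a' s s' v : ℝ}

/-- Mean at most `a` and upper fluctuations of second moment at most `s`. -/
structure Good (Y p : G → ℝ) (a s : ℝ) : Prop where
  prob : Prob p
  mean : Ev p Y ≤ a
  fl : ∀ l, Ev p (fun x => max (Y x - a + l) 0 ^ 2) ≤ s + max l 0 ^ 2

lemma max_sq_le {x y : ℝ} (h : x ≤ y) : max x 0 ^ 2 ≤ max y 0 ^ 2 :=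
  pow_le_pow_left₀ (le_max_right _ _) (max_le_max h le_rfl) 2

lemma Good.mono (h : Good Y p a s) (ha : a ≤ a') (hs : s ≤ s') : Good Y p a' s' :=
  ⟨h.prob, h.mean.trans ha, fun l => (h.prob.pr.mono fun _ => max_sq_le (by linarith)).trans
    ((h.fl l).trans (by linarith))⟩

lemma good_base (hp : Prob p) (hY : ∀ x, 0 ≤ Y x) (ha : Ev p Y ≤ a) :
    Good Y p a (Ev p fun x => Y x ^ 2) := by
  refine ⟨hp, ha, fun l => ?_⟩
  have h0 : 0 ≤ a := (hp.pr.nonneg hY).trans ha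
  rcases le_total l a with c | c
  · refine (hp.pr.mono (g := fun x => Y x ^ 2) fun x => ?_).trans (le_add_of_nonneg_right (sq_nonneg _))
    exact (max_sq_le (y := Y x) (by linarith)).trans (by rw [max_eq_left (hY x)])
  · have e : ∀ x, max (Y x - a + l) 0 ^ 2 = Y x ^ 2 + 2 * (l - a) * Y x + (l - a) ^ 2 := fun x => by
      rw [max_eq_left (by linarith [hY x])]; ring
    simp only [e]
    rw [Pr.add, Pr.add, Pr.mul, hp.pr.const, max_eq_left (h0.trans c)]
    nlinarith [mul_le_mul_of_nonneg_left ha (sub_nonneg.2 c)]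

variable [AddCommGroup G]

lemma Good.conv (hY : ∀ x y, Y (x + y) ≤ Y x + Y y) (h : Good Y p a s) (h' : Good Y q a' s') :
    Good Y (conv p q) (a + a') (s + s') := by
  refine ⟨h.prob.conv h'.prob, ?_, fun l => ?_⟩
  · rw [Ev_conv]
    refine (h.prob.pr.mono (g := fun x => Y x + a') fun x =>
      (h'.prob.pr.mono fun y => hY x y).trans ?_).trans ?_
    · rw [Pr.add, h'.prob.pr.const]; linarith [h'.mean]
    · rw [Pr.add, h.prob.pr.const]; linarith [h.mean]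
  · rw [Ev_conv]
    refine (h.prob.pr.mono (g := fun x => s' + max (Y x - a + l) 0 ^ 2) fun x =>
      (h'.prob.pr.mono fun y => max_sq_le (by linarith [hY x y])).trans (h'.fl _)).trans ?_
    rw [Pr.add, h.prob.pr.const]
    linarith [h.fl l]

/-- A slice `φ` at level `v`, Lipschitz for the truncated length `Y`. -/
structure Ph (φ Y : G → ℝ) (v : ℝ) : Prop where
  nn : ∀ x, 0 ≤ Y x
  le : ∀ x, Y x ≤ v
  add : ∀ x y, Y (x + y) ≤ Y x + Y y
  lip : ∀ x y, |φ (x + y) - φ x| ≤ Y y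
  zero : ∀ x, Y x < v → φ x = 0

/-- The properties of a smoothed slice. -/
structure Sm (χ φ Y : G → ℝ) (a v π : ℝ) : Prop where
  near : ∀ z, |χ z - φ z| ≤ 3 * a
  lip : ∀ z z', |χ (z + z') - χ z| ≤ Y z'
  small : ∀ z, Y z ≤ v / 2 → |χ z - χ 0| ≤ Y z * π

/-- Smoothing by the noise `ρ`. -/
noncomputable def sm (ρ φ : G → ℝ) (z : G) : ℝ := Ev ρ fun r => φ (z + r)

section

variable (h : Ph φ Y v) (ha : 0 < a) (hv : 32 * a ≤ v) {π : ℝ} (hπ : 128 * s / v ^ 2 = π)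

include ha hv hπ

omit [AddCommGroup G] in
lemma Good.tail (g : Good Y p (3 * a) (2 * s)) :
    ∃ T : G → ℝ, (∀ x, 0 ≤ T x) ∧ (∀ x, v / 4 < Y x → 1 ≤ T x) ∧ Ev p T ≤ π := by
  have hv0 : 0 < v := by linarith
  refine ⟨fun x => 64 / v ^ 2 * max (Y x - 3 * a + 0) 0 ^ 2, fun x => by positivity,
    fun x hx => ?_, ?_⟩
  · have := max_sq_le (x := v / 8) (y := Y x - 3 * a + 0) (by linarith)
    rw [max_eq_left (by positivity)] at this
    beta_reduce
    rw [div_mul_eq_mul_div, le_div_iff₀ (by positivity)]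
    nlinarith
  · rw [Pr.mul, ← hπ]
    refine (mul_le_mul_of_nonneg_left (g.fl 0) (by positivity)).trans (le_of_eq ?_)
    simp only [max_self]
    ring

include h

lemma Good.sm (g : Good Y p (3 * a) (2 * s)) : Sm (sm p φ) φ Y a v π := by
  obtain ⟨T, T0, T1, T2⟩ := g.tail ha hv hπ
  have hp := g.prob.pr
  refine ⟨fun z => ?_, fun z z' => ?_, fun z hz => ?_⟩
  · rw [← hp.const (φ z)]
    exact (hp.abs_le fun r => h.lip z r).trans g.mean
  · rw [← hp.const (Y z')]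
    exact hp.abs_le fun r => by rw [add_right_comm]; exact h.lip _ _
  · refine (hp.abs_le (u := fun r => Y z * T r) fun r => ?_).trans
      (by rw [Pr.mul]; exact mul_le_mul_of_nonneg_left T2 (h.nn z))
    by_cases c : v / 4 < Y r
    · rw [zero_add, add_comm]
      exact (h.lip _ _).trans (le_mul_of_one_le_right (h.nn z) (T1 r c))
    · rw [h.zero _ (by linarith [h.add z r]), zero_add, h.zero r (by linarith), sub_zero, abs_zero]
      exact mul_nonneg (h.nn z) (T0 r)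

variable (hs0 : 0 ≤ s) (hs : s ≤ 2 * a * v) (g : Good Y p (3 * a) (2 * s))

include hs0 hs g

omit hπ hs0 hs hv in
lemma sq_mean : Ev p (fun z => Y z ^ 2) ≤ 3 * a * v := by
  refine (g.prob.pr.mono (g := fun z => v * Y z) fun z => ?_).trans ?_
  · rw [sq]; exact mul_le_mul_of_nonneg_right (h.le z) (h.nn z)
  · rw [Pr.mul, mul_comm]
    exact mul_le_mul_of_nonneg_right g.mean ((h.nn 0).trans (h.le 0))

omit h g [Fintype G] [AddCommGroup G] in
lemma pi_le : 0 ≤ π ∧ π * v ≤ 256 * a ∧ π ≤ 8 := by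
  have hv0 : 0 < v := by linarith
  have h1 : π * v ≤ 256 * a := by
    rw [← hπ, div_mul_eq_mul_div, div_le_iff₀ (by positivity)]
    nlinarith
  exact ⟨by rw [← hπ]; positivity, h1, le_of_mul_le_mul_right (by linarith) hv0⟩

lemma top_sq {χ : G → ℝ} (c : Sm χ φ Y a v π) :
    Ev p (fun z => (χ z - χ 0) ^ 2) ≤ 2 * π * v ^ 2 := by
  obtain ⟨T, T0, T1, T2⟩ := g.tail ha hv hπ
  obtain ⟨p0, p1, p2⟩ := pi_le ha hv hπ hs0 hs
  have hv0 : 0 < v := by linarith
  refine (g.prob.pr.mono (g := fun z => v ^ 2 * T z + π ^ 2 * Y z ^ 2) fun z => ?_).trans ?_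
  · have t0 := T0 z
    rw [← sq_abs]
    by_cases b : v / 4 < Y z
    · have h1 := c.lip 0 z
      rw [zero_add] at h1
      have h2 := pow_le_pow_left₀ (abs_nonneg _) (h1.trans (h.le z)) 2
      nlinarith [mul_le_mul_of_nonneg_left (T1 z b) (sq_nonneg v), sq_nonneg (π * Y z)]
    · have h2 := pow_le_pow_left₀ (abs_nonneg _) (c.small z (by linarith)) 2
      nlinarith [mul_nonneg (sq_nonneg v) t0]
  · rw [Pr.add, Pr.mul, Pr.mul]
    have h1 := mul_le_mul_of_nonneg_left (sq_mean h ha g) (sq_nonneg π)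
    have h2 := mul_le_mul_of_nonneg_left T2 (sq_nonneg v)
    have h3 : π * (3 * a) ≤ v := by nlinarith
    nlinarith [mul_le_mul_of_nonneg_left h3 (mul_nonneg p0 hv0.le)]

lemma W_sq {χ χ' : G → ℝ} (c : Sm χ φ Y a v π) (c' : Sm χ' φ Y a v π) :
    Ev p (fun z => (χ z - χ' z - χ 0 + χ' 0) ^ 2) ≤ 3216 * a ^ 2 * π := by
  obtain ⟨T, T0, T1, T2⟩ := g.tail ha hv hπ
  obtain ⟨p0, p1, p2⟩ := pi_le ha hv hπ hs0 hs
  refine (g.prob.pr.mono (g := fun z => 144 * a ^ 2 * T z + 4 * π ^ 2 * Y z ^ 2)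
    fun z => ?_).trans ?_
  · have t0 := T0 z
    by_cases b : v / 4 < Y z
    · have h2 : (χ z - χ' z - χ 0 + χ' 0) ^ 2 ≤ (12 * a) ^ 2 := sq_le_sq'
        (by linarith [abs_le.1 (c.near z), abs_le.1 (c'.near z), abs_le.1 (c.near 0),
          abs_le.1 (c'.near 0)])
        (by linarith [abs_le.1 (c.near z), abs_le.1 (c'.near z), abs_le.1 (c.near 0),
          abs_le.1 (c'.near 0)])
      nlinarith [mul_le_mul_of_nonneg_left (T1 z b) (sq_nonneg a), sq_nonneg (π * Y z)]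
    · have h1 := abs_le.1 (c.small z (by linarith))
      have h1' := abs_le.1 (c'.small z (by linarith))
      have h2 : (χ z - χ' z - χ 0 + χ' 0) ^ 2 ≤ (2 * (Y z * π)) ^ 2 :=
        sq_le_sq' (by linarith) (by linarith)
      nlinarith [mul_nonneg (sq_nonneg a) t0]
  · rw [Pr.add, Pr.mul, Pr.mul]
    have h1 := mul_le_mul_of_nonneg_left (sq_mean h ha g) (sq_nonneg π)
    have h2 := mul_le_mul_of_nonneg_left T2 (sq_nonneg a)
    nlinarith [mul_le_mul_of_nonneg_left p1 (mul_nonneg p0 ha.le)]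

lemma D_sq {χ χ' : G → ℝ} (c : Sm χ φ Y a v π) (c' : Sm χ' φ Y a v π) :
    Ev p (fun z => Ev p fun z' => (χ z + χ z' - χ' (z + z') - (2 * χ 0 - χ' 0)) ^ 2) ≤
      450 * π * a * v := by
  obtain ⟨T, T0, T1, T2⟩ := g.tail ha hv hπ
  obtain ⟨p0, p1, p2⟩ := pi_le ha hv hπ hs0 hs
  have hv0 : 0 < v := by linarith
  have hp := g.prob.pr
  have b1 : ∀ z z', (χ z + χ z' - χ' (z + z') - (2 * χ 0 - χ' 0)) ^ 2 ≤
      8 * Y z' ^ 2 + 288 * a ^ 2 := fun z z' => by
    have h1 := abs_le.1 (c.lip 0 z')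
    rw [zero_add] at h1
    have h2 : (χ z + χ z' - χ' (z + z') - (2 * χ 0 - χ' 0)) ^ 2 ≤ (2 * Y z' + 12 * a) ^ 2 :=
      sq_le_sq'
        (by linarith [abs_le.1 (c.near z), abs_le.1 (c'.near z), abs_le.1 (c.near 0),
          abs_le.1 (c'.near 0), abs_le.1 (c'.lip z z')])
        (by linarith [abs_le.1 (c.near z), abs_le.1 (c'.near z), abs_le.1 (c.near 0),
          abs_le.1 (c'.near 0), abs_le.1 (c'.lip z z')])
    nlinarith [sq_nonneg (2 * Y z' - 12 * a)]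
  have b2 : ∀ z z', (χ z + χ z' - χ' (z + z') - (2 * χ 0 - χ' 0)) ^ 2 ≤
      T z * (8 * Y z' ^ 2 + 288 * a ^ 2) + (8 * Y z ^ 2 + 288 * a ^ 2) * T z' +
        (8 * π ^ 2 * Y z ^ 2 + 8 * π ^ 2 * Y z' ^ 2) := fun z z' => by
    have t0 : 0 ≤ T z * (8 * Y z' ^ 2 + 288 * a ^ 2) := mul_nonneg (T0 z) (by positivity)
    have t1 : 0 ≤ (8 * Y z ^ 2 + 288 * a ^ 2) * T z' := mul_nonneg (by positivity) (T0 z')
    have t2 : 0 ≤ 8 * π ^ 2 * Y z ^ 2 + 8 * π ^ 2 * Y z' ^ 2 := by positivity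
    by_cases b : v / 4 < Y z
    · linarith [b1 z z', le_mul_of_one_le_left
        (show 0 ≤ 8 * Y z' ^ 2 + 288 * a ^ 2 by positivity) (T1 z b)]
    by_cases b' : v / 4 < Y z'
    · have := b1 z' z
      rw [add_comm z' z, add_comm (χ z')] at this
      linarith [le_mul_of_one_le_right
        (show 0 ≤ 8 * Y z ^ 2 + 288 * a ^ 2 by positivity) (T1 z' b')]
    have h1 := abs_le.1 (c.small z (by linarith))
    have h2 := abs_le.1 (c.small z' (by linarith))
    have h3 := abs_le.1 ((c'.small (z + z') (by linarith [h.add z z'])).trans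
      (mul_le_mul_of_nonneg_right (h.add z z') p0))
    have h4 : (χ z + χ z' - χ' (z + z') - (2 * χ 0 - χ' 0)) ^ 2 ≤ (2 * ((Y z + Y z') * π)) ^ 2 :=
      sq_le_sq' (by linarith) (by linarith)
    nlinarith [sq_nonneg (π * (Y z - Y z'))]
  refine (hp.mono fun z => hp.mono fun z' => b2 z z').trans ?_
  simp only [Pr.add, Pr.mul, Pr.mul', hp.const]
  have h1 := sq_mean h ha g
  have h2 : 0 ≤ Ev p fun z => Y z ^ 2 := hp.nonneg fun _ => sq_nonneg _
  have h3 : 0 ≤ Ev p T := hp.nonneg T0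
  have h4 : 8 * Ev p (fun z => Y z ^ 2) + 288 * a ^ 2 ≤ 33 * a * v := by nlinarith
  have h5 := mul_le_mul T2 h4 (by positivity) p0
  have h6 := mul_le_mul_of_nonneg_left h1 (sq_nonneg π)
  nlinarith [mul_le_mul_of_nonneg_left p2 (show 0 ≤ π * a * v by positivity)]

lemma beta_sq {χ : G → ℝ} (c : Sm χ φ Y a v π) (g1 : Good Y q (3 * a) (2 * s))
    (g2 : Good Y (conv p q) (3 * a) (2 * s)) :
    Ev p (fun z => Ev p (fun z' =>
      χ z + χ z' - sm q φ (z + z') - (2 * χ 0 - sm q φ 0)) ^ 2) ≤ 12864 * a ^ 2 * π := by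
  have hp := g.prob.pr
  have h1 := W_sq h ha hv hπ hs0 hs g c (g1.sm h ha hv hπ)
  have h2 := W_sq h ha hv hπ hs0 hs g c (g2.sm h ha hv hπ)
  have h3 := hp.sq_le fun z => χ z - sm q φ z - χ 0 + sm q φ 0
  have e1 : ∀ z, Ev p (fun z' => sm q φ (z + z')) = sm (conv p q) φ z := fun z => by
    simp only [sm, Ev_conv, add_assoc]
  have e2 := e1 0
  simp only [zero_add] at e2
  refine (hp.mono (g := fun z => 2 * (χ z - sm (conv p q) φ z - χ 0 + sm (conv p q) φ 0) ^ 2 +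
    2 * Ev p (fun z => χ z - sm q φ z - χ 0 + sm q φ 0) ^ 2) fun z => ?_).trans ?_
  · simp only [Pr.add, Pr.sub, hp.const, e1, e2]
    nlinarith [sq_nonneg (χ z - sm (conv p q) φ z - χ 0 + sm (conv p q) φ 0 -
      (Ev p χ - sm (conv p q) φ 0 - χ 0 + sm q φ 0))]
  · rw [Pr.add, Pr.mul, hp.const]
    linarith

end

end Pool.Agent.Lib.MP_348529_lc.X
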