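import Pool.Agent.Lib.MP_348529_lc.YPart

/-!
Set functions that are Lipschitz for the symmetric difference.
-/

namespace Pool.Agent.Lib.MP_348529_lc.X

open Finset

variable {V : Type} [Fintype V] [DecidableEq V]

/-- The indicator vector modulo two. -/
def ind (S : Finset V) : V → ZMod 2 := fun v => if v ∈ S then 1 else 0

/-- The support of a vector modulo two. -/
def spt (x : V → ZMod 2) : Finset V := {v | x v = 1}

lemma spt_ind (S : Finset V) : spt (ind S) = S := by ext v; simp [spt, ind]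

lemma spt_add (x y : V → ZMod 2) : spt (x + y) = symmDiff (spt x) (spt y) := by
  have : ∀ a b : ZMod 2, a + b = 1 ↔ a = 1 ∧ ¬ b = 1 ∨ b = 1 ∧ ¬ a = 1 := by decide
  ext v
  simp [spt, mem_symmDiff, this]

lemma lip_xor {g : Finset V → ℝ} {K : ℝ} (h0 : g ∅ = 0) (h1 : ∀ S, 0 ≤ g S)
    (h2 : ∀ S T, g (symmDiff S T) ≤ g S + K * g T) : Lip ind ∅ K g := by
  have e0 : spt (0 : V → ZMod 2) = ∅ := by ext v; simp [spt]
  have hle : ∀ x y : V → ZMod 2, |g (spt (x + y)) - g (spt x)| ≤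
      univ.sup' univ_nonempty fun x => |g (spt (x + y)) - g (spt x)| := fun x y =>
    le_sup' (fun x => |g (spt (x + y)) - g (spt x)|) (mem_univ x)
  refine ⟨h1, h0, fun x => g (spt x),
    fun y => univ.sup' univ_nonempty fun x => |g (spt (x + y)) - g (spt x)|,
    ⟨by rw [e0, h0], fun x => h1 _, hle, by simp, fun y z => sup'_le _ _ fun x _ => ?_⟩,
    fun S => ⟨congrArg g (spt_ind S), sup'_le _ _ fun x _ => ?_⟩⟩
  · have := abs_sub_le (g (spt (x + y + z))) (g (spt (x + y))) (g (spt x))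
    rw [← add_assoc]
    linarith [hle x y, hle (x + y) z]
  · have := h2 (symmDiff (spt x) S) S
    rw [symmDiff_symmDiff_cancel_right] at this
    rw [spt_add, spt_ind]
    exact abs_le.2 ⟨by linarith, by linarith [h2 (spt x) S]⟩

omit [Fintype V] in
/-- Symmetric submodular functions are in the class with `K = 1`. -/
theorem xor_of_symm {e : Finset V} {g : Finset V → ℝ} (g0 : g ∅ = 0)
    (g2 : ∀ S ⊆ e, ∀ T ⊆ e, g (S ∪ T) + g (S ∩ T) ≤ g S + g T) (g3 : ∀ S ⊆ e, g (e \ S) = g S)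
    {S T : Finset V} (hS : S ⊆ e) (hT : T ⊆ e) : g (symmDiff S T) ≤ g S + 1 * g T := by
  have h1 := g2 (S \ T) (sdiff_subset.trans hS) (T \ S) (sdiff_subset.trans hT)
  have h2 := g2 S hS (e \ T) sdiff_subset
  have h3 := g3 (T \ S) (sdiff_subset.trans hT)
  have e1 : S \ T ∩ (T \ S) = ∅ := by ext x; simp; tauto
  have e2 : S ∩ (e \ T) = S \ T := by
    ext x; have := @hS x; simp only [mem_inter, mem_sdiff]; tauto
  have e3 : S ∪ e \ T = e \ (T \ S) := by
    ext x; have := @hS x; simp only [mem_union, mem_sdiff]; tauto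
  rw [e1, g0] at h1
  rw [e2, e3, h3, g3 T hT] at h2
  rw [symmDiff_def, sup_eq_union]
  linarith

omit [Fintype V] in
/-- Monotone submodular functions are in the class with `K = 1`. -/
theorem xor_of_mono {e : Finset V} {g : Finset V → ℝ} (g1 : ∀ S ⊆ e, 0 ≤ g S)
    (g2 : ∀ S ⊆ e, ∀ T ⊆ e, g (S ∪ T) + g (S ∩ T) ≤ g S + g T)
    (g3 : ∀ T ⊆ e, ∀ S ⊆ T, g S ≤ g T) {S T : Finset V} (hS : S ⊆ e) (hT : T ⊆ e) :
    g (symmDiff S T) ≤ g S + 1 * g T := by
  linarith [g3 _ (union_subset hS hT) (symmDiff S T) symmDiff_subset_union, g2 S hS T hT,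
    g1 _ (inter_subset_left.trans hS : S ∩ T ⊆ e)]

end Pool.Agent.Lib.MP_348529_lc.X
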